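import Pool.Agent.Lib.MP_8f11b1_co_RX.Defs

set_option autoImplicit false

namespace Pool.Agent.MP8f11b1

variable {F α V V' : Type} [Field F] [AddCommGroup V] [Module F V] [AddCommGroup V'] [Module F V']

private theorem finrank_span_aux (f : α → V) {I : Set α} (hI : LinearIndepOn F f I)
    (hf : I.Finite) : Module.finrank F (Submodule.span F (f '' I)) = I.ncard := by
  have := hf.fintype
  have h := finrank_span_eq_card hI
  rw [Set.image_eq_range, h, ← Nat.card_eq_fintype_card, Nat.card_coe_set_eq]

theorem lin_extend (f : α → V) {I J : Set α} (hIJ : I ⊆ J) (hI : LinearIndepOn F f I) :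
    ∃ B, I ⊆ B ∧ B ⊆ J ∧ LinearIndepOn F f B ∧ f '' J ⊆ Submodule.span F (f '' B) := by
  obtain ⟨B, h1, h2, h3, h4⟩ := exists_linearIndepOn_extension hI hIJ
  exact ⟨B, h2, h1, h4, h3⟩

theorem lin_insert (f : α → V) {I J : Set α} (hIf : I.Finite) (hJf : J.Finite)
    (hI : LinearIndepOn F f I)
    (hJ : LinearIndepOn F f J) (h : I.ncard < J.ncard) :
    ∃ e ∈ J, e ∉ I ∧ LinearIndepOn F f (insert e I) := by
  by_contra hcon
  push Not at hcon
  have hspan : Submodule.span F (f '' J) ≤ Submodule.span F (f '' I) := by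
    rw [Submodule.span_le]
    rintro _ ⟨e, he, rfl⟩
    by_cases heI : e ∈ I
    · exact Submodule.subset_span ⟨e, heI, rfl⟩
    · by_contra hns
      exact hcon e he heI ((linearIndepOn_insert heI).2 ⟨hI, hns⟩)
  have : FiniteDimensional F (Submodule.span F (f '' I)) :=
    FiniteDimensional.span_of_finite F (hIf.image f)
  have h1 := Submodule.finrank_mono hspan
  rw [finrank_span_aux f hI hIf, finrank_span_aux f hJ hJf] at h1
  omega

theorem lin_union_iff (f : α → V) {B X : Set α} (hX : LinearIndepOn F f X) (hd : Disjoint B X)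
    (L : V →ₗ[F] V') (hk : LinearMap.ker L = Submodule.span F (f '' X)) :
    LinearIndepOn F f (B ∪ X) ↔ LinearIndepOn F (fun z => L (f z)) B := by
  rw [Set.union_comm, ← hX.quotient_iff_union hd.symm]
  set S := Submodule.span F (f '' X) with hS
  have hle : S ≤ LinearMap.ker L := hk.symm.le
  have hker : LinearMap.ker (S.liftQ L hle) = ⊥ :=
    Submodule.ker_liftQ_eq_bot _ _ _ hk.le
  have he : (fun z => L (f z)) = (S.liftQ L hle) ∘ (S.mkQ ∘ f) := by
    funext z
    simp
  rw [he]
  exact (LinearMap.linearIndependent_iff (S.liftQ L hle) (v := fun i : B => S.mkQ (f i))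
    hker).symm

theorem lin_ncard_le [FiniteDimensional F V] (f : α → V) {I : Set α} (hI : LinearIndepOn F f I) :
    I.Finite ∧ I.ncard ≤ Module.finrank F V := by
  have : Finite I := LinearIndependent.finite hI
  have hf : I.Finite := Set.toFinite I
  refine ⟨hf, ?_⟩
  rw [← finrank_span_aux f hI hf]
  exact Submodule.finrank_le _

theorem lin_finrank_span (f : α → V) {I : Set α} (hI : LinearIndepOn F f I) (hf : I.Finite) :
    Module.finrank F (Submodule.span F (f '' I)) = I.ncard :=
  finrank_span_aux f hI hf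

theorem lin_span_top [FiniteDimensional F V] (f : α → V) {I : Set α}
    (hI : LinearIndepOn F f I) (hc : I.ncard = Module.finrank F V) :
    Submodule.span F (f '' I) = ⊤ := by
  have : Finite I := LinearIndependent.finite hI
  refine Submodule.eq_top_of_finrank_eq ?_
  rw [finrank_span_aux f hI (Set.toFinite I), hc]

theorem lin_dual (S : Submodule F V) (hS : S ≠ ⊤) :
    ∃ θ : V →ₗ[F] F, θ ≠ 0 ∧ ∀ v ∈ S, θ v = 0 := by
  obtain ⟨θ, h0, hle⟩ := S.exists_le_ker_of_lt_top (lt_top_iff_ne_top.2 hS)
  exact ⟨θ, h0, fun v hv => LinearMap.mem_ker.1 (hle hv)⟩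

end Pool.Agent.MP8f11b1
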