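import Pool.Agent.Lib.MP_8f11b1_co_RX.MinX

set_option autoImplicit false

namespace Pool.Agent.MP8f11b1

variable {α β γ : Type}

namespace IsoM

/-- transport of a subset along an equivalence of the ground sets -/
def tr {A : Set α} {B : Set β} (e : ↥A ≃ ↥B) (S : Set α) : Set β :=
  Subtype.val '' (e '' (Subtype.val ⁻¹' S))

theorem mem_tr {A : Set α} {B : Set β} (e : ↥A ≃ ↥B) (S : Set α) (y : β) :
    y ∈ tr e S ↔ ∃ x : ↥A, x.1 ∈ S ∧ (e x).1 = y := by
  constructor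
  · rintro ⟨_, ⟨x, hx, rfl⟩, rfl⟩
    exact ⟨x, hx, rfl⟩
  · rintro ⟨x, hx, rfl⟩
    exact ⟨e x, ⟨x, hx, rfl⟩, rfl⟩

theorem tr_union {A : Set α} {B : Set β} (e : ↥A ≃ ↥B) (S T : Set α) :
    tr e (S ∪ T) = tr e S ∪ tr e T := by
  unfold tr
  rw [Set.preimage_union, Set.image_union, Set.image_union]

theorem tr_subset {A : Set α} {B : Set β} (e : ↥A ≃ ↥B) (S : Set α) : tr e S ⊆ B := by
  rintro _ ⟨y, _, rfl⟩
  exact y.2

theorem val_pre {A S : Set α} (h : S ⊆ A) :
    Subtype.val '' (Subtype.val ⁻¹' S : Set ↥A) = S := by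
  rw [Subtype.image_preimage_coe, Set.inter_eq_right]
  exact h

theorem indep_tr {M : Matroid α} {N : Matroid β} (e : ↥M.E ≃ ↥N.E)
    (h : ∀ I : Set ↥M.E, M.Indep (Subtype.val '' I) ↔ N.Indep (Subtype.val '' (e '' I)))
    {S : Set α} (hS : S ⊆ M.E) : M.Indep S ↔ N.Indep (tr e S) := by
  have h1 := h (Subtype.val ⁻¹' S)
  rw [val_pre hS] at h1
  exact h1

theorem symm_aux {M : Matroid α} {N : Matroid β} (e : ↥M.E ≃ ↥N.E)
    (h : ∀ I : Set ↥M.E, M.Indep (Subtype.val '' I) ↔ N.Indep (Subtype.val '' (e '' I)))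
    (J : Set ↥N.E) : N.Indep (Subtype.val '' J) ↔ M.Indep (Subtype.val '' (e.symm '' J)) := by
  have h1 := h (e.symm '' J)
  have h2 : e '' (e.symm '' J) = J := by
    rw [Set.image_image]
    simp
  rw [h2] at h1
  exact h1.symm

end IsoM

open IsoM

theorem Iso.refl (M : Matroid α) : Iso M M := by
  refine ⟨Equiv.refl _, fun I => ?_⟩
  have h : (Equiv.refl ↥M.E) '' I = I := by simp
  rw [h]

theorem Iso.symm {M : Matroid α} {N : Matroid β} (h : Iso M N) : Iso N M := by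
  obtain ⟨e, he⟩ := h
  exact ⟨e.symm, symm_aux e he⟩

theorem Iso.trans {M : Matroid α} {N : Matroid β} {P : Matroid γ} (h : Iso M N)
    (h' : Iso N P) : Iso M P := by
  obtain ⟨e, he⟩ := h
  obtain ⟨e', he'⟩ := h'
  refine ⟨e.trans e', fun I => ?_⟩
  have h1 : (e.trans e') '' I = e' '' (e '' I) := by
    rw [Set.image_image]
    rfl
  rw [he, he', h1]

theorem Iso.finite {M : Matroid α} {N : Matroid β} (h : Iso M N) (hM : M.Finite) :
    N.Finite := by
  obtain ⟨e, _⟩ := h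
  have h1 : Finite ↥M.E := hM.ground_finite
  have h2 : Finite ↥N.E := Finite.of_equiv _ e
  exact ⟨h2⟩

theorem iso_of_isU2 {M : Matroid α} {N : Matroid β} {k : ℕ} (hk : 0 < k) (hM : IsU2 k M)
    (hN : IsU2 k N) : Iso M N := by
  have h1 : Finite ↥M.E := Set.finite_of_ncard_pos (by rw [hM.1]; exact hk)
  have h2 : Finite ↥N.E := Set.finite_of_ncard_pos (by rw [hN.1]; exact hk)
  have h3 : Nat.card ↥M.E = Nat.card ↥N.E := by
    rw [Nat.card_coe_set_eq, Nat.card_coe_set_eq, hM.1, hN.1]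
  obtain ⟨e⟩ := (Finite.card_eq).1 h3
  refine ⟨e, fun I => ?_⟩
  rw [hM.2 _ (by rintro _ ⟨x, _, rfl⟩; exact x.2), hN.2 _ (by rintro _ ⟨x, _, rfl⟩; exact x.2),
    Set.ncard_image_of_injective _ Subtype.val_injective,
    Set.ncard_image_of_injective _ Subtype.val_injective,
    Set.ncard_image_of_injective _ e.injective]

theorem isU2_of_iso {M : Matroid α} {N : Matroid β} {k : ℕ} (h : Iso M N) (hN : IsU2 k N) :
    IsU2 k M := by
  obtain ⟨e, he⟩ := h
  refine ⟨?_, fun I hI => ?_⟩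
  · rw [← hN.1, ← Nat.card_coe_set_eq, ← Nat.card_coe_set_eq]
    exact Nat.card_congr e
  · rw [indep_tr e he hI, hN.2 _ (tr_subset e I)]
    unfold tr
    rw [Set.ncard_image_of_injective _ Subtype.val_injective,
      Set.ncard_image_of_injective _ e.injective]
    have h1 : I.ncard = (Subtype.val ⁻¹' I : Set ↥M.E).ncard := by
      conv_lhs => rw [← val_pre hI]
      rw [Set.ncard_image_of_injective _ Subtype.val_injective]
    rw [h1]

/-- minors are transported by isomorphisms -/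
theorem Iso.exists_minor {M : Matroid α} {M₂ : Matroid β} (h : Iso M M₂) (hf : M.Finite)
    {N : Matroid γ} (hN : ∃ M' : Matroid β, M'.IsMinor M₂ ∧ Iso M' N) :
    ∃ M' : Matroid α, M'.IsMinor M ∧ Iso M' N := by
  classical
  obtain ⟨M', hM', hiso⟩ := hN
  have hf2 : M₂.Finite := h.finite hf
  obtain ⟨X, hX, hdisj, hind, _⟩ := exists_indep_of_isMinor hM'
  obtain ⟨e₁, he₁⟩ := h
  obtain ⟨e₂, he₂⟩ := hiso
  have hsub : M'.E ⊆ M₂.E := hM'.subset
  rcases isEmpty_or_nonempty α with hα | hα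
  · have h1 : IsEmpty ↥M.E := ⟨fun x => hα.elim x.1⟩
    have h2 : IsEmpty ↥M₂.E := e₁.symm.isEmpty
    have h3 : IsEmpty ↥M'.E := ⟨fun x => h2.elim ⟨x.1, hsub x.2⟩⟩
    have h4 : IsEmpty ↥N.E := e₂.symm.isEmpty
    refine ⟨M, Matroid.IsMinor.refl, Equiv.equivOfIsEmpty _ _, fun I => ?_⟩
    have h5 : I = ∅ := Set.eq_empty_of_isEmpty I
    rw [h5, Set.image_empty, Set.image_empty, Set.image_empty]
    exact ⟨fun _ => N.empty_indep, fun _ => M.empty_indep⟩
  · set j : γ → α := fun b => if hb : b ∈ N.E then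
      (e₁.symm ⟨(e₂.symm ⟨b, hb⟩).1, hsub (e₂.symm ⟨b, hb⟩).2⟩).1
      else Classical.arbitrary α with hj
    have hjb : ∀ (b : γ) (hb : b ∈ N.E), j b =
        (e₁.symm ⟨(e₂.symm ⟨b, hb⟩).1, hsub (e₂.symm ⟨b, hb⟩).2⟩).1 := by
      intro b hb
      rw [hj]
      exact dif_pos hb
    have hX0 : M.Indep (tr e₁.symm X) := by
      rw [← indep_tr e₁.symm (symm_aux e₁ he₁) hX.subset_ground]
      exact hX
    refine exists_isMinor_iso M N (tr e₁.symm X) hX0 j ?_ ?_ ?_
    · intro b hb c hc hbc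
      rw [hjb b hb, hjb c hc] at hbc
      have h1 := e₁.symm.injective (Subtype.ext hbc)
      have h2 : (e₂.symm ⟨b, hb⟩).1 = (e₂.symm ⟨c, hc⟩).1 := by
        simpa only [Subtype.mk.injEq] using h1
      have h3 := e₂.symm.injective (Subtype.ext h2)
      exact congrArg Subtype.val h3
    · intro b hb
      rw [hjb b hb]
      refine ⟨Subtype.property _, fun hmem => ?_⟩
      obtain ⟨x, hx, hxe⟩ := (mem_tr _ _ _).1 hmem
      have h1 := e₁.symm.injective (Subtype.ext hxe)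
      rw [h1] at hx
      exact Set.disjoint_left.1 hdisj hx (e₂.symm ⟨b, hb⟩).2
    · intro B hB
      have h1 : N.Indep B ↔ M'.Indep (tr e₂.symm B) := indep_tr e₂.symm (symm_aux e₂ he₂) hB
      rw [h1, hind _ (tr_subset _ _), indep_tr e₁.symm (symm_aux e₁ he₁)
        (Set.union_subset ((tr_subset _ _).trans hsub) hX.subset_ground), tr_union]
      have h2 : tr e₁.symm (tr e₂.symm B) = j '' B := by
        ext a
        rw [mem_tr]
        constructor
        · rintro ⟨x, hx, rfl⟩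
          obtain ⟨b, hb, hbx⟩ := (mem_tr _ _ _).1 hx
          refine ⟨b.1, hb, ?_⟩
          rw [hjb b.1 b.2]
          congr 2
          exact Subtype.ext hbx
        · rintro ⟨b, hb, rfl⟩
          refine ⟨⟨(e₂.symm ⟨b, hB hb⟩).1, hsub (e₂.symm ⟨b, hB hb⟩).2⟩, ?_, ?_⟩
          · exact (mem_tr _ _ _).2 ⟨⟨b, hB hb⟩, hb, rfl⟩
          · rw [hjb b (hB hb)]
      rw [h2]

end Pool.Agent.MP8f11b1
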