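import Pool.Agent.Lib.MP_8f11b1_co_RX.Defs

set_option autoImplicit false

namespace Pool.Agent.MP8f11b1

variable {α β : Type}

private theorem minX_step {M : Matroid α} (hfin : M.E.Finite) (R : Set α) (hR : R ⊆ M.E) :
    ∃ J ⊆ M.E, Disjoint J R ∧ ∀ B, M.IsBasis B R → M.IsBase (B ∪ J) := by
  obtain ⟨B₀, hB₀⟩ := M.exists_isBasis R
  obtain ⟨B₁, hB₁, hsub⟩ := hB₀.indep.exists_isBase_superset
  have hdis : Disjoint (B₁ \ B₀) R := by
    rw [Set.disjoint_left]
    rintro e ⟨he1, he2⟩ heR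
    exact he2 (hB₀.mem_of_insert_indep heR (hB₁.indep.subset (Set.insert_subset he1 hsub)))
  refine ⟨B₁ \ B₀, fun x hx => hB₁.subset_ground hx.1, hdis, ?_⟩
  intro B hB
  have hcl : M.closure B = M.closure B₀ := by
    rw [hB.closure_eq_closure, hB₀.closure_eq_closure]
  have hsubE : B ∪ (B₁ \ B₀) ⊆ M.E := by
    refine Set.union_subset hB.left_subset_ground ?_
    exact fun x hx => hB₁.subset_ground hx.1
  have hsp : M.Spanning (B ∪ (B₁ \ B₀)) := by
    rw [Matroid.spanning_iff_closure_eq hsubE, ← Matroid.closure_union_closure_left_eq, hcl,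
      Matroid.closure_union_closure_left_eq, Set.union_sdiff_cancel hsub, hB₁.closure_eq]
  obtain ⟨B', hB', hB's⟩ := hsp.exists_isBase_subset
  have hc1 : B.encard = B₀.encard := hB.encard_eq_encard hB₀
  have hc2 : (B ∪ (B₁ \ B₀)).encard = B₁.encard := by
    rw [Set.encard_union_eq (hdis.symm.mono_left hB.subset), hc1,
      ← Set.encard_union_eq Set.disjoint_sdiff_right, Set.union_sdiff_cancel hsub]
  have hc3 : (B ∪ (B₁ \ B₀)).encard ≤ B'.encard := by
    rw [hc2, hB₁.encard_eq_encard_of_isBase hB']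
  have hEq : B' = B ∪ (B₁ \ B₀) :=
    Set.Finite.eq_of_subset_of_encard_le (hfin.subset (hB's.trans hsubE)) hB's hc3
  rw [← hEq]
  exact hB'

theorem exists_indep_of_isMinor {M N : Matroid α} [M.Finite] (h : N.IsMinor M) :
    ∃ X, M.Indep X ∧ Disjoint X N.E ∧ (∀ B ⊆ N.E, N.Indep B ↔ M.Indep (B ∪ X)) ∧
      ∀ B, N.IsBase B → M.IsBase (B ∪ X) := by
  obtain ⟨C, D, hC, hD, hCD, hN⟩ := h.exists_eq_contract_delete_disjoint
  obtain ⟨I, hI⟩ := M.exists_isBasis C
  rw [hI.contract_eq_contract_delete, Matroid.delete_delete] at hN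
  have hIi : M.Indep I := hI.indep
  obtain ⟨J, hJE, hJd, hJ⟩ := minX_step (M := M.contract I)
    (M.ground_finite.subset (Matroid.contract_ground_subset_ground M I))
    ((M.contract I).E \ (C \ I ∪ D)) Set.sdiff_subset
  have hNE : N.E = (M.contract I).E \ (C \ I ∪ D) := by rw [hN, Matroid.delete_ground]
  have hbase : ∀ B, N.IsBase B → M.IsBase (B ∪ (J ∪ I)) := by
    intro B hB
    rw [hN, Matroid.delete_isBase_iff] at hB
    have h1 := hJ B hB
    rw [hIi.contract_isBase_iff, Set.union_assoc] at h1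
    exact h1.1
  have hIN : Disjoint I N.E := by
    rw [hNE, Matroid.contract_ground, Set.disjoint_left]
    intro x hx hx2
    exact hx2.1.2 hx
  refine ⟨J ∪ I, ?_, ?_, ?_, hbase⟩
  · obtain ⟨B, hB⟩ := N.exists_isBase
    exact (hbase B hB).indep.subset Set.subset_union_right
  · rw [Set.disjoint_union_left]
    refine ⟨?_, hIN⟩
    rw [hNE]
    exact hJd
  · intro B hBE
    constructor
    · intro hB
      obtain ⟨B', hB', hsub⟩ := hB.exists_isBase_superset
      exact (hbase B' hB').indep.subset (Set.union_subset_union_left _ hsub)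
    · intro hB
      have h1 : M.Indep (B ∪ I) := hB.subset
        (Set.union_subset_union_right _ Set.subset_union_right)
      have h2 : (M.contract I).Indep B := by
        rw [hIi.contract_indep_iff]
        exact ⟨hIN.symm.mono_left hBE, h1⟩
      rw [hN, Matroid.delete_indep_iff]
      refine ⟨h2, ?_⟩
      rw [hNE] at hBE
      exact Set.disjoint_of_subset_left hBE Set.disjoint_sdiff_left

theorem exists_isMinor_iso (M : Matroid α) (N : Matroid β) (X : Set α) (hX : M.Indep X)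
    (j : β → α) (hj : Set.InjOn j N.E) (hjE : ∀ b ∈ N.E, j b ∈ M.E ∧ j b ∉ X)
    (hN : ∀ B ⊆ N.E, N.Indep B ↔ M.Indep (j '' B ∪ X)) :
    ∃ M' : Matroid α, M'.IsMinor M ∧ Iso M' N := by
  have hR : j '' N.E ⊆ (M.contract X).E := by
    rintro _ ⟨b, hb, rfl⟩
    rw [Matroid.contract_ground]
    exact hjE b hb
  refine ⟨(M.contract X).restrict (j '' N.E), ?_, ?_⟩
  · rw [← Matroid.delete_compl hR]
    exact Matroid.contract_delete_isMinor M X _
  · let e0 : N.E ≃ ((M.contract X).restrict (j '' N.E)).E :=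
      Equiv.Set.imageOfInjOn j N.E hj
    have he0 : ∀ b : N.E, ((e0 b : ((M.contract X).restrict (j '' N.E)).E) : α) = j b :=
      fun b => rfl
    refine ⟨e0.symm, fun I => ?_⟩
    have hsub : Subtype.val '' (e0.symm '' I) ⊆ N.E := by
      rintro _ ⟨b, _, rfl⟩
      exact b.2
    have himg : j '' (Subtype.val '' (e0.symm '' I)) = Subtype.val '' I := by
      ext x
      constructor
      · rintro ⟨_, ⟨_, ⟨y, hy, rfl⟩, rfl⟩, rfl⟩
        refine ⟨y, hy, ?_⟩
        rw [← he0, Equiv.apply_symm_apply]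
      · rintro ⟨y, hy, rfl⟩
        refine ⟨_, ⟨_, ⟨y, hy, rfl⟩, rfl⟩, ?_⟩
        rw [← he0, Equiv.apply_symm_apply]
    have hIE : (Subtype.val '' I : Set α) ⊆ j '' N.E := by
      rintro _ ⟨b, _, rfl⟩
      exact b.2
    have hdis : Disjoint (Subtype.val '' I : Set α) X := by
      rw [Set.disjoint_left]
      intro x hx hxX
      obtain ⟨b, hb, rfl⟩ := hIE hx
      exact (hjE b hb).2 hxX
    rw [hN _ hsub, himg, Matroid.restrict_indep_iff, hX.contract_indep_iff]
    exact ⟨fun h => h.1.2, fun h => ⟨⟨hdis, h⟩, hIE⟩⟩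

end Pool.Agent.MP8f11b1
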