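import Pool.Agent.Lib.MP_8f11b1_co_RX.Lin

set_option autoImplicit false

namespace Pool.Agent.MP8f11b1

variable {F : Type} [Field F] {r m : ℕ}

namespace Cfg

private theorem alt_sum (a b : F) (m : ℕ) :
    ∑ j ∈ Finset.range (2 * m), (-1 : F) ^ j * (if Even j then a else b) = m * (a - b) := by
  induction m with
  | zero => simp
  | succ m ih =>
    have h2 : 2 * (m + 1) = 2 * m + 1 + 1 := by ring
    rw [h2, Finset.sum_range_succ, Finset.sum_range_succ, ih]
    have h3 : Even (2 * m) := even_two_mul m
    have h4 : ¬ Even (2 * m + 1) := by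
      rw [Nat.not_even_iff_odd]
      exact ⟨m, rfl⟩
    rw [if_pos h3, if_neg h4, pow_succ, h3.neg_one_pow]
    push_cast
    ring

private theorem alt_sum_fin (a b : F) (m : ℕ) :
    ∑ j : Fin (2 * m), (-1 : F) ^ j.val * (if Even j.val then a else b) = m * (a - b) := by
  rw [← alt_sum a b m]
  exact Fin.sum_univ_eq_sum_range (fun j => (-1 : F) ^ j * (if Even j then a else b)) (2 * m)

/-- the parametrization of `KK` -/
private def kk : Fin (2 * m) ⊕ Option (Fin r) → GG F r m
  | .inl j => .inl (.inr j)
  | .inr o => .inr (.inl o)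

private theorem kk_inj : Function.Injective (kk : Fin (2 * m) ⊕ Option (Fin r) → GG F r m) := by
  rintro (a | a) (b | b) h
  · have : a = b := by
      have h' : (Sum.inl (Sum.inr a) : GG F r m) = Sum.inl (Sum.inr b) := h
      exact Sum.inr.inj (Sum.inl.inj h')
    rw [this]
  · have h' : (Sum.inl (Sum.inr a) : GG F r m) = Sum.inr (Sum.inl b) := h
    cases h'
  · have h' : (Sum.inr (Sum.inl a) : GG F r m) = Sum.inl (Sum.inr b) := h
    cases h'
  · have : a = b := by
      have h' : (Sum.inr (Sum.inl a) : GG F r m) = Sum.inr (Sum.inl b) := h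
      exact Sum.inl.inj (Sum.inr.inj h')
    rw [this]

private theorem range_kk :
    Set.range (kk : Fin (2 * m) ⊕ Option (Fin r) → GG F r m) = KK := by
  ext g
  rcases g with (i | j) | (o | h)
  · constructor
    · rintro ⟨(a | a), ha⟩
      · have h' : (Sum.inl (Sum.inr a) : GG F r m) = Sum.inl (Sum.inl i) := ha
        cases h'
      · have h' : (Sum.inr (Sum.inl a) : GG F r m) = Sum.inl (Sum.inl i) := ha
        cases h'
    · intro h
      exact (h : False).elim
  · exact ⟨fun _ => trivial, fun _ => ⟨.inl j, rfl⟩⟩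
  · exact ⟨fun _ => trivial, fun _ => ⟨.inr o, rfl⟩⟩
  · constructor
    · rintro ⟨(a | a), ha⟩
      · have h' : (Sum.inl (Sum.inr a) : GG F r m) = Sum.inr (Sum.inr h) := ha
        cases h'
      · have h' : (Sum.inr (Sum.inl a) : GG F r m) = Sum.inr (Sum.inr h) := ha
        cases h'
    · intro h
      exact (h : False).elim

private theorem card_KK : (KK : Set (GG F r m)).ncard = Module.finrank F (VV F r m) := by
  rw [← range_kk, ← Set.image_univ, Set.ncard_image_of_injective _ kk_inj, Set.ncard_univ,
    Nat.card_eq_fintype_card, Fintype.card_sum, Fintype.card_option, Fintype.card_fin,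
    Fintype.card_fin, Module.finrank_prod, Module.finrank_prod, Module.finrank_fin_fun,
    Module.finrank_fin_fun, Module.finrank_self]

private theorem ff_e (j : Fin (2 * m)) :
    (ff (kk (.inl j)) : VV F r m) = (dl (j.val + 1), wj j.val) := rfl

private theorem ff_b (i : Fin r) :
    (ff (kk (.inr (some i))) : VV F r m) = (0, (Pi.single i 1, 0)) := rfl

private theorem ff_x :
    (ff (kk (.inr none)) : VV F r m) = (fun j => (-1) ^ (j.val + 1), (fun _ => 1, 0)) := rfl

private theorem core (hm : (m : F) = 0) (g : Fin (2 * m) ⊕ Option (Fin r) → F)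
    (hg : ∑ i, g i • (ff (kk i) : VV F r m) = 0) (k : Fin (2 * m) ⊕ Option (Fin r))
    (hk : g k = 0) : ∀ i, g i = 0 := by
  rw [Fintype.sum_sum_type, Fintype.sum_option] at hg
  simp only [ff_e, ff_b, ff_x] at hg
  have h1 := congrArg Prod.fst hg
  have h2 := congrArg (fun v : VV F r m => v.2.1) hg
  have hl : ∀ j : Fin (2 * m), g (.inl j) = g (.inr none) * (-1) ^ j.val := by
    intro j
    have h3 := congrFun h1 j
    simp only [Prod.fst_add, Prod.fst_sum, Prod.smul_fst, Pi.add_apply, Finset.sum_apply,
      Pi.smul_apply, smul_eq_mul, Prod.fst_zero, Pi.zero_apply, mul_zero,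
      Finset.sum_const_zero, add_zero, dl] at h3
    rw [Finset.sum_eq_single j (by
      intro b _ hb
      rw [if_neg (by
        intro h
        exact hb (Fin.ext (by omega))), mul_zero]) (by simp)] at h3
    rw [if_pos rfl, mul_one, pow_succ] at h3
    linear_combination h3
  have hmu : ∀ i : Fin r, g (.inr (some i)) = - g (.inr none) := by
    intro i
    have h3 := congrFun h2 i
    simp only [Prod.snd_add, Prod.snd_sum, Prod.smul_snd, Prod.fst_add, Prod.fst_sum,
      Prod.smul_fst, Pi.add_apply, Finset.sum_apply,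
      Pi.smul_apply, smul_eq_mul, Prod.fst_zero, Prod.snd_zero, Pi.zero_apply, mul_one] at h3
    have h4 : ∑ j : Fin (2 * m), g (.inl j) * (wj j.val : WW F r).1 i = 0 := by
      have h5 : ∀ j : Fin (2 * m), g (.inl j) * (wj j.val : WW F r).1 i =
          g (.inr none) * ((-1 : F) ^ j.val * (if Even j.val then 0 else
            (w0 : WW F r).1 i)) := by
        intro j
        rw [hl j, mul_assoc]
        congr 2
        unfold wj
        split_ifs
        · rfl
        · rfl
      rw [Finset.sum_congr rfl fun j _ => h5 j, ← Finset.mul_sum, alt_sum_fin, hm, zero_mul,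
        mul_zero]
    rw [h4, Finset.sum_eq_single i (by
      intro b _ hb
      rw [Pi.single_eq_of_ne hb.symm, mul_zero]) (by simp), Pi.single_eq_same, mul_one] at h3
    linear_combination h3
  have hnu : g (.inr none) = 0 := by
    rcases k with j | (_ | i)
    · rw [hl j] at hk
      rcases mul_eq_zero.1 hk with h | h
      · exact h
      · exact absurd h (pow_ne_zero _ (neg_ne_zero.2 one_ne_zero))
    · exact hk
    · rw [hmu i] at hk
      exact neg_eq_zero.1 hk
  rintro (j | (_ | i))
  · rw [hl j, hnu, zero_mul]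
  · exact hnu
  · rw [hmu i, hnu, neg_zero]

private theorem ind_KK (hm : (m : F) = 0) (e : GG F r m) (he : e ∈ (KK : Set (GG F r m))) :
    LinearIndepOn F (ff : GG F r m → VV F r m) (KK \ {e}) := by
  classical
  rw [← range_kk] at he
  obtain ⟨k, rfl⟩ := he
  have h1 : (KK \ {kk k} : Set (GG F r m)) = kk '' {k}ᶜ := by
    rw [← range_kk]
    ext g
    constructor
    · rintro ⟨⟨a, rfl⟩, ha⟩
      exact ⟨a, fun h => ha (by rw [Set.mem_singleton_iff.1 h]; rfl), rfl⟩
    · rintro ⟨a, ha, rfl⟩
      exact ⟨⟨a, rfl⟩, fun h => ha (kk_inj h)⟩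
  rw [h1]
  refine LinearIndepOn.image_of_comp kk _ ?_
  rw [linearIndepOn_iff']
  intro t g ht hsum i hi
  have h2 := core hm (fun i => if i ∈ t then g i else 0) (by
    rw [← hsum, ← Finset.sum_filter_add_sum_filter_not Finset.univ (fun i => i ∈ t)]
    have h3 : ∑ x ∈ Finset.univ.filter (fun i => ¬ i ∈ t),
        (if x ∈ t then g x else 0) • (ff (kk x) : VV F r m) = 0 := by
      refine Finset.sum_eq_zero fun x hx => ?_
      rw [if_neg (Finset.mem_filter.1 hx).2, zero_smul]
    rw [h3, add_zero]
    have h4 : Finset.univ.filter (fun i => i ∈ t) = t := by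
      ext x
      simp
    rw [h4]
    refine Finset.sum_congr rfl fun x hx => ?_
    rw [if_pos hx]
    rfl) k (if_neg fun hk => ht hk rfl) i
  simpa [hi] using h2

/-- the functional -/
private noncomputable def phi : VV F r m →ₗ[F] F where
  toFun v := ∑ j : Fin (2 * m), (if Even j.val then v.1 j else 0) + v.2.2
  map_add' v w := by
    have h : ∀ j : Fin (2 * m), (if Even j.val then (v + w).1 j else 0) =
        (if Even j.val then v.1 j else 0) + (if Even j.val then w.1 j else 0) := by
      intro j
      split_ifs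
      · rfl
      · rw [add_zero]
    rw [Finset.sum_congr rfl fun j _ => h j, Finset.sum_add_distrib]
    show _ + (v.2.2 + w.2.2) = _
    ring
  map_smul' c v := by
    have h : ∀ j : Fin (2 * m), (if Even j.val then (c • v).1 j else 0) =
        c * (if Even j.val then v.1 j else 0) := by
      intro j
      split_ifs
      · rfl
      · rw [mul_zero]
    rw [Finset.sum_congr rfl fun j _ => h j, ← Finset.mul_sum]
    show _ + c * v.2.2 = c * (_ + v.2.2)
    ring

private theorem phi_apply (v : VV F r m) :
    phi v = ∑ j : Fin (2 * m), (if Even j.val then v.1 j else 0) + v.2.2 := rfl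

private theorem sum_dl (i : ℕ) (hi : i < 2 * m) :
    ∑ j : Fin (2 * m), (if Even j.val then (dl (i + 1) : Fin (2 * m) → F) j else 0) =
      if Even i then 1 else 0 := by
  rw [Finset.sum_eq_single (⟨i, hi⟩ : Fin (2 * m)) (by
    intro b _ hb
    have h1 : (dl (i + 1) : Fin (2 * m) → F) b = 0 := by
      unfold dl
      rw [if_neg]
      intro h
      exact hb (Fin.ext (by simpa using h))
    rw [h1]
    split_ifs <;> rfl) (by simp)]
  have h1 : (dl (i + 1) : Fin (2 * m) → F) ⟨i, hi⟩ = 1 := by
    unfold dl
    rw [if_pos rfl]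
  rw [h1]

private theorem sum_dl_zero :
    ∑ j : Fin (2 * m), (if Even j.val then (dl 0 : Fin (2 * m) → F) j else 0) = 0 := by
  refine Finset.sum_eq_zero fun j _ => ?_
  have h1 : (dl 0 : Fin (2 * m) → F) j = 0 := by
    unfold dl
    rw [if_neg (by omega)]
  rw [h1]
  split_ifs <;> rfl

private theorem phi_KK (hm : (m : F) = 0) (k : Fin (2 * m) ⊕ Option (Fin r)) :
    phi (ff (kk k) : VV F r m) = 0 := by
  rcases k with j | (_ | i)
  · rw [ff_e, phi_apply]
    show ∑ i : Fin (2 * m), (if Even i.val then (dl (j.val + 1) : Fin (2 * m) → F) i else 0) +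
      (wj j.val : WW F r).2 = 0
    rw [sum_dl j.val j.isLt]
    unfold wj
    split_ifs
    · show (1 : F) + -1 = 0
      ring
    · show (0 : F) + 0 = 0
      ring
  · rw [ff_x, phi_apply]
    show ∑ j : Fin (2 * m), (if Even j.val then (-1 : F) ^ (j.val + 1) else 0) + 0 = 0
    have h : ∀ j : Fin (2 * m), (if Even j.val then (-1 : F) ^ (j.val + 1) else 0) =
        (-1 : F) ^ j.val * (if Even j.val then -1 else 0) := by
      intro j
      split_ifs
      · rw [pow_succ]
      · rw [mul_zero]
    rw [Finset.sum_congr rfl fun j _ => h j, alt_sum_fin, hm, zero_mul, add_zero]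
  · rw [ff_b, phi_apply]
    show ∑ j : Fin (2 * m), (if Even j.val then (0 : F) else 0) + 0 = 0
    simp

end Cfg

open Cfg in
theorem ch_ff [Finite F] (hm : (m : F) = 0) : CH F (ff : GG F r m → VV F r m) KK := by
  classical
  refine ⟨card_KK, fun e he => ind_KK hm e he, fun g hg hs => ?_⟩
  have h0 : phi (ff g : VV F r m) = 0 := by
    have h1 : Submodule.span F ((ff : GG F r m → VV F r m) '' KK) ≤ LinearMap.ker phi := by
      rw [Submodule.span_le]
      rintro _ ⟨k, hk, rfl⟩
      rw [← range_kk] at hk
      obtain ⟨k, rfl⟩ := hk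
      exact LinearMap.mem_ker.2 (phi_KK hm k)
    exact LinearMap.mem_ker.1 (h1 hs)
  rcases g with (i | j) | (o | h)
  · rw [phi_apply] at h0
    have h1 : ∀ j : Fin (2 * m), (if Even j.val then
        (ff (Sum.inl (Sum.inl i) : GG F r m) : VV F r m).1 j else 0) =
        (if Even j.val then (dl (i.val + 1) : Fin (2 * m) → F) j else 0) -
        (if Even j.val then (dl i.val : Fin (2 * m) → F) j else 0) := by
      intro j
      split_ifs
      · rfl
      · rw [sub_zero]
    rw [Finset.sum_congr rfl fun j _ => h1 j, Finset.sum_sub_distrib, sum_dl _ i.isLt] at h0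
    have h2 : (ff (Sum.inl (Sum.inl i) : GG F r m) : VV F r m).2.2 = 0 := rfl
    rw [h2, add_zero] at h0
    rcases Nat.eq_zero_or_pos i.val with h3 | h3
    · rw [h3, sum_dl_zero, if_pos (by simp), sub_zero] at h0
      exact one_ne_zero h0
    · obtain ⟨k, hk⟩ : ∃ k, i.val = k + 1 := ⟨i.val - 1, by omega⟩
      rw [hk, sum_dl k (by omega)] at h0
      by_cases h4 : Even k
      · rw [if_neg (by rw [Nat.even_add_one]; exact not_not.2 h4), if_pos h4, zero_sub] at h0
        exact one_ne_zero (neg_eq_zero.1 h0)
      · rw [if_pos (by rw [Nat.even_add_one]; exact h4), if_neg h4, sub_zero] at h0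
        exact one_ne_zero h0
  · exact hg trivial
  · exact hg trivial
  · rw [phi_apply] at h0
    have h1 : ∑ j : Fin (2 * m), (if Even j.val then
        (ff (Sum.inr (Sum.inr h) : GG F r m) : VV F r m).1 j else 0) = 0 := by
      show ∑ j : Fin (2 * m), (if Even j.val then
        (if h ∈ SS then dl (2 * m) else 0 : Fin (2 * m) → F) j else 0) = 0
      by_cases hS : h ∈ (SS : Set (Fin r → F))
      · rw [if_pos hS]
        rcases Nat.eq_zero_or_pos m with h3 | h3
        · subst h3
          simp
        · obtain ⟨k, hk⟩ : ∃ k, 2 * m = k + 1 := ⟨2 * m - 1, by omega⟩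
          have h4 : ¬ Even k := by
            intro h5
            have h6 : Even (2 * m) := even_two_mul m
            rw [hk, Nat.even_add_one] at h6
            exact h6 h5
          have h5 := sum_dl (F := F) (m := m) k (by omega)
          rw [if_neg h4, ← hk] at h5
          exact h5
      · rw [if_neg hS]
        simp
    have h2 : (ff (Sum.inr (Sum.inr h) : GG F r m) : VV F r m).2.2 = 1 := rfl
    rw [h1, h2, zero_add] at h0
    exact one_ne_zero h0

end Pool.Agent.MP8f11b1
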