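import Pool.Agent.Lib.MP_8f11b1_co_RX.MinX

set_option autoImplicit false

namespace Pool.Agent.MP8f11b1

variable {F α β V : Type} [Field F] [AddCommGroup V] [Module F V]

open Matroid

theorem sub_minor (K : Set α) (M : Matroid α) [M.Finite] (hE : M.E = Set.univ)
    (hK : M.IsBase K) (X Y : Set α) (hX : X ⊆ K) (hY : Disjoint Y K) (hXY : Disjoint X Y)
    (N' : Matroid α) (hN' : N'.IsMinor (M ／ X ＼ Y)) (N : Matroid β)
    (hNE : N.E = Set.univ) (hi : Iso N' N) :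
    ∃ (ι : β → α) (X' : Set α), Function.Injective ι ∧ (∀ z, ι z ∉ X') ∧ X ⊆ X' ∧
      (∀ B : Set β, N.Indep B ↔ M.Indep (ι '' B ∪ X')) ∧
      ∀ B : Set β, N.IsBase B → M.IsBase (ι '' B ∪ X') := by
  have hXind : M.Indep X := hK.indep.subset hX
  have hKX : (M ／ X).IsBase (K \ X) := by
    rw [hXind.contract_isBase_iff, Set.sdiff_union_self, Set.union_eq_self_of_subset_right hX]
    exact ⟨hK, Set.disjoint_sdiff_left⟩
  have hYE : Y ⊆ (M ／ X).E := by
    rw [contract_ground, hE]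
    exact fun y hy => ⟨Set.mem_univ y, fun h => Set.disjoint_left.1 hXY h hy⟩
  have hYco : (M ／ X).Coindep Y := by
    rw [coindep_iff_exists hYE]
    refine ⟨K \ X, hKX, fun z hz => ⟨hKX.subset_ground hz, fun h => ?_⟩⟩
    exact Set.disjoint_left.1 hY h hz.1
  have hPE : ∀ z ∈ (M ／ X ＼ Y).E, z ∉ X ∧ z ∉ Y := by
    intro z hz
    rw [delete_ground, contract_ground] at hz
    exact ⟨hz.1.2, hz.2⟩
  have hPind : ∀ T ⊆ (M ／ X ＼ Y).E, ((M ／ X ＼ Y).Indep T ↔ M.Indep (T ∪ X)) := by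
    intro T hT
    rw [delete_indep_iff, hXind.contract_indep_iff]
    refine ⟨fun h => h.1.2, fun h => ⟨⟨?_, h⟩, ?_⟩⟩
    · exact Set.disjoint_left.2 fun z hz hzX => (hPE z (hT hz)).1 hzX
    · exact Set.disjoint_left.2 fun z hz hzY => (hPE z (hT hz)).2 hzY
  have hPbase : ∀ T, (M ／ X ＼ Y).IsBase T → M.IsBase (T ∪ X) := by
    intro T hT
    rw [hYco.delete_isBase_iff, hXind.contract_isBase_iff] at hT
    exact hT.1.1
  obtain ⟨X1, hX1, hd, hind, hbase⟩ := exists_indep_of_isMinor hN'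
  obtain ⟨e, he⟩ := hi
  have hmem : ∀ z : β, z ∈ N.E := fun z => by rw [hNE]; exact Set.mem_univ z
  set ι : β → α := fun z => (e.symm ⟨z, hmem z⟩).1 with hι
  have hιinj : Function.Injective ι := by
    intro a b hab
    have h1 : e.symm ⟨a, hmem a⟩ = e.symm ⟨b, hmem b⟩ := Subtype.ext hab
    exact congrArg Subtype.val (e.symm.injective h1)
  have hιE : ∀ z, ι z ∈ N'.E := fun z => (e.symm ⟨z, hmem z⟩).2
  have hsub : N'.E ⊆ (M ／ X ＼ Y).E := hN'.subset
  have hιsub : ∀ B : Set β, ι '' B ⊆ N'.E := by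
    rintro B _ ⟨b, _, rfl⟩
    exact hιE b
  have hNind : ∀ B : Set β, N.Indep B ↔ N'.Indep (ι '' B) := by
    intro B
    have h1 := he (e.symm '' (Subtype.val ⁻¹' B))
    have h2 : e '' (e.symm '' (Subtype.val ⁻¹' B : Set ↥N.E)) = Subtype.val ⁻¹' B := by
      rw [Set.image_image]
      simp
    have h3 : (Subtype.val '' (Subtype.val ⁻¹' B : Set ↥N.E) : Set β) = B := by
      rw [Subtype.image_preimage_coe, hNE, Set.univ_inter]
    have h4 : (Subtype.val '' (e.symm '' (Subtype.val ⁻¹' B : Set ↥N.E)) : Set α) = ι '' B := by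
      ext z
      constructor
      · rintro ⟨_, ⟨y, hy, rfl⟩, rfl⟩
        exact ⟨y.1, hy, rfl⟩
      · rintro ⟨b, hb, rfl⟩
        exact ⟨_, ⟨⟨b, hmem b⟩, hb, rfl⟩, rfl⟩
    rw [h2, h3, h4] at h1
    exact h1.symm
  have hNbase : ∀ B : Set β, N.IsBase B → N'.IsBase (ι '' B) := by
    intro B hB
    rw [isBase_iff_maximal_indep] at hB ⊢
    refine ⟨(hNind B).1 hB.1, ?_⟩
    intro J hJ hBJ
    have h1 : ι '' (ι ⁻¹' J) = J := by
      rw [Set.image_preimage_eq_iff]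
      intro z hz
      have hzE := hJ.subset_ground hz
      refine ⟨(e ⟨z, hzE⟩).1, ?_⟩
      show (e.symm ⟨(e ⟨z, hzE⟩).1, _⟩).1 = z
      rw [Subtype.coe_eta, Equiv.symm_apply_apply]
    have h2 : N.Indep (ι ⁻¹' J) := by
      rw [hNind, h1]
      exact hJ
    have h3 : ι ⁻¹' J ⊆ B := hB.2 h2 (fun b hb => hBJ ⟨b, hb, rfl⟩)
    show J ⊆ ι '' B
    rw [← h1]
    exact Set.image_mono h3
  refine ⟨ι, X1 ∪ X, hιinj, ?_, Set.subset_union_right, ?_, ?_⟩
  · rintro z (hz | hz)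
    · exact Set.disjoint_left.1 hd hz (hιE z)
    · exact (hPE _ (hsub (hιE z))).1 hz
  · intro B
    rw [hNind, hind _ (hιsub B), hPind _ (Set.union_subset ((hιsub B).trans hsub)
      hX1.subset_ground), Set.union_assoc]
  · intro B hB
    have h1 := hPbase _ (hbase _ (hNbase B hB))
    rw [Set.union_assoc] at h1
    exact h1

end Pool.Agent.MP8f11b1
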