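import Pool.Agent.Lib.MP_8f11b1_co_RX.Lin

set_option autoImplicit false

namespace Pool.Agent.MP8f11b1

variable {F : Type} [Field F] {r m : ℕ}

private theorem nmin_dl (S : Submodule F (VV F r m))
    (h : ∀ i : Fin (2 * m), ((dl (i.val + 1) - dl i.val, 0) : VV F r m) ∈ S) :
    ∀ k ≤ 2 * m, ((dl k, 0) : VV F r m) ∈ S
  | 0, _ => by
    have h0 : (dl 0 : Fin (2 * m) → F) = 0 := by
      funext i
      simp [dl]
    rw [h0]
    exact S.zero_mem
  | k + 1, hk => by
    have h1 := nmin_dl S h k (by omega)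
    have h2 := S.add_mem (h ⟨k, by omega⟩) h1
    have h3 : ((dl (k + 1) - dl k, 0) : VV F r m) + (dl k, 0) = (dl (k + 1), 0) := by
      rw [Prod.mk_add_mk, sub_add_cancel, add_zero]
    rwa [h3] at h2

private theorem nmin_ker : LinearMap.ker (LinearMap.snd F (Fin (2 * m) → F) (WW F r)) =
    Submodule.span F (Set.range fun i : Fin (2 * m) =>
      ((dl (i.val + 1) - dl i.val, 0) : VV F r m)) := by
  obtain ⟨S, hS⟩ : ∃ S, S = Submodule.span F (Set.range fun i : Fin (2 * m) =>
      ((dl (i.val + 1) - dl i.val, 0) : VV F r m)) := ⟨_, rfl⟩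
  have hc : ∀ i : Fin (2 * m), ((dl (i.val + 1) - dl i.val, 0) : VV F r m) ∈ S := by
    intro i
    rw [hS]
    exact Submodule.subset_span ⟨i, rfl⟩
  apply le_antisymm
  · rw [← hS]
    rintro ⟨v, w⟩ hv
    have hw : w = 0 := hv
    rw [hw]
    have h1 : ((v, 0) : VV F r m) = ∑ j, v j • ((dl (j.val + 1), 0) : VV F r m) := by
      refine Prod.ext ?_ ?_
      · rw [Prod.fst_sum]
        funext t
        rw [Finset.sum_apply, Finset.sum_eq_single t]
        · simp [dl]
        · intro j _ hj
          have h2 : t.val ≠ j.val := fun h => hj (Fin.ext h.symm)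
          simp [dl, h2]
        · intro h
          exact absurd (Finset.mem_univ _) h
      · rw [Prod.snd_sum]
        simp
    rw [h1]
    refine Submodule.sum_mem _ fun j _ => Submodule.smul_mem _ _ ?_
    exact nmin_dl S hc (j.val + 1) j.isLt
  · rw [Submodule.span_le]
    rintro _ ⟨i, rfl⟩
    rfl

private theorem nmin_ind : LinearIndependent F (fun i : Fin (2 * m) =>
    ((dl (i.val + 1) - dl i.val, 0) : VV F r m)) := by
  rw [linearIndependent_iff_card_eq_finrank_span, Set.finrank, ← nmin_ker, LinearMap.ker_snd,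
    LinearMap.finrank_range_of_inj LinearMap.inl_injective]
  simp

theorem ff_C : LinearIndepOn F (ff : GG F r m → VV F r m)
    (Set.range fun i => Sum.inl (Sum.inl i)) := by
  rw [← Set.image_univ]
  apply LinearIndepOn.image_of_comp
  rw [linearIndepOn_univ_iff]
  exact nmin_ind

theorem nmin (hm0 : 0 < m) (B : Set (EN F r)) :
    LinearIndepOn F (vecN : EN F r → WW F r) B ↔
      (LinearIndepOn F (ff : GG F r m → VV F r m)
        (Sum.inr '' B ∪ Set.range fun i => Sum.inl (Sum.inl i)) ∨
        (Sum.inr '' B ∪ Set.range fun i => Sum.inl (Sum.inl i) : Set (GG F r m)) ⊆ KK) := by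
  have hK : ¬ (Sum.inr '' B ∪ Set.range fun i => Sum.inl (Sum.inl i) : Set (GG F r m)) ⊆ KK := by
    intro h
    exact h (Or.inr ⟨⟨0, by omega⟩, rfl⟩)
  have hd : Disjoint (Sum.inr '' B : Set (GG F r m)) (Set.range fun i => Sum.inl (Sum.inl i)) := by
    rw [Set.disjoint_left]
    rintro _ ⟨z, _, rfl⟩ ⟨i, hi⟩
    exact Sum.inl_ne_inr hi
  have hk : LinearMap.ker (LinearMap.snd F (Fin (2 * m) → F) (WW F r)) =
      Submodule.span F ((ff : GG F r m → VV F r m) '' Set.range fun i => Sum.inl (Sum.inl i)) := by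
    rw [nmin_ker, ← Set.range_comp]
    rfl
  have hv : (vecN : EN F r → WW F r) = (fun z : GG F r m =>
      (LinearMap.snd F (Fin (2 * m) → F) (WW F r)) (ff z)) ∘ Sum.inr := by
    funext z
    rcases z with (z | z) | h
    · rfl
    · rfl
    · rfl
  have key := lin_union_iff (ff : GG F r m → VV F r m) ff_C hd
    (LinearMap.snd F (Fin (2 * m) → F) (WW F r)) hk
  refine Iff.trans ?_ (or_iff_left hK).symm
  refine Iff.trans ?_ key.symm
  rw [hv]
  constructor
  · exact fun h => h.image_of_comp
  · exact fun h => h.comp_of_image Sum.inr_injective.injOn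

end Pool.Agent.MP8f11b1
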