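import Pool.Agent.Lib.MP_8f11b1_co_RX.Lin

set_option autoImplicit false

namespace Pool.Agent.MP8f11b1

variable {F α V : Type} [Field F] [AddCommGroup V] [Module F V]

theorem relM_exists [Finite α] [FiniteDimensional F V] (f : α → V) (K : Set α) (h : CH F f K) :
    ∃ M : Matroid α, M.E = Set.univ ∧ ∀ I, M.Indep I ↔ LinearIndepOn F f I ∨ I ⊆ K := by
  have hfin : ∀ S : Set α, S.Finite := fun S => Set.toFinite S
  have hproper : ∀ J : Set α, J ⊆ K → J ≠ K → LinearIndepOn F f J := by
    intro J hJ hne
    obtain ⟨e, heK, heJ⟩ := Set.exists_of_ssubset (hJ.ssubset_of_ne hne)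
    exact (h.ind e heK).mono fun x hx => ⟨hJ hx, fun hxe => heJ (by
      rw [← Set.mem_singleton_iff.1 hxe]
      exact hx)⟩
  refine ⟨(IndepMatroid.ofFinite (hfin Set.univ) (fun I => LinearIndepOn F f I ∨ I ⊆ K)
    ?_ ?_ ?_ ?_).matroid, rfl, fun I => Iff.rfl⟩
  · exact Or.inl (linearIndepOn_empty F f)
  · rintro I J (hJ | hJ) hIJ
    · exact Or.inl (hJ.mono hIJ)
    · exact Or.inr (hIJ.trans hJ)
  · intro I J hI hJ hlt
    by_cases hIK : I ⊆ K
    · rcases hJ with hJ | hJ
      · rcases eq_or_ne I K with hIeq | hIne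
        · exfalso
          have h1 := (lin_ncard_le f hJ).2
          rw [← h.card, ← hIeq] at h1
          omega
        · obtain ⟨e, he, heI, h2⟩ :=
            lin_insert f (hfin I) (hfin J) (hproper I hIK hIne) hJ hlt
          exact ⟨e, he, heI, Or.inl h2⟩
      · obtain ⟨e, he, heI⟩ := Set.exists_mem_notMem_of_ncard_lt_ncard hlt (hfin I)
        exact ⟨e, he, heI, Or.inr (Set.insert_subset (hJ he) hIK)⟩
    · have hI' : LinearIndepOn F f I := hI.resolve_right hIK
      obtain ⟨g, hgI, hgK⟩ := Set.not_subset.1 hIK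
      by_cases hJl : LinearIndepOn F f J
      · obtain ⟨e, he, heI, h2⟩ := lin_insert f (hfin I) (hfin J) hI' hJl hlt
        exact ⟨e, he, heI, Or.inl h2⟩
      · have hJK : J ⊆ K := hJ.resolve_left hJl
        have hJeq : J = K := by
          by_contra hne
          exact hJl (hproper J hJK hne)
        subst hJeq
        have hne : J.Nonempty := by
          rw [Set.nonempty_iff_ne_empty]
          rintro rfl
          simp at hlt
        obtain ⟨e₀, he₀⟩ := hne
        have hg' : g ∉ J \ {e₀} := fun hg => hgK hg.1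
        have hL : LinearIndepOn F f (insert g (J \ {e₀})) := by
          refine (linearIndepOn_insert hg').2 ⟨h.ind e₀ he₀, fun hs => ?_⟩
          exact h.flat g hgK (Submodule.span_mono (Set.image_mono Set.diff_subset) hs)
        have hc : (insert g (J \ {e₀})).ncard = J.ncard := by
          rw [Set.ncard_insert_of_notMem hg' (hfin _), Set.ncard_diff_singleton_add_one he₀ (hfin _)]
        obtain ⟨e, he, heI, h2⟩ := lin_insert f (hfin I) (hfin _) hI' hL (by rw [hc]; exact hlt)
        rcases he with rfl | he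
        · exact absurd hgI heI
        · exact ⟨e, he.1, heI, Or.inl h2⟩
  · exact fun I _ => Set.subset_univ I

theorem vecM_exists [Finite α] (f : α → V) :
    ∃ M : Matroid α, M.E = Set.univ ∧ ∀ I, M.Indep I ↔ LinearIndepOn F f I := by
  have hfin : ∀ S : Set α, S.Finite := fun S => Set.toFinite S
  refine ⟨(IndepMatroid.ofFinite (hfin Set.univ) (fun I => LinearIndepOn F f I)
    ?_ ?_ ?_ ?_).matroid, rfl, fun I => Iff.rfl⟩
  · exact linearIndepOn_empty F f
  · exact fun I J hJ hIJ => hJ.mono hIJ
  · intro I J hI hJ hlt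
    exact lin_insert f (hfin I) (hfin J) hI hJ hlt
  · exact fun I _ => Set.subset_univ I

end Pool.Agent.MP8f11b1
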