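import Pool.Agent.Lib.MP_8f11b1_co_RX.Lin

set_option autoImplicit false

namespace Pool.Agent.MP8f11b1

variable {F α V : Type} [Field F] [AddCommGroup V] [Module F V]

open Matroid

theorem Rep.minor {M M' : Matroid α} (h : Rep F M) (hM : M'.IsMinor M) : Rep F M' := by
  obtain ⟨C, D, rfl⟩ := hM
  obtain ⟨V, _, _, f, hf⟩ := h
  obtain ⟨I, hI⟩ := M.exists_isBasis' C
  have hIl : LinearIndepOn F f I := (hf I hI.indep.subset_ground).mp hI.indep
  refine ⟨V ⧸ Submodule.span F (f '' I), inferInstance, inferInstance,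
    fun z => (Submodule.span F (f '' I)).mkQ (f z), ?_⟩
  intro J hJ
  rw [delete_ground, contract_ground] at hJ
  have hJC : Disjoint C J := Set.disjoint_left.mpr fun x hx hxJ => (hJ hxJ).1.2 hx
  have hJD : Disjoint J D := Set.disjoint_left.mpr fun x hx hxD => (hJ hx).2 hxD
  have hJE : J ⊆ M.E := fun x hx => (hJ hx).1.1
  have hdJI : Disjoint J I := Set.disjoint_left.mpr fun x hx hxI =>
    (hJ hx).1.2 (hI.subset hxI)
  rw [delete_indep_iff, hI.contract_indep_iff]
  constructor
  · rintro ⟨⟨h1, _⟩, _⟩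
    exact (lin_union_iff f hIl hdJI (Submodule.span F (f '' I)).mkQ (Submodule.ker_mkQ _)).mp
      ((hf _ (Set.union_subset hJE hI.indep.subset_ground)).mp h1)
  · intro h1
    refine ⟨⟨?_, hJC⟩, hJD⟩
    exact (hf _ (Set.union_subset hJE hI.indep.subset_ground)).mpr
      ((lin_union_iff f hIl hdJI (Submodule.span F (f '' I)).mkQ (Submodule.ker_mkQ _)).mpr h1)

theorem rel_minor (f : α → V) (K : Set α) (h : CH F f K) (M : Matroid α) (hE : M.E = Set.univ)
    (hM : ∀ I, M.Indep I ↔ LinearIndepOn F f I ∨ I ⊆ K) {M' : Matroid α} (hM' : M'.IsMinor M)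
    (hn : ¬ Rep F M') :
    ∃ X Y : Set α, X ⊆ K ∧ Disjoint Y K ∧ Disjoint X Y ∧ M' = M ／ X ＼ Y := by
  obtain ⟨X, Y, _, _, hXY, rfl⟩ := hM'.exists_eq_contract_delete_disjoint
  refine ⟨X, Y, ?_, ?_, hXY, rfl⟩
  · intro g hgX
    by_contra hgK
    apply hn
    have hfg : f g ≠ 0 := by
      intro h0
      apply h.flat g hgK
      rw [h0]
      exact Submodule.zero_mem _
    have hgl : LinearIndepOn F f {g} := (linearIndepOn_singleton_iff F).mpr hfg
    have hgn : M.IsNonloop g := by
      rw [← indep_singleton]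
      exact (hM _).mpr (Or.inl hgl)
    have hrep : Rep F (M ／ {g}) := by
      refine ⟨V ⧸ Submodule.span F (f '' {g}), inferInstance, inferInstance,
        fun z => (Submodule.span F (f '' {g})).mkQ (f z), ?_⟩
      intro J hJ
      rw [contract_ground] at hJ
      have hgJ : g ∉ J := fun hg => (hJ hg).2 rfl
      have hd : Disjoint J {g} := Set.disjoint_singleton_right.mpr hgJ
      rw [hgn.contractElem_indep_iff, hM,
        ← lin_union_iff f hgl hd (Submodule.span F (f '' {g})).mkQ (Submodule.ker_mkQ _),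
        Set.union_singleton]
      constructor
      · rintro ⟨_, h1 | h1⟩
        · exact h1
        · exact absurd (h1 (Set.mem_insert _ _)) hgK
      · intro h1
        exact ⟨hgJ, Or.inl h1⟩
    refine hrep.minor ⟨X, Y, ?_⟩
    rw [contract_contract, Set.singleton_union, Set.insert_eq_of_mem hgX]
  · rw [Set.disjoint_left]
    intro e heY heK
    apply hn
    have heX : e ∉ X := fun he => Set.disjoint_left.mp hXY he heY
    have hrep : Rep F (M ＼ {e}) := by
      refine ⟨V, inferInstance, inferInstance, f, ?_⟩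
      intro J hJ
      rw [delete_ground] at hJ
      have heJ : e ∉ J := fun hg => (hJ hg).2 rfl
      rw [deleteElem_indep_iff, hM]
      constructor
      · rintro ⟨h1 | h1, _⟩
        · exact h1
        · exact (h.ind e heK).mono fun x hx => ⟨h1 hx, fun hxe => heJ (hxe ▸ hx)⟩
      · intro h1
        exact ⟨Or.inl h1, heJ⟩
    refine hrep.minor ⟨X, Y, ?_⟩
    rw [← contract_delete_comm M (Set.disjoint_singleton_right.mpr heX), delete_delete,
      Set.singleton_union, Set.insert_eq_of_mem heY]

end Pool.Agent.MP8f11b1
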