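import Pool.Agent.Lib.MP_8f11b1_co_RX.Rel

set_option autoImplicit false

namespace Pool.Agent.MP8f11b1

variable {F : Type} [Field F]

namespace U2RelAux

/-- The vectors: two parallel ones and the affine line. -/
private def g : Bool ⊕ F → F × F
  | .inl _ => (1, 0)
  | .inr a => (a, 1)

private def K : Set (Bool ⊕ F) := {Sum.inl true, Sum.inl false}

omit [Field F] in
private theorem K_ncard : (K : Set (Bool ⊕ F)).ncard = 2 := by
  unfold K
  exact Set.ncard_pair (by simp)

private theorem lin_iff [Finite F] (I : Set (Bool ⊕ F)) :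
    LinearIndepOn F (g : Bool ⊕ F → F × F) I ↔ I.ncard ≤ 2 ∧ I ≠ K := by
  constructor
  · intro h
    refine ⟨?_, ?_⟩
    · have h1 := (lin_ncard_le g h).2
      simpa using h1
    · rintro rfl
      have h1 : (Sum.inl true : Bool ⊕ F) = Sum.inl false :=
        h.injOn (by simp [K]) (by simp [K]) (by simp [g])
      simp at h1
  · rintro ⟨h1, h2⟩
    have hf : I.Finite := Set.toFinite I
    rcases Nat.lt_or_ge I.ncard 1 with h3 | h3
    · have h4 : I = ∅ := by
        rw [← Set.ncard_eq_zero hf]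
        omega
      rw [h4]
      exact linearIndepOn_empty F _
    rcases Nat.lt_or_ge I.ncard 2 with h4 | h4
    · obtain ⟨x, rfl⟩ := Set.ncard_eq_one.1 (by omega : I.ncard = 1)
      refine LinearIndepOn.singleton ?_
      rcases x with x | x
      · simp [g]
      · simp [g]
    · obtain ⟨x, y, hxy, rfl⟩ := Set.ncard_eq_two.1 (by omega : I.ncard = 2)
      rw [LinearIndepOn.pair_iff _ hxy]
      rcases x with x | x
      · rcases y with y | y
        · exfalso
          apply h2
          unfold K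
          cases x <;> cases y
          · simp at hxy
          · exact Set.pair_comm _ _
          · rfl
          · simp at hxy
        · intro c d hcd
          simp only [g, Prod.smul_mk, Prod.mk_add_mk, Prod.mk_eq_zero, smul_eq_mul, mul_one,
            mul_zero, zero_add] at hcd
          obtain ⟨h5, h6⟩ := hcd
          subst h6
          simpa using h5
      · rcases y with y | y
        · intro c d hcd
          simp only [g, Prod.smul_mk, Prod.mk_add_mk, Prod.mk_eq_zero, smul_eq_mul, mul_one,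
            mul_zero, add_zero] at hcd
          obtain ⟨h5, h6⟩ := hcd
          subst h6
          simpa using h5
        · intro c d hcd
          simp only [g, Prod.smul_mk, Prod.mk_add_mk, Prod.mk_eq_zero, smul_eq_mul,
            mul_one] at hcd
          obtain ⟨h5, h6⟩ := hcd
          have h7 : x ≠ y := fun h => hxy (by rw [h])
          have h8 : c * (x - y) = 0 := by linear_combination h5 - y * h6
          rcases mul_eq_zero.1 h8 with h9 | h9
          · subst h9
            simpa using h6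
          · exact absurd (sub_eq_zero.1 h9) h7

end U2RelAux

open U2RelAux in
theorem u2_relax [Finite F] :
    ∃ (β : Type) (Z₀ Z : Matroid β) (K : Set β), Z₀.Finite ∧ Rep F Z₀ ∧ IsRelaxation Z₀ K Z ∧
      IsU2 (Nat.card F + 2) Z := by
  have hch : CH F (g : Bool ⊕ F → F × F) K := by
    refine ⟨by rw [K_ncard]; simp, ?_, ?_⟩
    · intro e he
      rw [lin_iff]
      have h1 := Set.ncard_sdiff_singleton_add_one he (Set.toFinite (K : Set (Bool ⊕ F)))
      rw [K_ncard] at h1
      refine ⟨by omega, fun h => ?_⟩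
      rw [h, K_ncard] at h1
      omega
    · intro x hx h
      rcases x with x | x
      · apply hx
        cases x <;> simp [K]
      · have h1 : Submodule.span F ((g : Bool ⊕ F → F × F) '' K) ≤
            LinearMap.ker (LinearMap.snd F F F) := by
          rw [Submodule.span_le]
          rintro _ ⟨y, hy, rfl⟩
          rcases hy with rfl | hy
          · simp [g]
          · rw [Set.mem_singleton_iff.1 hy]
            simp [g]
        have h2 := h1 h
        simp [g] at h2
  obtain ⟨Z₀, hE₀, hZ₀⟩ := vecM_exists (F := F) (g : Bool ⊕ F → F × F)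
  obtain ⟨Z, hE, hZ⟩ := relM_exists (F := F) (g : Bool ⊕ F → F × F) K hch
  have hK2 : (K : Set (Bool ⊕ F)).ncard = 2 := K_ncard
  have hI₀ : ∀ I, Z₀.Indep I ↔ I.ncard ≤ 2 ∧ I ≠ K := fun I => by rw [hZ₀, lin_iff]
  have hI : ∀ I, Z.Indep I ↔ I.ncard ≤ 2 := by
    intro I
    rw [hZ, lin_iff]
    constructor
    · rintro (h | h)
      · exact h.1
      · rw [← hK2]
        exact Set.ncard_le_ncard h (Set.toFinite _)
    · intro h
      by_cases h1 : I = K
      · exact Or.inr h1.le
      · exact Or.inl ⟨h, h1⟩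
  have key : ∀ M : Matroid (Bool ⊕ F), (∀ I, M.Indep I → I.ncard ≤ 2) →
      M.Indep {Sum.inl true, Sum.inr 0} → ∀ B, M.IsBase B ↔ M.Indep B ∧ B.ncard = 2 := by
    intro M h1 h2 B
    have h3 : ∀ B, M.Indep B → B.ncard = 2 → M.IsBase B := by
      intro B h4 h5
      rw [Matroid.isBase_iff_maximal_indep]
      refine ⟨h4, fun C h6 h7 => ?_⟩
      have h8 := Set.eq_of_subset_of_ncard_le h7 (by rw [h5]; exact h1 C h6) (Set.toFinite _)
      exact h8.ge
    refine ⟨fun h => ⟨h.indep, ?_⟩, fun h => h3 B h.1 h.2⟩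
    have h4 : ({Sum.inl true, Sum.inr 0} : Set (Bool ⊕ F)).ncard = 2 :=
      Set.ncard_pair (by simp)
    rw [← h4]
    exact h.ncard_eq_ncard_of_isBase (h3 _ h2 h4)
  have hne : ({Sum.inl true, Sum.inr 0} : Set (Bool ⊕ F)) ≠ K := by
    intro h
    have h1 : (Sum.inr 0 : Bool ⊕ F) ∈ (K : Set (Bool ⊕ F)) := by
      rw [← h]
      simp
    simp [K] at h1
  have hB₀ : ∀ B, Z₀.IsBase B ↔ Z₀.Indep B ∧ B.ncard = 2 := by
    refine key Z₀ (fun I h => ((hI₀ I).1 h).1) ((hI₀ _).2 ⟨?_, hne⟩)
    exact (Set.ncard_pair (by simp)).le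
  have hB : ∀ B, Z.IsBase B ↔ Z.Indep B ∧ B.ncard = 2 := by
    refine key Z (fun I h => (hI I).1 h) ((hI _).2 ?_)
    exact (Set.ncard_pair (by simp)).le
  refine ⟨Bool ⊕ F, Z₀, Z, K, ⟨Set.toFinite _⟩, ⟨F × F, inferInstance, inferInstance, g,
    fun I _ => hZ₀ I⟩, ⟨?_, ?_, ?_, by rw [hE, hE₀], ?_⟩, ?_, fun I _ => hI I⟩
  · rw [Matroid.isCircuit_iff_forall_ssubset]
    refine ⟨⟨fun h => ((hI₀ _).1 h).2 rfl, by rw [hE₀]; exact Set.subset_univ _⟩, ?_⟩
    intro I h
    rw [hI₀]
    have h1 := Set.ncard_lt_ncard h (Set.toFinite _)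
    exact ⟨by omega, h.ne⟩
  · rw [Matroid.spanning_iff_exists_isBase_subset (by rw [hE₀]; exact Set.subset_univ _)]
    rintro ⟨B, h1, h2⟩
    rw [hB₀] at h1
    exact ((hI₀ B).1 h1.1).2 (Set.eq_of_subset_of_ncard_le h2 (by rw [h1.2, hK2])
      (Set.toFinite _))
  · intro e he
    rw [Matroid.spanning_iff_exists_isBase_subset (by rw [hE₀]; exact Set.subset_univ _)]
    have h1 : e ≠ Sum.inl true := by
      rintro rfl
      exact he.2 (by simp [K])
    have h2 : ({e, Sum.inl true} : Set (Bool ⊕ F)).ncard = 2 := Set.ncard_pair h1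
    refine ⟨{e, Sum.inl true}, (hB₀ _).2 ⟨(hI₀ _).2 ⟨h2.le, ?_⟩, h2⟩, ?_⟩
    · intro h
      apply he.2
      rw [← h]
      simp
    · intro x hx
      rcases hx with rfl | hx
      · exact Set.mem_insert _ _
      · rw [Set.mem_singleton_iff.1 hx]
        exact Set.mem_insert_of_mem _ (by simp [K])
  · intro B
    rw [hB, hB₀, hI, hI₀]
    constructor
    · rintro ⟨h1, h2⟩
      by_cases h3 : B = K
      · exact Or.inr h3
      · exact Or.inl ⟨⟨h1, h3⟩, h2⟩
    · rintro (h | h)
      · exact ⟨h.1.1, h.2⟩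
      · rw [h]
        exact ⟨hK2.le, hK2⟩
  · rw [hE, Set.ncard_univ, Nat.card_sum]
    simp [add_comm]

end Pool.Agent.MP8f11b1
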