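import Pool.Agent.Lib.MP_8f11b1_co_RX.Lin

set_option autoImplicit false

namespace Pool.Agent.MP8f11b1

variable {F α β : Type} [Field F]

theorem rep_isU2 [Finite F] {M : Matroid α} (hM : Rep F M) {k : ℕ} (hU : IsU2 k M) :
    k ≤ Nat.card F + 1 := by
  classical
  have hq : 2 ≤ Nat.card F := by
    have : 1 < Nat.card F := Finite.one_lt_card
    omega
  by_cases hk : k ≤ 2
  · omega
  push Not at hk
  obtain ⟨V, i1, i2, f, hf⟩ := hM
  obtain ⟨hE, hI⟩ := hU
  have hEf : M.E.Finite := Set.finite_of_ncard_pos (by omega)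
  obtain ⟨a, b, ha, hb, hab⟩ := (Set.one_lt_ncard_iff hEf).1 (by omega)
  -- pairs are independent
  have hpair : ∀ x ∈ M.E, ∀ y ∈ M.E, x ≠ y → LinearIndepOn F f ({x, y} : Set α) := by
    intro x hx y hy hxy
    have hsub : ({x, y} : Set α) ⊆ M.E := by
      rintro z (rfl | rfl)
      · exact hx
      · exact hy
    exact (hf _ hsub).1 ((hI _ hsub).2 (Set.ncard_pair hxy).le)
  have hprop : ∀ x ∈ M.E, ∀ y ∈ M.E, x ≠ y → ∀ c d : F, c • f x + d • f y = 0 → c = 0 ∧ d = 0 := by
    intro x hx y hy hxy c d h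
    exact (LinearIndepOn.pair_iff f hxy).1 (hpair x hx y hy hxy) c d h
  have hspan : ∀ z ∈ M.E, ∃ s t : F, s • f a + t • f b = f z := by
    intro z hz
    by_cases hza : z = a
    · exact ⟨1, 0, by rw [hza]; simp⟩
    by_cases hzb : z = b
    · exact ⟨0, 1, by rw [hzb]; simp⟩
    have hzn : z ∉ ({a, b} : Set α) := by
      rintro (h | h)
      · exact hza h
      · exact hzb h
    have hsub : (insert z ({a, b} : Set α)) ⊆ M.E := by
      rintro w (rfl | rfl | rfl)
      · exact hz
      · exact ha
      · exact hb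
    have hnc : (insert z ({a, b} : Set α)).ncard = 3 := by
      rw [Set.ncard_insert_of_notMem hzn, Set.ncard_pair hab]
    have hdep : ¬ LinearIndepOn F f (insert z ({a, b} : Set α)) := by
      intro h
      have := (hI _ hsub).1 ((hf _ hsub).2 h)
      omega
    rw [linearIndepOn_insert hzn] at hdep
    have hmem : f z ∈ Submodule.span F (f '' {a, b}) := by
      by_contra hns
      exact hdep ⟨hpair a ha b hb hab, hns⟩
    rw [Set.image_pair, Submodule.mem_span_pair] at hmem
    exact hmem
  choose! s t hst using hspan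
  have hs : ∀ z ∈ M.E, z ≠ b → s z ≠ 0 := by
    intro z hz hzb h0
    have h1 := hst z hz
    rw [h0, zero_smul, zero_add] at h1
    have h2 : (1 : F) • f z + (-t z) • f b = 0 := by
      rw [← h1, one_smul, ← add_smul, add_neg_cancel, zero_smul]
    exact one_ne_zero (hprop z hz b hb hzb _ _ h2).1
  have hinj : Set.InjOn (fun z => t z / s z) (M.E \ {b}) := by
    rintro z ⟨hz, hzb⟩ w ⟨hw, hwb⟩ h
    by_contra hzw
    have hsz := hs z hz hzb
    have hsw := hs w hw hwb
    have h1 : t z * s w = t w * s z := (div_eq_div_iff hsz hsw).1 h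
    have h2 : (s w) • f z + (-s z) • f w = 0 := by
      rw [← hst z hz, ← hst w hw, smul_add, smul_add, smul_smul, smul_smul, smul_smul, smul_smul]
      have e1 : s w * t z = s z * t w := by rw [mul_comm, h1, mul_comm]
      rw [e1, mul_comm (s w) (s z)]
      simp only [neg_mul, neg_smul]
      abel
    exact hsw (hprop z hz w hw hzw _ _ h2).1
  have h3 : (M.E \ {b}).ncard ≤ Nat.card F := by
    rw [← Set.ncard_univ]
    exact Set.ncard_le_ncard_of_injOn (fun z => t z / s z) (fun _ _ => Set.mem_univ _) hinj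
      (Set.toFinite _)
  have h4 := Set.ncard_sdiff_singleton_add_one hb hEf
  omega

end Pool.Agent.MP8f11b1
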