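import Pool.Agent.Lib.MP_8f11b1_co_RX.Lin

set_option autoImplicit false

namespace Pool.Agent.MP8f11b1

variable {F β : Type} [Field F]

section ZMinAux

/-- the projection along the path elements -/
private noncomputable def zminP (F : Type) [Field F] (r m : ℕ) : VV F r m →ₗ[F] WW F r :=
  LinearMap.snd F (Fin (2 * m) → F) (WW F r) -
    (Fintype.linearCombination F (fun j : Fin (2 * m) => (wj j.val : WW F r))).comp
      (LinearMap.fst F (Fin (2 * m) → F) (WW F r))

private theorem zminP_apply {r m : ℕ} (v : VV F r m) :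
    zminP F r m v = v.2 - ∑ j : Fin (2 * m), v.1 j • (wj j.val : WW F r) := by
  simp only [zminP, LinearMap.sub_apply, LinearMap.snd_apply, LinearMap.comp_apply,
    LinearMap.fst_apply, Fintype.linearCombination_apply]

/-- the restriction -/
private noncomputable def zminR (F : Type) [Field F] {ρ r : ℕ} (h : ρ ≤ r) :
    WW F r →ₗ[F] WW F ρ :=
  LinearMap.prodMap (LinearMap.funLeft F F (Fin.castLE h)) LinearMap.id

private theorem zminR_apply {ρ r : ℕ} (h : ρ ≤ r) (w : WW F r) :
    zminR F h w = (fun i => w.1 (Fin.castLE h i), w.2) := rfl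

private theorem zmin_dl {m : ℕ} (j : Fin (2 * m)) :
    (dl (j.val + 1) : Fin (2 * m) → F) = Pi.single j 1 := by
  funext i
  by_cases h : i = j
  · subst h
    simp [dl]
  · have h2 : ¬ (i.val + 1 = j.val + 1) := by
      intro h3
      apply h
      apply Fin.ext
      omega
    rw [Pi.single_eq_of_ne h, dl, if_neg h2]

private theorem zminP_e {r m : ℕ} (j : Fin (2 * m)) :
    zminP F r m (dl (j.val + 1), wj j.val) = 0 := by
  rw [zminP_apply, zmin_dl, Finset.sum_eq_single j]
  · simp
  · intro i _ hi
    change (Pi.single j 1 : Fin (2 * m) → F) i • (wj i.val : WW F r) = 0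
    rw [Pi.single_eq_of_ne hi, zero_smul]
  · intro h
    exact absurd (Finset.mem_univ j) h

private theorem zminP_zero {r m : ℕ} (w : WW F r) :
    zminP F r m ((0 : Fin (2 * m) → F), w) = w := by
  rw [zminP_apply]
  simp

private theorem zmin_sum {r : ℕ} (m : ℕ) :
    ∑ j : Fin (2 * m), ((-1 : F) ^ (j.val + 1)) • (wj j.val : WW F r) =
      (m : F) • (w0 - w1 : WW F r) := by
  rw [Fin.sum_univ_eq_sum_range (fun j => ((-1 : F) ^ (j + 1)) • (wj j : WW F r))]
  induction m with
  | zero => simp
  | succ m ih =>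
    rw [show 2 * (m + 1) = 2 * m + 1 + 1 by ring, Finset.sum_range_succ, Finset.sum_range_succ, ih]
    have h1 : (wj (2 * m) : WW F r) = w1 := by
      rw [wj, if_pos (even_two_mul m)]
    have h2 : (wj (2 * m + 1) : WW F r) = w0 := by
      rw [wj, if_neg]
      rw [Nat.not_even_iff_odd]
      exact ⟨m, rfl⟩
    rw [h1, h2]
    have h3 : (-1 : F) ^ (2 * m + 1) = -1 := by
      rw [pow_succ, pow_mul]
      simp
    have h4 : (-1 : F) ^ (2 * m + 1 + 1) = 1 := by
      rw [pow_succ, h3]
      simp
    rw [h3, h4]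
    push_cast
    module

private theorem zminP_x {r m : ℕ} (hm : (m : F) = 0) (w : WW F r) :
    zminP F r m ((fun j => (-1 : F) ^ (j.val + 1)), w) = w := by
  rw [zminP_apply]
  have h := zmin_sum (F := F) (r := r) m
  rw [hm, zero_smul] at h
  change w - ∑ j : Fin (2 * m), ((-1 : F) ^ (j.val + 1)) • (wj j.val : WW F r) = w
  rw [h, sub_zero]

/-- the contraction set -/
private def zminX (F : Type) [Field F] (ρ r m : ℕ) : Set (GG F r m) :=
  {g | (∃ j, g = .inl (.inr j)) ∨ ∃ i : Fin r, ρ ≤ i.val ∧ g = .inr (.inl (some i))}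

private def zminIdx {r m : ℕ} : GG F r m → Option (Fin (2 * m) ⊕ Fin r)
  | .inl (.inl _) => none
  | .inl (.inr j) => some (.inl j)
  | .inr (.inl (some i)) => some (.inr i)
  | .inr (.inl none) => none
  | .inr (.inr _) => none

private noncomputable def zminL (F : Type) [Field F] (r m : ℕ) :
    VV F r m →ₗ[F] (Fin (2 * m) ⊕ Fin r → F) where
  toFun v := Sum.elim v.1 (zminP F r m v).1
  map_add' v w := by
    funext i
    rcases i with i | i
    · rfl
    · simp only [map_add, Sum.elim_inr, Pi.add_apply, Prod.fst_add]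
  map_smul' c v := by
    funext i
    rcases i with i | i
    · rfl
    · simp only [map_smul, Sum.elim_inr, Pi.smul_apply, Prod.smul_fst, RingHom.id_apply]

private theorem zminX_indep (ρ r m : ℕ) :
    LinearIndepOn F (ff : GG F r m → VV F r m) (zminX F ρ r m) := by
  classical
  have key : ∀ g ∈ zminX F ρ r m, ∃ k, zminIdx g = some k ∧
      zminL F r m (ff g) = Pi.single k 1 := by
    rintro g (⟨j, rfl⟩ | ⟨i, _, rfl⟩)
    · refine ⟨.inl j, rfl, ?_⟩
      funext k
      have h1 : zminP F r m (ff (.inl (.inr j) : GG F r m)) = 0 := zminP_e j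
      rcases k with k | k
      · change (dl (j.val + 1) : Fin (2 * m) → F) k = _
        rw [zmin_dl]
        by_cases h : k = j
        · subst h
          rw [Pi.single_eq_same, Pi.single_eq_same]
        · rw [Pi.single_eq_of_ne h, Pi.single_eq_of_ne]
          intro h2
          exact h (Sum.inl.inj h2)
      · change (zminP F r m (ff (.inl (.inr j) : GG F r m))).1 k = _
        rw [h1, Pi.single_eq_of_ne (by simp)]
        rfl
    · refine ⟨.inr i, rfl, ?_⟩
      funext k
      have h1 : zminP F r m (ff (.inr (.inl (some i)) : GG F r m)) = (Pi.single i 1, 0) :=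
        zminP_zero _
      rcases k with k | k
      · rw [Pi.single_eq_of_ne (by simp)]
        rfl
      · change (zminP F r m (ff (.inr (.inl (some i)) : GG F r m))).1 k = _
        rw [h1]
        by_cases h : k = i
        · subst h
          simp
        · rw [Pi.single_eq_of_ne (fun h2 => h (Sum.inr.inj h2))]
          exact Pi.single_eq_of_ne h _
  choose φ hφ1 hφ2 using key
  have hinj : Function.Injective (fun g : zminX F ρ r m => φ g.1 g.2) := by
    rintro ⟨g, hg⟩ ⟨g', hg'⟩ heq
    have heq' : φ g hg = φ g' hg' := heq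
    have h1 := hφ1 g hg
    have h2 := hφ1 g' hg'
    rw [heq', ← h2] at h1
    apply Subtype.ext
    change g = g'
    rcases hg with ⟨j, rfl⟩ | ⟨i, _, rfl⟩ <;> rcases hg' with ⟨j', rfl⟩ | ⟨i', _, rfl⟩
    · have h3 : some (Sum.inl j : Fin (2 * m) ⊕ Fin r) = some (Sum.inl j') := h1
      rw [Sum.inl.inj (Option.some.inj h3)]
    · have h3 : some (Sum.inl j : Fin (2 * m) ⊕ Fin r) = some (Sum.inr i') := h1
      simp at h3
    · have h3 : some (Sum.inr i : Fin (2 * m) ⊕ Fin r) = some (Sum.inl j') := h1
      simp at h3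
    · have h3 : some (Sum.inr i : Fin (2 * m) ⊕ Fin r) = some (Sum.inr i') := h1
      rw [Sum.inr.inj (Option.some.inj h3)]
  have h3 : LinearIndependent F (fun g : zminX F ρ r m => zminL F r m (ff g.1)) := by
    have h4 := (Pi.basisFun F (Fin (2 * m) ⊕ Fin r)).linearIndependent.comp _ hinj
    have h5 : (fun g : zminX F ρ r m => zminL F r m (ff g.1)) =
        (Pi.basisFun F (Fin (2 * m) ⊕ Fin r)) ∘ (fun g : zminX F ρ r m => φ g.1 g.2) := by
      funext g
      rw [Function.comp_apply, Pi.basisFun_apply]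
      exact hφ2 g.1 g.2
    rw [h5]
    exact h4
  exact LinearIndependent.of_comp (zminL F r m) h3

private theorem zminX_ker {ρ r m : ℕ} (h : ρ ≤ r) :
    LinearMap.ker ((zminR F h).comp (zminP F r m)) =
      Submodule.span F ((ff : GG F r m → VV F r m) '' zminX F ρ r m) := by
  classical
  apply le_antisymm
  · intro v hv
    rw [LinearMap.mem_ker, LinearMap.comp_apply, zminR_apply] at hv
    set w := zminP F r m v with hw
    have hw1 : ∀ i : Fin ρ, w.1 (Fin.castLE h i) = 0 := fun i =>
      congrFun (congrArg Prod.fst hv) i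
    have hw2 : w.2 = 0 := congrArg Prod.snd hv
    have e1 : v = (∑ j : Fin (2 * m), v.1 j • (ff (.inl (.inr j) : GG F r m) : VV F r m)) +
        ∑ i : Fin r, w.1 i • (ff (.inr (.inl (some i)) : GG F r m) : VV F r m) := by
      have a1 : ∑ j : Fin (2 * m), v.1 j • (ff (.inl (.inr j) : GG F r m) : VV F r m) =
          (v.1, ∑ j : Fin (2 * m), v.1 j • (wj j.val : WW F r)) := by
        apply Prod.ext
        · rw [Prod.fst_sum]
          change ∑ j : Fin (2 * m), v.1 j • (dl (j.val + 1) : Fin (2 * m) → F) = v.1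
          funext k
          rw [Finset.sum_apply, Finset.sum_eq_single k]
          · rw [zmin_dl, Pi.smul_apply, Pi.single_eq_same, smul_eq_mul, mul_one]
          · intro b _ hb
            rw [zmin_dl, Pi.smul_apply, Pi.single_eq_of_ne hb.symm, smul_zero]
          · intro h1
            exact absurd (Finset.mem_univ k) h1
        · rw [Prod.snd_sum]
          rfl
      have a2 : ∑ i : Fin r, w.1 i • (ff (.inr (.inl (some i)) : GG F r m) : VV F r m) =
          ((0 : Fin (2 * m) → F), w) := by
        apply Prod.ext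
        · rw [Prod.fst_sum]
          refine Finset.sum_eq_zero ?_
          intro i _
          exact smul_zero _
        · rw [Prod.snd_sum]
          change ∑ i : Fin r, w.1 i • ((Pi.single i 1, 0) : WW F r) = w
          apply Prod.ext
          · rw [Prod.fst_sum]
            funext k
            rw [Finset.sum_apply, Finset.sum_eq_single k]
            · change w.1 k • (Pi.single k 1 : Fin r → F) k = w.1 k
              rw [Pi.single_eq_same, smul_eq_mul, mul_one]
            · intro b _ hb
              change w.1 b • (Pi.single b 1 : Fin r → F) k = 0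
              rw [Pi.single_eq_of_ne hb.symm, smul_zero]
            · intro h1
              exact absurd (Finset.mem_univ k) h1
          · rw [Prod.snd_sum, hw2]
            refine Finset.sum_eq_zero ?_
            intro i _
            exact smul_zero _
      rw [a1, a2]
      apply Prod.ext
      · change v.1 = v.1 + 0
        rw [add_zero]
      · change v.2 = (∑ j : Fin (2 * m), v.1 j • (wj j.val : WW F r)) + w
        rw [hw, zminP_apply]
        abel
    rw [e1]
    refine Submodule.add_mem _ (Submodule.sum_mem _ ?_) (Submodule.sum_mem _ ?_)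
    · intro j _
      exact Submodule.smul_mem _ _ (Submodule.subset_span ⟨_, Or.inl ⟨j, rfl⟩, rfl⟩)
    · intro i _
      by_cases hi : ρ ≤ i.val
      · exact Submodule.smul_mem _ _ (Submodule.subset_span ⟨_, Or.inr ⟨i, hi, rfl⟩, rfl⟩)
      · have h1 : w.1 i = 0 := hw1 ⟨i.val, by omega⟩
        rw [h1, zero_smul]
        exact Submodule.zero_mem _
  · rw [Submodule.span_le]
    rintro _ ⟨g, (⟨j, rfl⟩ | ⟨i, hi, rfl⟩), rfl⟩
    · have h1 : zminP F r m (ff (.inl (.inr j) : GG F r m)) = 0 := zminP_e j
      rw [SetLike.mem_coe, LinearMap.mem_ker, LinearMap.comp_apply, h1, map_zero]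
    · have h1 : zminP F r m (ff (.inr (.inl (some i)) : GG F r m)) = (Pi.single i 1, 0) :=
        zminP_zero _
      rw [SetLike.mem_coe, LinearMap.mem_ker, LinearMap.comp_apply, h1, zminR_apply]
      apply Prod.ext
      · funext k
        change (Pi.single i 1 : Fin r → F) (Fin.castLE h k) = 0
        apply Pi.single_eq_of_ne
        intro h2
        have h3 := congrArg Fin.val h2
        rw [Fin.val_castLE] at h3
        have h4 := k.isLt
        omega
      · rfl

end ZMinAux

theorem zmin {r m : ℕ} (hm : (m : F) = 0) (E K : Set β) (hE : E.Finite) (hKE : K ⊆ E) (ρ : ℕ)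
    (κ : Option (Fin ρ) ≃ ↥K) (f₁ : β → WW F ρ)
    (h1 : ∀ o, f₁ (κ o) = vecN (Sum.inl o)) (h2 : ∀ z ∈ E \ K, (f₁ z).2 = 1)
    (hr : ρ + 2 * E.ncard ≤ r) :
    ∃ (X : Set (GG F r m)) (j : β → GG F r m),
      LinearIndepOn F (ff : GG F r m → VV F r m) X ∧ Set.InjOn j E ∧ (∀ b ∈ E, j b ∉ X) ∧
      ∀ B ⊆ E, ((LinearIndepOn F f₁ B ∨ B ⊆ K) ↔
        (LinearIndepOn F (ff : GG F r m → VV F r m) (j '' B ∪ X) ∨ j '' B ∪ X ⊆ KK)) := by
  classical
  have hρr : ρ ≤ r := by omega
  have : Finite ↥E := hE
  have hcard : Nat.card ↥E = E.ncard := Nat.card_coe_set_eq E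
  set eq := Finite.equivFin ↥E with heq
  set num : β → ℕ := fun z => if h : z ∈ E then (eq ⟨z, h⟩).val else 0 with hnum
  have hnum_lt : ∀ z ∈ E, num z < E.ncard := by
    intro z hz
    rw [hnum]
    simp only [dif_pos hz]
    rw [← hcard]
    exact (eq ⟨z, hz⟩).isLt
  have hnum_inj : ∀ z ∈ E, ∀ z' ∈ E, num z = num z' → z = z' := by
    intro z hz z' hz' h
    rw [hnum] at h
    simp only [dif_pos hz, dif_pos hz'] at h
    have h3 := eq.injective (Fin.ext h)
    exact congrArg Subtype.val h3
  set lift : β → Fin r → F := fun z i => if h : i.val < ρ then (f₁ z).1 ⟨i.val, h⟩ else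
    if i.val = ρ + 2 * num z ∨ i.val = ρ + 2 * num z + 1 then 1 else 0 with hlift
  have hlift1 : ∀ z (i : Fin ρ), lift z (Fin.castLE hρr i) = (f₁ z).1 i := by
    intro z i
    rw [hlift]
    have h3 : (Fin.castLE hρr i).val < ρ := i.isLt
    simp only [dif_pos h3]
    rfl
  have hlift2 : ∀ z (i : Fin r), ρ ≤ i.val →
      lift z i = if i.val = ρ + 2 * num z ∨ i.val = ρ + 2 * num z + 1 then 1 else 0 := by
    intro z i hi
    rw [hlift]
    simp only [dif_neg (not_lt.mpr hi)]
  have hliftSS : ∀ z ∈ E, lift z ∉ (SS : Set (Fin r → F)) := by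
    rintro z hz ⟨i, hi⟩
    have h3 := hnum_lt z hz
    have hp1 : ρ + 2 * num z < r := by omega
    have hp2 : ρ + 2 * num z + 1 < r := by omega
    have a1 := hlift2 z ⟨ρ + 2 * num z, hp1⟩ (Nat.le_add_right _ _)
    have a2 := hlift2 z ⟨ρ + 2 * num z + 1, hp2⟩ (by simp only; omega)
    rw [if_pos (Or.inl rfl), hi] at a1
    rw [if_pos (Or.inr rfl), hi] at a2
    have b1 : (⟨ρ + 2 * num z, hp1⟩ : Fin r) = i := by
      by_contra hne
      rw [Pi.single_eq_of_ne hne] at a1
      exact zero_ne_one a1
    have b2 : (⟨ρ + 2 * num z + 1, hp2⟩ : Fin r) = i := by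
      by_contra hne
      rw [Pi.single_eq_of_ne hne] at a2
      exact zero_ne_one a2
    have b3 := congrArg Fin.val (b1.trans b2.symm)
    simp only at b3
    omega
  set J : β → GG F r m := fun b => if h : b ∈ K then
    .inr (.inl ((κ.symm ⟨b, h⟩).map (Fin.castLE hρr))) else .inr (.inr (lift b)) with hJ
  have hJK : ∀ b (h : b ∈ K), J b = .inr (.inl ((κ.symm ⟨b, h⟩).map (Fin.castLE hρr))) := by
    intro b h
    rw [hJ]
    simp only [dif_pos h]
  have hJn : ∀ b, b ∉ K → J b = .inr (.inr (lift b)) := by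
    intro b h
    rw [hJ]
    simp only [dif_neg h]
  have hJinj : Set.InjOn J E := by
    intro b hb b' hb' hbb
    by_cases hK : b ∈ K <;> by_cases hK' : b' ∈ K
    · rw [hJK b hK, hJK b' hK'] at hbb
      have h3 := Option.map_injective (Fin.castLE_injective hρr) (Sum.inl.inj (Sum.inr.inj hbb))
      have h4 := κ.symm.injective h3
      exact congrArg Subtype.val h4
    · rw [hJK b hK, hJn b' hK'] at hbb
      exact absurd (Sum.inr.inj hbb) (by simp)
    · rw [hJn b hK, hJK b' hK'] at hbb
      exact absurd (Sum.inr.inj hbb) (by simp)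
    · rw [hJn b hK, hJn b' hK'] at hbb
      have h3 : lift b = lift b' := Sum.inr.inj (Sum.inr.inj hbb)
      apply hnum_inj b hb b' hb'
      have h4 := hnum_lt b hb
      have hp1 : ρ + 2 * num b < r := by omega
      have a1 := hlift2 b ⟨ρ + 2 * num b, hp1⟩ (Nat.le_add_right _ _)
      have a2 := hlift2 b' ⟨ρ + 2 * num b, hp1⟩ (Nat.le_add_right _ _)
      rw [if_pos (Or.inl rfl)] at a1
      rw [← h3, a1] at a2
      by_contra hne
      rw [if_neg] at a2
      · exact one_ne_zero a2
      · simp only
        omega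
  have hJX : ∀ b ∈ E, J b ∉ zminX F ρ r m := by
    intro b _ hX
    by_cases hK : b ∈ K
    · rw [hJK b hK] at hX
      rcases hX with ⟨j, hj⟩ | ⟨i, hi, hj⟩
      · exact absurd hj (by simp)
      · have h3 := Sum.inl.inj (Sum.inr.inj hj)
        rw [Option.map_eq_some_iff] at h3
        obtain ⟨a, _, ha⟩ := h3
        have h4 := congrArg Fin.val ha
        rw [Fin.val_castLE] at h4
        have h5 := a.isLt
        omega
    · rw [hJn b hK] at hX
      rcases hX with ⟨j, hj⟩ | ⟨i, hi, hj⟩
      · exact absurd hj (by simp)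
      · exact absurd (Sum.inr.inj hj) (by simp)
  have hΞ : ∀ b ∈ E, ((zminR F hρr).comp (zminP F r m)) (ff (J b)) = f₁ b := by
    intro b hb
    rw [LinearMap.comp_apply]
    by_cases hK : b ∈ K
    · rw [hJK b hK]
      have h3 := h1 (κ.symm ⟨b, hK⟩)
      rw [Equiv.apply_symm_apply] at h3
      have h3' : f₁ b = vecN (Sum.inl (κ.symm ⟨b, hK⟩)) := h3
      rw [h3']
      rcases κ.symm ⟨b, hK⟩ with _ | i
      · have h4 : zminP F r m (ff (.inr (.inl none) : GG F r m)) = (fun _ => 1, 0) :=
          zminP_x hm _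
        change zminR F hρr (zminP F r m (ff (.inr (.inl none) : GG F r m))) = (fun _ => 1, 0)
        rw [h4, zminR_apply]
      · have h4 : zminP F r m (ff (.inr (.inl (some (Fin.castLE hρr i))) : GG F r m)) =
            (Pi.single (Fin.castLE hρr i) 1, 0) := zminP_zero _
        change zminR F hρr (zminP F r m
          (ff (.inr (.inl (some (Fin.castLE hρr i))) : GG F r m))) = (Pi.single i 1, 0)
        rw [h4, zminR_apply]
        apply Prod.ext
        · funext k
          change (Pi.single (Fin.castLE hρr i) 1 : Fin r → F) (Fin.castLE hρr k) =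
            (Pi.single i 1 : Fin ρ → F) k
          by_cases hk : k = i
          · subst hk
            rw [Pi.single_eq_same, Pi.single_eq_same]
          · rw [Pi.single_eq_of_ne hk, Pi.single_eq_of_ne]
            intro h5
            exact hk (Fin.castLE_injective hρr h5)
        · rfl
    · rw [hJn b hK]
      have h4 : (ff (.inr (.inr (lift b)) : GG F r m) : VV F r m) = (0, (lift b, 1)) := by
        rw [ff, if_neg (hliftSS b hb)]
      rw [h4, zminP_zero, zminR_apply]
      apply Prod.ext
      · funext k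
        exact hlift1 b k
      · exact (h2 b ⟨hb, hK⟩).symm
  refine ⟨zminX F ρ r m, J, zminX_indep ρ r m, hJinj, hJX, ?_⟩
  intro B hB
  have hd : Disjoint (J '' B) (zminX F ρ r m) := by
    rw [Set.disjoint_left]
    rintro _ ⟨b, hb, rfl⟩
    exact hJX b (hB hb)
  have hA : LinearIndepOn F (ff : GG F r m → VV F r m) (J '' B ∪ zminX F ρ r m) ↔
      LinearIndepOn F f₁ B := by
    rw [lin_union_iff (ff : GG F r m → VV F r m) (zminX_indep ρ r m) hd _ (zminX_ker hρr)]
    have hEq : Set.EqOn ((fun z => ((zminR F hρr).comp (zminP F r m)) (ff z)) ∘ J) f₁ B :=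
      fun b hb => hΞ b (hB hb)
    constructor
    · intro h3
      exact (LinearIndepOn.comp_of_image h3 (hJinj.mono hB)).congr hEq
    · intro h3
      exact LinearIndepOn.image_of_comp J _ (h3.congr hEq.symm)
  have hC : J '' B ∪ zminX F ρ r m ⊆ KK ↔ B ⊆ K := by
    constructor
    · intro h3 b hb
      by_contra hK
      have h4 : J b ∈ KK := h3 (Or.inl ⟨b, hb, rfl⟩)
      rw [hJn b hK] at h4
      exact h4
    · rintro h3 g (⟨b, hb, rfl⟩ | hX)
      · rw [hJK b (h3 hb)]
        exact trivial
      · rcases hX with ⟨j, rfl⟩ | ⟨i, _, rfl⟩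
        · exact trivial
        · exact trivial
  rw [hA, hC]

end Pool.Agent.MP8f11b1
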