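import Pool.Agent.Lib.MP_8f11b1_co_RX.Lin

set_option autoImplicit false

namespace Pool.Agent.MP8f11b1

variable {F β : Type} [Field F]

namespace ZNorm

/-- membership in the closure of an independent set, in terms of the representation -/
theorem mem_closure {V : Type} [AddCommGroup V] [Module F V] {Z₀ : Matroid β} {f0 : β → V}
    (hf : ∀ I ⊆ Z₀.E, Z₀.Indep I ↔ LinearIndepOn F f0 I) {I : Set β} (hI : Z₀.Indep I) {x : β}
    (hx : x ∈ Z₀.E) : x ∈ Z₀.closure I ↔ f0 x ∈ Submodule.span F (f0 '' I) := by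
  have hIE := hI.subset_ground
  by_cases hxI : x ∈ I
  · exact ⟨fun _ => Submodule.subset_span ⟨x, hxI, rfl⟩, fun _ => Z₀.mem_closure_of_mem hxI⟩
  · have h1 : insert x I ⊆ Z₀.E := Set.insert_subset hx hIE
    rw [hI.mem_closure_iff]
    constructor
    · rintro (h | h)
      · by_contra hns
        exact h.not_indep ((hf _ h1).2 ((linearIndepOn_insert hxI).2 ⟨(hf _ hIE).1 hI, hns⟩))
      · exact absurd h hxI
    · intro h
      left
      rw [Matroid.dep_iff]
      refine ⟨fun h2 => ?_, h1⟩
      exact ((linearIndepOn_insert hxI).1 ((hf _ h1).1 h2)).2 h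

/-- a linear map which takes prescribed values on a linearly independent family -/
theorem exists_map {V W ι : Type} [AddCommGroup V] [Module F V] [AddCommGroup W] [Module F W]
    {u : ι → V} (hu : LinearIndependent F u) {t : ι → W} (ht : LinearIndependent F t) :
    ∃ T : V →ₗ[F] W, (∀ i, T (u i) = t i) ∧
      Set.InjOn T (Submodule.span F (Set.range u) : Set V) := by
  obtain ⟨T, hT⟩ := LinearMap.exists_extend ((Module.Basis.span hu).constr F t)
  have h1 : ∀ i, T (u i) = t i := by
    intro i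
    have h2 := congrArg (fun L : Submodule.span F (Set.range u) →ₗ[F] W =>
      L (Module.Basis.span hu i)) hT
    simp only [Module.Basis.constr_basis, LinearMap.comp_apply, Submodule.subtype_apply] at h2
    rwa [Module.Basis.span_apply] at h2
  refine ⟨T, h1, ?_⟩
  have h3 : LinearIndependent F (T ∘ u) := by
    have : T ∘ u = t := funext h1
    rwa [this]
  have h4 : LinearMap.ker (T.comp (Submodule.span F (Set.range u)).subtype) = ⊥ := by
    rw [LinearMap.ker_eq_bot']
    rintro ⟨v, hv⟩ h0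
    simp only [LinearMap.comp_apply, Submodule.subtype_apply] at h0
    rw [Finsupp.mem_span_range_iff_exists_finsupp] at hv
    obtain ⟨c, hc⟩ := hv
    have h5 : (c.sum fun i a => a • (T ∘ u) i) = 0 := by
      rw [← hc, map_finsuppSum] at h0
      simpa [map_smul] using h0
    have h6 : c = 0 := by
      have := linearIndependent_iff.1 h3 c
      apply this
      rw [Finsupp.linearCombination_apply]
      exact h5
    have h7 : v = 0 := by
      rw [← hc, h6]
      simp
    exact Subtype.ext h7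
  intro a ha b hb hab
  have h5 := LinearMap.ker_eq_bot.1 h4 (a₁ := ⟨a, ha⟩) (a₂ := ⟨b, hb⟩) (by
    simpa using hab)
  exact congrArg Subtype.val h5

end ZNorm

theorem znorm (Z₀ : Matroid β) (hfin : Z₀.E.Finite) (hrep : Rep F Z₀) (K : Set β)
    (hK : Z₀.IsCircuit K) (hns : ¬ Z₀.Spanning K)
    (hsp : ∀ e ∈ Z₀.E \ K, Z₀.Spanning (insert e K)) :
    ∃ (ρ : ℕ) (κ : Option (Fin ρ) ≃ ↥K) (f₁ : β → WW F ρ),
      (∀ I ⊆ Z₀.E, Z₀.Indep I ↔ LinearIndepOn F f₁ I) ∧
      (∀ o, f₁ (κ o) = vecN (Sum.inl o)) ∧ ∀ z ∈ Z₀.E \ K, (f₁ z).2 = 1 := by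
  classical
  obtain ⟨V, _, _, f0, hf⟩ := hrep
  have hKE : K ⊆ Z₀.E := hK.subset_ground
  have hKfin : K.Finite := hfin.subset hKE
  obtain ⟨k0, hk0⟩ := hK.nonempty
  set I0 : Set β := K \ {k0} with hI0
  have hI0K : I0 ⊆ K := Set.diff_subset
  have hI0i : Z₀.Indep I0 := hK.sdiff_singleton_indep hk0
  have hI0l : LinearIndepOn F f0 I0 := (hf _ hI0i.subset_ground).1 hI0i
  have hk0I : k0 ∉ I0 := fun h => h.2 rfl
  have hKins : insert k0 I0 = K := Set.insert_sdiff_singleton.trans (Set.insert_eq_of_mem hk0)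
  have hcl : Z₀.closure I0 = Z₀.closure K := hK.closure_sdiff_singleton_eq k0
  -- the other elements are not in the span of the hyperplane
  have hout : ∀ z ∈ Z₀.E \ K, f0 z ∉ Submodule.span F (f0 '' I0) := by
    intro z hz hzs
    have h1 := (ZNorm.mem_closure hf hI0i hz.1).2 hzs
    rw [hcl] at h1
    apply hns
    have h2 := hsp z hz
    rw [Matroid.spanning_iff] at h2 ⊢
    rw [Matroid.closure_insert_eq_of_mem_closure h1] at h2
    exact ⟨h2.1, hKE⟩
  obtain ⟨e0, he0⟩ : ∃ e, e ∈ Z₀.E \ K := by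
    by_contra hcon
    push Not at hcon
    apply hns
    have : Z₀.E ⊆ K := fun z hz => by
      by_contra h
      exact hcon z ⟨hz, h⟩
    rw [hKE.antisymm this]
    exact Z₀.ground_spanning
  have he0I : e0 ∉ I0 := fun h => he0.2 (hI0K h)
  have hBl : LinearIndepOn F f0 (insert e0 I0) :=
    (linearIndepOn_insert he0I).2 ⟨hI0l, hout e0 he0⟩
  have hBE : insert e0 I0 ⊆ Z₀.E := Set.insert_subset he0.1 hI0i.subset_ground
  have hBi : Z₀.Indep (insert e0 I0) := (hf _ hBE).2 hBl
  have hBcl : Z₀.closure (insert e0 I0) = Z₀.E := by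
    rw [← Matroid.closure_insert_closure_eq_closure_insert, hcl,
      Matroid.closure_insert_closure_eq_closure_insert]
    exact (hsp e0 he0).closure_eq
  have hspan : ∀ z ∈ Z₀.E, f0 z ∈ Submodule.span F (f0 '' insert e0 I0) := fun z hz =>
    (ZNorm.mem_closure hf hBi hz).1 (by rw [hBcl]; exact hz)
  -- enumeration of the circuit
  have hI0fin : Finite ↥I0 := (hKfin.subset hI0K).to_subtype
  set ρ := Nat.card ↥I0 with hρ
  let e1 : Fin ρ ≃ ↥I0 := (Finite.equivFin ↥I0).symm
  let κ0 : Option (Fin ρ) → ↥K := fun o => o.elim ⟨k0, hk0⟩ fun i => ⟨e1 i, hI0K (e1 i).2⟩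
  have hκ : Function.Bijective κ0 := by
    constructor
    · intro a b hab
      have h1 := congrArg Subtype.val hab
      rcases a with _ | i <;> rcases b with _ | j
      · rfl
      · exfalso
        apply hk0I
        change k0 = ((e1 j : ↥I0) : β) at h1
        rw [h1]
        exact (e1 j).2
      · exfalso
        apply hk0I
        change ((e1 i : ↥I0) : β) = k0 at h1
        rw [← h1]
        exact (e1 i).2
      · congr 1
        exact e1.injective (Subtype.ext h1)
    · rintro ⟨z, hz⟩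
      by_cases hz0 : z = k0
      · exact ⟨none, Subtype.ext hz0.symm⟩
      · refine ⟨some (e1.symm ⟨z, hz, hz0⟩), Subtype.ext ?_⟩
        change ((e1 (e1.symm ⟨z, hz, hz0⟩) : ↥I0) : β) = z
        rw [Equiv.apply_symm_apply]
  -- the linear relation on the circuit
  have hrange : Set.range (fun i => f0 (e1 i)) = f0 '' I0 := by
    ext v
    constructor
    · rintro ⟨i, rfl⟩
      exact ⟨e1 i, (e1 i).2, rfl⟩
    · rintro ⟨z, hz, rfl⟩
      exact ⟨e1.symm ⟨z, hz⟩, by simp⟩
  have hk0s : f0 k0 ∈ Submodule.span F (f0 '' I0) := by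
    by_contra hcon
    have h1 : LinearIndepOn F f0 K := by
      rw [← hKins]
      exact (linearIndepOn_insert hk0I).2 ⟨hI0l, hcon⟩
    exact hK.not_indep ((hf _ hKE).2 h1)
  obtain ⟨lam, hlam⟩ : ∃ lam : Fin ρ → F, ∑ i, lam i • f0 (e1 i) = f0 k0 := by
    rw [← hrange] at hk0s
    exact (Submodule.mem_span_range_iff_exists_fun F).1 hk0s
  have hlam0 : ∀ i, lam i ≠ 0 := by
    intro i hi
    have hk1 : ((e1 i : ↥I0) : β) ∈ K := hI0K (e1 i).2
    have hne : k0 ≠ ((e1 i : ↥I0) : β) := fun h => hk0I (by rw [h]; exact (e1 i).2)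
    have h1 := hK.sdiff_singleton_indep hk1
    have h2 := (hf _ h1.subset_ground).1 h1
    have h3 : K \ {((e1 i : ↥I0) : β)} = insert k0 (I0 \ {((e1 i : ↥I0) : β)}) := by
      ext z
      simp only [hI0, Set.mem_sdiff, Set.mem_singleton_iff, Set.mem_insert_iff]
      constructor
      · rintro ⟨ha, hb⟩
        by_cases hz : z = k0
        · exact Or.inl hz
        · exact Or.inr ⟨⟨ha, hz⟩, hb⟩
      · rintro (rfl | ⟨⟨ha, hb⟩, hc⟩)
        · exact ⟨hk0, hne⟩
        · exact ⟨ha, hc⟩
    rw [h3] at h2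
    have h4 := ((linearIndepOn_insert fun h => hk0I h.1).1 h2).2
    apply h4
    rw [← hlam]
    refine Submodule.sum_mem _ fun j _ => ?_
    by_cases hj : j = i
    · rw [hj, hi, zero_smul]
      exact Submodule.zero_mem _
    · refine Submodule.smul_mem _ _ (Submodule.subset_span ⟨e1 j, ⟨(e1 j).2, ?_⟩, rfl⟩)
      intro h5
      exact hj (e1.injective (Subtype.ext h5))
  -- the linear map
  have hli : LinearIndependent F (fun i => f0 (e1 i)) :=
    LinearIndependent.comp (v := fun i : ↥I0 => f0 i) hI0l e1 e1.injective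
  have hv : LinearIndependent F (fun i => lam i • f0 (e1 i)) :=
    hli.units_smul fun i => Units.mk0 (lam i) (hlam0 i)
  have hspv : Submodule.span F (Set.range fun i => lam i • f0 (e1 i)) =
      Submodule.span F (f0 '' I0) := by
    apply le_antisymm
    · rw [Submodule.span_le]
      rintro _ ⟨i, rfl⟩
      exact Submodule.smul_mem _ _ (Submodule.subset_span ⟨e1 i, (e1 i).2, rfl⟩)
    · rw [Submodule.span_le]
      rintro _ ⟨z, hz, rfl⟩
      have h1 : lam (e1.symm ⟨z, hz⟩) • f0 (e1 (e1.symm ⟨z, hz⟩)) ∈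
          Submodule.span F (Set.range fun i => lam i • f0 (e1 i)) :=
        Submodule.subset_span ⟨_, rfl⟩
      have h2 := Submodule.smul_mem _ (lam (e1.symm ⟨z, hz⟩))⁻¹ h1
      rw [smul_smul, inv_mul_cancel₀ (hlam0 _), one_smul, Equiv.apply_symm_apply] at h2
      exact h2
  let u : Option (Fin ρ) → V := fun o => o.casesOn' (f0 e0) fun i => lam i • f0 (e1 i)
  have hu : LinearIndependent F u := hv.option (by rw [hspv]; exact hout e0 he0)
  let t : Option (Fin ρ) → WW F ρ := fun o => o.casesOn' (0, 1) fun i => (Pi.single i 1, 0)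
  have ht1 : LinearIndependent F (fun i : Fin ρ => ((Pi.single i 1, 0) : WW F ρ)) := by
    have h1 : LinearIndependent F (fun i : Fin ρ => (Pi.single i (1 : F) : Fin ρ → F)) := by
      have := (Pi.basisFun F (Fin ρ)).linearIndependent
      convert this using 1
      funext i
      rw [Pi.basisFun_apply]
    exact h1.map' (LinearMap.inl F (Fin ρ → F) F) (LinearMap.ker_eq_bot.2 LinearMap.inl_injective)
  have ht2 : ((0, 1) : WW F ρ) ∉ Submodule.span F
      (Set.range fun i : Fin ρ => ((Pi.single i 1, 0) : WW F ρ)) := by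
    intro h
    have h1 : Submodule.span F (Set.range fun i : Fin ρ => ((Pi.single i 1, 0) : WW F ρ)) ≤
        LinearMap.ker (LinearMap.snd F (Fin ρ → F) F) := by
      rw [Submodule.span_le]
      rintro _ ⟨i, rfl⟩
      simp
    have h2 := h1 h
    simp at h2
  have ht : LinearIndependent F t := ht1.option ht2
  obtain ⟨T, hTu, hTinj⟩ := ZNorm.exists_map hu ht
  have hT0 : T (f0 e0) = (0, 1) := hTu none
  have hTs : ∀ i, T (lam i • f0 (e1 i)) = (Pi.single i 1, 0) := fun i => hTu (some i)
  -- everything is in the span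
  have hle : Submodule.span F (f0 '' insert e0 I0) ≤ Submodule.span F (Set.range u) := by
    have h0 : Submodule.span F (f0 '' I0) ≤ Submodule.span F (Set.range u) := by
      rw [← hspv]
      refine Submodule.span_mono ?_
      rintro _ ⟨i, rfl⟩
      exact ⟨some i, rfl⟩
    rw [Submodule.span_le]
    rintro _ ⟨z, hz, rfl⟩
    rcases hz with rfl | hz
    · exact Submodule.subset_span ⟨none, rfl⟩
    · exact h0 (Submodule.subset_span ⟨z, hz, rfl⟩)
  have hin : ∀ z ∈ Z₀.E, f0 z ∈ Submodule.span F (Set.range u) := fun z hz => hle (hspan z hz)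
  have hsnd : ∀ z ∈ Z₀.E \ K, (T (f0 z)).2 ≠ 0 := by
    intro z hz h0
    apply hout z hz
    have h1 : T (f0 z) = T (∑ i, (T (f0 z)).1 i • (lam i • f0 (e1 i))) := by
      rw [map_sum]
      simp only [map_smul, hTs]
      apply Prod.ext
      · rw [Prod.fst_sum]
        funext j
        simp [Pi.single_apply]
      · rw [Prod.snd_sum]
        simp [h0]
    have hmem : ∑ i, (T (f0 z)).1 i • (lam i • f0 (e1 i)) ∈
        Submodule.span F (Set.range fun i => lam i • f0 (e1 i)) :=
      Submodule.sum_mem _ fun i _ => Submodule.smul_mem _ _ (Submodule.subset_span ⟨i, rfl⟩)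
    have h2 : f0 z = ∑ i, (T (f0 z)).1 i • (lam i • f0 (e1 i)) := by
      refine hTinj (hin z hz.1) ?_ h1
      have h3 : Submodule.span F (Set.range fun i => lam i • f0 (e1 i)) ≤
          Submodule.span F (Set.range u) := by
        refine Submodule.span_mono ?_
        rintro _ ⟨i, rfl⟩
        exact ⟨some i, rfl⟩
      exact h3 hmem
    rw [h2, ← hspv]
    exact hmem
  -- the scalars
  have hc : ∀ z : β, ∃ a : Fˣ, (z ∈ Z₀.E \ K → (a : F) * (T (f0 z)).2 = 1) ∧
      (∀ i, z = ((e1 i : ↥I0) : β) → (a : F) = lam i) ∧ (z = k0 → (a : F) = 1) := by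
    intro z
    by_cases h1 : z ∈ Z₀.E \ K
    · refine ⟨(Units.mk0 _ (hsnd z h1))⁻¹, fun _ => ?_, fun i hi => ?_, fun h => ?_⟩
      · rw [Units.val_inv_eq_inv_val, Units.val_mk0, inv_mul_cancel₀ (hsnd z h1)]
      · exact absurd (by rw [hi]; exact hI0K (e1 i).2) h1.2
      · exact absurd (by rw [h]; exact hk0) h1.2
    · by_cases h2 : z ∈ I0
      · refine ⟨Units.mk0 (lam (e1.symm ⟨z, h2⟩)) (hlam0 _), fun h => absurd h h1,
          fun i hi => ?_, fun h => ?_⟩
        · rw [Units.val_mk0]
          congr 1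
          rw [Equiv.symm_apply_eq]
          exact Subtype.ext hi
        · exact absurd (by rw [← h]; exact h2) hk0I
      · refine ⟨1, fun h => absurd h h1, fun i hi => ?_, fun _ => rfl⟩
        exact absurd (by rw [hi]; exact (e1 i).2) h2
  choose a ha1 ha2 ha3 using hc
  refine ⟨ρ, Equiv.ofBijective κ0 hκ, fun z => (a z : F) • T (f0 z), ?_, ?_, ?_⟩
  · intro I hI
    rw [hf I hI]
    have h1 : LinearIndepOn F (fun z => (a z : F) • T (f0 z)) I ↔
        LinearIndepOn F (T ∘ f0) I :=
      LinearIndependent.units_smul_iff (fun z : I => (T ∘ f0) z) (fun z : I => a z)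
    rw [h1]
    refine (T.linearIndepOn_iff_of_injOn (hTinj.mono ?_)).symm
    have h2 : Submodule.span F (f0 '' I) ≤ Submodule.span F (Set.range u) := by
      rw [Submodule.span_le]
      rintro _ ⟨z, hz, rfl⟩
      exact hin z (hI hz)
    exact h2
  · intro o
    rcases o with _ | i
    · change (a k0 : F) • T (f0 k0) = ((fun _ => 1, 0) : WW F ρ)
      rw [ha3 k0 rfl, one_smul, ← hlam, map_sum]
      simp only [hTs]
      apply Prod.ext
      · rw [Prod.fst_sum]
        funext j
        simp [Pi.single_apply]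
      · rw [Prod.snd_sum]
        simp
    · change (a (e1 i) : F) • T (f0 (e1 i)) = ((Pi.single i 1, 0) : WW F ρ)
      rw [ha2 _ i rfl, ← map_smul, hTs]
  · intro z hz
    change (a z : F) * (T (f0 z)).2 = 1
    exact ha1 z hz

end Pool.Agent.MP8f11b1
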