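import Pool.Agent.Lib.MP_8f11b1_co_RX.Defs

set_option autoImplicit false

namespace Pool.Agent.MP8f11b1

variable {β : Type}

theorem relax_indep {Z₀ Z : Matroid β} {K : Set β} (h : IsRelaxation Z₀ K Z) (I : Set β) :
    Z.Indep I ↔ Z₀.Indep I ∨ I ⊆ K := by
  constructor
  · intro hI
    obtain ⟨B, hB, hIB⟩ := Matroid.indep_iff.1 hI
    rcases (h.isBase_iff B).1 hB with h1 | h1
    · exact Or.inl (Matroid.indep_iff.2 ⟨B, h1, hIB⟩)
    · exact Or.inr (h1 ▸ hIB)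
  · rintro (hI | hI)
    · obtain ⟨B, hB, hIB⟩ := Matroid.indep_iff.1 hI
      exact Matroid.indep_iff.2 ⟨B, (h.isBase_iff B).2 (Or.inl hB), hIB⟩
    · exact Matroid.indep_iff.2 ⟨K, (h.isBase_iff K).2 (Or.inr rfl), hI⟩

end Pool.Agent.MP8f11b1
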