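import Pool.Agent.Lib.MP_8f11b1_co_RX.Uniq
import Pool.Agent.Lib.MP_8f11b1_co_RX.Rel
import Pool.Agent.Lib.MP_8f11b1_co_RX.RepM
import Pool.Agent.Lib.MP_8f11b1_co_RX.Comb
import Pool.Agent.Lib.MP_8f11b1_co_RX.Cfg
import Pool.Agent.Lib.MP_8f11b1_co_RX.NMin
import Pool.Agent.Lib.MP_8f11b1_co_RX.ZNorm
import Pool.Agent.Lib.MP_8f11b1_co_RX.ZRel
import Pool.Agent.Lib.MP_8f11b1_co_RX.ZMin
import Pool.Agent.Lib.MP_8f11b1_co_RX.U2Rep
import Pool.Agent.Lib.MP_8f11b1_co_RX.U2Rel
import Pool.Agent.Lib.MP_8f11b1_co_RX.IsoM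

set_option autoImplicit false

namespace Pool.Agent.MP8f11b1

open Matroid

section aux
variable {F : Type} [Field F] {r : ℕ}

/-- a base of `N` -/
theorem exists_base_vecN [Finite F] :
    ∃ B : Set (EN F r), LinearIndepOn F (vecN : EN F r → WW F r) B ∧ B.ncard = r + 1 := by
  obtain ⟨B, -, -, hB, hs⟩ := lin_extend (F := F) (vecN : EN F r → WW F r)
    (I := ∅) (J := Set.univ) (Set.empty_subset _) (linearIndepOn_empty F _)
  refine ⟨B, hB, ?_⟩
  have htop : Submodule.span F ((vecN : EN F r → WW F r) '' B) = ⊤ := by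
    rw [eq_top_iff]
    rintro ⟨h, t⟩ -
    have h0 : ∀ i, ((Pi.single i 1, 0) : WW F r) ∈
        Submodule.span F ((vecN : EN F r → WW F r) '' B) := fun i =>
      hs ⟨Sum.inl (some i), trivial, rfl⟩
    have h1 : ((fun _ => 0, 1) : WW F r) ∈
        Submodule.span F ((vecN : EN F r → WW F r) '' B) :=
      hs ⟨Sum.inr (fun _ => 0), trivial, rfl⟩
    have he : ((h, t) : WW F r) = (∑ i, h i • ((Pi.single i 1, 0) : WW F r)) +
        t • ((fun _ => 0, 1) : WW F r) := by
      ext j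
      · simp [Prod.fst_sum, Finset.sum_apply, Pi.single_apply]
      · simp [Prod.snd_sum]
    rw [he]
    exact Submodule.add_mem _ (Submodule.sum_mem _ fun i _ => Submodule.smul_mem _ _ (h0 i))
      (Submodule.smul_mem _ _ h1)
  have hf := lin_finrank_span (F := F) _ hB (Set.toFinite B)
  rw [htop, finrank_top] at hf
  rw [← hf]
  simp

end aux

theorem main_A (F : Type) [Field F] [Finite F] (β : Type) (Z₀ Z : Matroid β) (K : Set β)
    (hfin : Z₀.Finite) (hrep : Rep F Z₀) (hrel : IsRelaxation Z₀ K Z) :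
    ∃ (γ : Type) (N : Matroid γ), N.Finite ∧ Rep F N ∧
      ∀ C : ∀ α : Type, Matroid α → Prop, IsMinorClosed C →
        (∀ (α : Type) (M : Matroid α), M.Finite → Rep F M → C α M) → ¬ C β Z →
        ∀ k : ℕ, ∃ (α : Type) (M : Matroid α),
          IsExcludedMinor (Union C (Ex N)) M ∧ k ≤ M.E.ncard := by
  classical
  obtain ⟨ρ, κ, f₁, h1, h2, h3⟩ := znorm Z₀ hfin.ground_finite hrep K hrel.circuit
    hrel.nonspanning hrel.hyperplane
  set r : ℕ := 29 + (ρ + 2 * Z₀.E.ncard) with hr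
  obtain ⟨N, hNE, hN⟩ := vecM_exists (F := F) (vecN : EN F r → WW F r)
  have hNfin : N.Finite := ⟨Set.toFinite _⟩
  refine ⟨EN F r, N, hNfin, ⟨WW F r, inferInstance, inferInstance, vecN, fun I _ => hN I⟩, ?_⟩
  intro C hC hCF hZ k
  set m : ℕ := ringChar F * (k + 1) with hmdef
  have hm : (m : F) = 0 := by
    rw [hmdef, Nat.cast_mul, ringChar.Nat.cast_ringChar, zero_mul]
  have hp : 0 < ringChar F := by
    have := CharP.char_is_prime_or_zero F (ringChar F)
    rcases this with h | h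
    · exact h.pos
    · exact absurd h (CharP.ringChar_ne_zero_of_finite F)
  have hm0 : 0 < m := Nat.mul_pos hp (Nat.succ_pos k)
  have hkm : k ≤ m := by
    have := Nat.mul_le_mul_right (k + 1) hp
    omega
  have hch : CH F (ff : GG F r m → VV F r m) KK := ch_ff hm
  obtain ⟨M, hME, hM⟩ := relM_exists (F := F) (ff : GG F r m → VV F r m) KK hch
  have hfin' : ∀ S : Set (GG F r m), S.Finite := fun S => Set.toFinite S
  have hMfin : M.Finite := ⟨hfin' _⟩
  -- the minor `N`
  have hMN : ∃ M' : Matroid (GG F r m), M'.IsMinor M ∧ Iso M' N := by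
    refine exists_isMinor_iso M N (Set.range fun i => Sum.inl (Sum.inl i))
      ((hM _).2 (Or.inl ff_C)) Sum.inr Sum.inr_injective.injOn ?_ ?_
    · intro b _
      refine ⟨by rw [hME]; trivial, ?_⟩
      rintro ⟨i, hi⟩
      cases hi
    · intro B _
      rw [hN, hM]
      exact nmin hm0 B
  -- the minor `Z`
  have hKE : K ⊆ Z₀.E := hrel.circuit.subset_ground
  have hMZ : ∃ M' : Matroid (GG F r m), M'.IsMinor M ∧ Iso M' Z := by
    obtain ⟨X, j, hX, hj, hjX, hB⟩ := zmin (F := F) (r := r) (m := m) hm Z₀.E K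
      hfin.ground_finite hKE ρ κ f₁ h2 h3 (by omega)
    refine exists_isMinor_iso M Z X ((hM _).2 (Or.inl hX)) j (by rwa [hrel.ground]) ?_ ?_
    · intro b hb
      rw [hrel.ground] at hb
      exact ⟨by rw [hME]; trivial, hjX b hb⟩
    · intro B hBE
      rw [hrel.ground] at hBE
      rw [hM, ← hB B hBE, relax_indep hrel, h1 B hBE]
  have hnC : ¬ C _ M := by
    intro h
    obtain ⟨M', hM', hi⟩ := hMZ
    exact hZ (hC.iso _ _ _ _ hi (hC.minor _ _ _ hM' h))
  -- a minimal minor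
  have hex : ∃ s : ℕ, ∃ M' : Matroid (GG F r m), M'.IsMinor M ∧ ¬ C _ M' ∧
      (∃ N' : Matroid (GG F r m), N'.IsMinor M' ∧ Iso N' N) ∧ M'.E.ncard = s :=
    ⟨_, M, Matroid.IsMinor.refl, hnC, hMN, rfl⟩
  obtain ⟨M', hM', hM'C, hM'N, hcard⟩ := Nat.find_spec hex
  have hmin := fun s (hs : s < Nat.find hex) => Nat.find_min hex hs
  refine ⟨GG F r m, M', ⟨⟨hfin' _⟩, ?_, ?_⟩, ?_⟩
  · rintro (h | h)
    · exact hM'C h
    · exact h.2 hM'N
  · intro M'' hM'' hne
    have hsub : M''.E ⊂ M'.E := by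
      refine hM''.subset.ssubset_of_ne ?_
      intro hE
      exact hne (hM''.eq_of_ground_subset hE.symm.subset).symm
    have hlt : M''.E.ncard < Nat.find hex := by
      rw [← hcard]
      exact Set.ncard_lt_ncard hsub (hfin' _)
    by_contra hcon
    unfold Union at hcon
    rw [not_or] at hcon
    refine hmin _ hlt ⟨M'', hM''.trans hM', hcon.1, ?_, rfl⟩
    by_contra hc
    exact hcon.2 ⟨⟨hfin' _⟩, hc⟩
  · -- the size
    have hnR : ¬ Rep F M' := fun h => hM'C (hCF _ _ ⟨hfin' _⟩ h)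
    obtain ⟨X, Y, hXK, hYK, hXY, hMe⟩ := rel_minor ff KK hch M hME hM hM' hnR
    obtain ⟨N', hN', hi⟩ := hM'N
    have hKi : M.Indep KK := (hM _).2 (Or.inr subset_rfl)
    have hKB : M.IsBase KK := by
      rw [Matroid.isBase_iff_maximal_indep]
      refine ⟨hKi, ?_⟩
      intro I hI hKI
      rcases (hM _).1 hI with h | h
      · have := (lin_ncard_le _ h).2
        rw [← hch.card] at this
        rw [Set.eq_of_subset_of_ncard_le hKI this (hfin' _)]
      · exact h
    rw [hMe] at hN'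
    obtain ⟨ι, X', hι, hιX, hXX', hind, hbase⟩ := sub_minor KK M hME hKB X Y hXK hYK hXY N' hN'
      N hNE hi
    obtain ⟨B, hB, hBc⟩ := exists_base_vecN (F := F) (r := r)
    have hBb : N.IsBase B := by
      rw [Matroid.isBase_iff_maximal_indep]
      refine ⟨(hN B).2 hB, ?_⟩
      intro I hI hBI
      have := (lin_ncard_le _ ((hN _).1 hI)).2
      have h4 : Module.finrank F (WW F r) = r + 1 := by simp
      rw [h4, ← hBc] at this
      rw [Set.eq_of_subset_of_ncard_le hBI this (Set.toFinite _)]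
    have h5 := (hbase B hBb).ncard_eq_ncard_of_isBase hKB
    have h6 : Module.finrank F (VV F r m) = 2 * m + (r + 1) := by simp
    have h7 : (ι '' B ∪ X').ncard = B.ncard + X'.ncard := by
      rw [Set.ncard_union_eq ?_ (hfin' _) (hfin' _), Set.ncard_image_of_injective _ hι]
      rw [Set.disjoint_left]
      rintro _ ⟨z, _, rfl⟩
      exact hιX z
    have hc : X'.ncard = 2 * m := by
      rw [h7, hch.card, h6, hBc] at h5
      omega
    have hE : Emb F ι X' := ⟨hι, hιX, hc, fun B => by rw [← hN, hind, hM]⟩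
    have hu := uniq (by omega) hch hE
    have hX0 : X = ∅ := by
      rw [Set.eq_empty_iff_forall_notMem]
      intro x hx
      have hx1 := hXK hx
      have hx2 := hXX' hx
      rw [hu] at hx2
      obtain ⟨i, rfl⟩ := hx2
      exact hx1
    have hKsub : (KK : Set (GG F r m)) ⊆ M'.E := by
      intro x hx
      rw [hMe, Matroid.delete_ground, Matroid.contract_ground, hME, hX0]
      exact ⟨⟨trivial, Set.notMem_empty _⟩, fun hy => Set.disjoint_left.1 hYK hy hx⟩
    have h8 := Set.ncard_le_ncard hKsub (hfin' _)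
    rw [hch.card, h6] at h8
    omega

theorem main_B (F : Type) [Field F] [Finite F] :
    ∃ (γ : Type) (N : Matroid γ), N.Finite ∧ Rep F N ∧
      ∀ C : ∀ α : Type, Matroid α → Prop, IsMinorClosed C →
        (∀ (α : Type) (M : Matroid α), M.Finite → Rep F M → C α M) →
        (∀ (α : Type) (M : Matroid α), C α M → ¬ IsU2 (Nat.card F + 2) M) →
        ∀ k : ℕ, ∃ (α : Type) (M : Matroid α),
          IsExcludedMinor (Union C (Ex N)) M ∧ k ≤ M.E.ncard := by
  obtain ⟨β, Z₀, Z, K, hf, hr, hrel, hU⟩ := u2_relax (F := F)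
  obtain ⟨γ, N, hN1, hN2, hN⟩ := main_A F β Z₀ Z K hf hr hrel
  exact ⟨γ, N, hN1, hN2, fun C hC hCF hCU => hN C hC hCF fun h => hCU _ _ h hU⟩

/-- the class of the matroids without `U_{2,q+2}`-minor is an example -/
theorem ex_u2 (F : Type) [Field F] [Finite F] {β : Type} (U : Matroid β)
    (hU : IsU2 (Nat.card F + 2) U) :
    IsMinorClosed (Ex U) ∧ (∀ (α : Type) (M : Matroid α), M.Finite → Rep F M → Ex U α M) ∧
      ∀ (α : Type) (M : Matroid α), Ex U α M → ¬ IsU2 (Nat.card F + 2) M := by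
  refine ⟨⟨?_, ?_⟩, ?_, ?_⟩
  · intro α α' M M₂ hi hM
    refine ⟨hi.finite hM.1, ?_⟩
    intro hn
    exact hM.2 (hi.exists_minor hM.1 hn)
  · intro α M M' hm hM
    refine ⟨?_, ?_⟩
    · exact ⟨hM.1.ground_finite.subset hm.subset⟩
    · rintro ⟨N', hN', hi⟩
      exact hM.2 ⟨N', hN'.trans hm, hi⟩
  · intro α M hf hR
    refine ⟨hf, ?_⟩
    rintro ⟨M', hM', hi⟩
    have := rep_isU2 (hR.minor hM') (isU2_of_iso hi hU)
    omega
  · intro α M hM hMU
    exact hM.2 ⟨M, Matroid.IsMinor.refl, iso_of_isU2 (by omega) hMU hU⟩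

end Pool.Agent.MP8f11b1
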