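import Pool.Agent.Lib.MP_8f11b1_co_RX.S2

set_option autoImplicit false

namespace Pool.Agent.MP8f11b1

variable {F : Type} [Field F] {r m : ℕ}

/-- the two coordinates of the hypothesis of `three` -/
private theorem three_coord (G : WW F r) (i i' : Fin 3 → Fin r) (c : Fin 3 → F)
    (h : ∀ k, ((Pi.single (i' k) 1, 1) : WW F r) + G = c k • (Pi.single (i k) 1, 1)) :
    (∀ k, 1 + G.2 = c k) ∧
      ∀ k j, (Pi.single (i' k) 1 : Fin r → F) j + G.1 j = c k * (Pi.single (i k) 1 : Fin r → F) j := by
  constructor
  · intro k
    have h2 := congrArg Prod.snd (h k)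
    simpa using h2
  · intro k j
    have h1 := congrFun (congrArg Prod.fst (h k)) j
    simpa using h1

/-- purely a statement on vectors: three unit vectors -/
theorem three (G : WW F r) (i i' : Fin 3 → Fin r) (c : Fin 3 → F) (hi : Function.Injective i)
    (hi' : Function.Injective i')
    (h : ∀ k, ((Pi.single (i' k) 1, 1) : WW F r) + G = c k • (Pi.single (i k) 1, 1)) :
    G = 0 := by
  obtain ⟨h2, h1⟩ := three_coord G i i' c h
  have hcc : ∀ k l, c k = c l := fun k l => (h2 k).symm.trans (h2 l)
  -- if `i' k = i k` for some `k`, we are done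
  have hdone : (∃ k, i' k = i k) → G = 0 := by
    rintro ⟨k, hk⟩
    -- take another index
    obtain ⟨l, hl⟩ : ∃ l, l ≠ k := exists_ne k
    have e1 := h1 k (i' k)
    have e2 := h1 l (i' k)
    have n1 : i' k ≠ i' l := fun hh => hl (hi' hh).symm
    have n2 : i' k ≠ i l := by
      rw [hk]
      exact fun hh => hl (hi hh).symm
    rw [Pi.single_eq_same, hk, Pi.single_eq_same] at e1
    rw [Pi.single_eq_of_ne n1, Pi.single_eq_of_ne n2, hk] at e2
    have hG1 : G.1 (i k) = 0 := by simpa using e2
    have hc1 : c k = 1 := by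
      rw [hG1] at e1
      simpa using e1.symm
    apply Prod.ext
    · funext j
      have := h1 k j
      rw [hk, hc1, one_mul] at this
      simpa using this
    · have := h2 k
      rw [hc1] at this
      simpa using this
  by_contra hG
  have hne : ∀ k, i' k ≠ i k := fun k hk => hG (hdone ⟨k, hk⟩)
  have key : ∀ k l, k ≠ l → i' k = i l := by
    intro k l hkl
    by_contra hx
    have e1 := h1 k (i' k)
    have e2 := h1 l (i' k)
    have n1 : i' k ≠ i' l := fun hh => hkl (hi' hh)
    rw [Pi.single_eq_same, Pi.single_eq_of_ne (hne k)] at e1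
    rw [Pi.single_eq_of_ne n1, Pi.single_eq_of_ne hx] at e2
    have hG1 : G.1 (i' k) = 0 := by simpa using e2
    rw [hG1] at e1
    simp at e1
  have a1 := key 0 1 (by decide)
  have a2 := key 0 2 (by decide)
  have := hi (a1.symm.trans a2)
  exact absurd this (by decide)

theorem stage_two [Finite F] (hr : 29 ≤ r) {ι : EN F r → GG F r m} {X : Set (GG F r m)}
    (h : LEmb F ι X) {π : VV F r m →ₗ[F] WW F r} (hπ : ∀ w, π (0, w) = w)
    (hk : LinearMap.ker π = Submodule.span F ((ff : GG F r m → VV F r m) '' X)) :
    π (dl (2 * m), 0) = 0 := by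
  classical
  have hX : LinearIndepOn F (ff : GG F r m → VV F r m) X := by
    have := (h.iff ∅).1 (linearIndepOn_empty F _)
    simpa using this
  have h0 : ∀ x ∈ X, π (ff x) = 0 := by
    intro x hx
    have : (ff x : VV F r m) ∈ LinearMap.ker π := by
      rw [hk]
      exact Submodule.subset_span ⟨x, hx, rfl⟩
    exact this
  choose v c hc hv using fun i : Fin r =>
    cover (by omega : 7 ≤ r) h hπ hk (Pi.single i 1 : Fin r → F)
  -- the vectors `c i • (unit i, 1)` are different
  have hinjv : Function.Injective fun i : Fin r =>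
      (c i • ((Pi.single i 1, 1) : WW F r)) := by
    intro i k hik
    have hik' : c i • ((Pi.single i 1, 1) : WW F r) = c k • ((Pi.single k 1, 1) : WW F r) := hik
    have h2 : c i = c k := by
      have := congrArg Prod.snd hik'
      simpa using this
    by_contra hne
    have h1 := congrFun (congrArg Prod.fst hik') i
    have h3 : c i * (Pi.single i 1 : Fin r → F) i = c k * (Pi.single k 1 : Fin r → F) i := by
      simpa using h1
    rw [Pi.single_eq_same, Pi.single_eq_of_ne hne] at h3
    simp at h3
    exact hc i h3
  have hzinj : Function.Injective fun i : Fin r => ι (Sum.inr (v i)) := by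
    intro i k hik
    apply hinjv
    have hik' : ι (Sum.inr (v i)) = ι (Sum.inr (v k)) := hik
    show c i • ((Pi.single i 1, 1) : WW F r) = c k • ((Pi.single k 1, 1) : WW F r)
    rw [← hv i, ← hv k, hik']
  -- the three kinds of indices
  set A : Finset (Fin r) := Finset.univ.filter fun i => ∃ y, ι (Sum.inr (v i)) = Sum.inl y with hA
  set B : Finset (Fin r) :=
    Finset.univ.filter fun i => ι (Sum.inr (v i)) = Sum.inr (Sum.inl none) with hB
  set C : Finset (Fin r) :=
    Finset.univ.filter fun i => ∃ i', ι (Sum.inr (v i)) = Sum.inr (Sum.inr (Pi.single i' 1))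
    with hC
  have hcovABC : (Finset.univ : Finset (Fin r)) ⊆ A ∪ B ∪ C := by
    intro i _
    rw [Finset.mem_union, Finset.mem_union, hA, hB, hC, Finset.mem_filter, Finset.mem_filter,
      Finset.mem_filter]
    rcases hcase : ι (Sum.inr (v i)) with y | (o | w)
    · left; left
      exact ⟨Finset.mem_univ _, y, rfl⟩
    · rcases o with _ | j
      · left; right
        exact ⟨Finset.mem_univ _, rfl⟩
      · exfalso
        have e := hv i
        rw [hcase] at e
        have e' : π (0, ((Pi.single j 1, 0) : WW F r)) = c i • ((Pi.single i 1, 1) : WW F r) := e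
        rw [hπ] at e'
        have := congrArg Prod.snd e'
        apply hc i
        simpa using this.symm
    · right
      refine ⟨Finset.mem_univ _, ?_⟩
      by_cases hw : w ∈ (SS : Set (Fin r → F))
      · obtain ⟨i', hi'⟩ := hw
        exact ⟨i', by rw [hi']⟩
      · exfalso
        have e := hv i
        rw [hcase] at e
        have e' : π (0, ((w, 1) : WW F r)) = c i • ((Pi.single i 1, 1) : WW F r) := by
          rw [← e]
          simp [ff, hw]
        rw [hπ] at e'
        have hc1 : c i = 1 := by
          have := congrArg Prod.snd e'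
          simpa using this.symm
        apply hw
        refine ⟨i, ?_⟩
        have := congrArg Prod.fst e'
        rw [hc1, one_smul] at this
        exact this
  have hAcard : A.card ≤ 25 := by
    have hpot := pot (by omega : 1 ≤ r) π X hX h0 h.card
    have ht := other_le_two (by omega : 1 ≤ r) hπ h0
    have hfin : (Set.range fun y : Fin (2 * m) ⊕ Fin (2 * m) =>
        π (ff (Sum.inl y : GG F r m))).Finite := Set.finite_range _
    have h1 : A.card ≤ (Set.range fun y : Fin (2 * m) ⊕ Fin (2 * m) =>
        π (ff (Sum.inl y : GG F r m))).ncard := by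
      rw [← Finset.card_image_of_injective A hinjv, ← Set.ncard_coe_finset]
      apply Set.ncard_le_ncard _ hfin
      intro q hq
      rw [Finset.coe_image] at hq
      obtain ⟨i, hi, rfl⟩ := hq
      rw [Finset.mem_coe, hA, Finset.mem_filter] at hi
      obtain ⟨_, y, hy⟩ := hi
      refine ⟨y, ?_⟩
      show π (ff (Sum.inl y : GG F r m)) = c i • ((Pi.single i 1, 1) : WW F r)
      rw [← hv i, hy]
    refine h1.trans (hpot.trans ?_)
    calc ((X \ Set.range Sum.inl).ncard + 3) ^ 2 ≤ (2 + 3) ^ 2 :=
          Nat.pow_le_pow_left (by omega) 2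
      _ = 25 := by norm_num
  have hBcard : B.card ≤ 1 := by
    rw [Finset.card_le_one]
    intro i hi k hk'
    rw [hB, Finset.mem_filter] at hi hk'
    exact hzinj (hi.2.trans hk'.2.symm)
  have hCcard : 3 ≤ C.card := by
    have h1 : r ≤ (A ∪ B ∪ C).card := by
      have := Finset.card_le_card hcovABC
      rwa [Finset.card_univ, Fintype.card_fin] at this
    have h2 := Finset.card_union_le (A ∪ B) C
    have h3 := Finset.card_union_le A B
    omega
  have hemb : Nonempty (Fin 3 ↪ C) := by
    apply Function.Embedding.nonempty_of_card_le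
    rw [Fintype.card_fin, Fintype.card_coe]
    exact hCcard
  obtain ⟨em⟩ := hemb
  have hmem : ∀ k : Fin 3, ∃ i', ι (Sum.inr (v (em k : Fin r))) =
      Sum.inr (Sum.inr (Pi.single i' 1)) := by
    intro k
    exact (Finset.mem_filter.1 (em k).2).2
  choose i' hi' using hmem
  apply three (π (dl (2 * m), 0)) (fun k => (em k : Fin r)) i' (fun k => c (em k : Fin r))
  · intro k l hkl
    exact em.injective (Subtype.ext hkl)
  · intro k l hkl
    have h1 : ι (Sum.inr (v (em k : Fin r))) = ι (Sum.inr (v (em l : Fin r))) := by
      rw [hi' k, hi' l, hkl]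
    exact em.injective (Subtype.ext (hzinj h1))
  · intro k
    have e := hv (em k : Fin r)
    rw [hi' k] at e
    have hmemS : (Pi.single (i' k) 1 : Fin r → F) ∈ (SS : Set (Fin r → F)) := ⟨i' k, rfl⟩
    have e2 : (ff (Sum.inr (Sum.inr (Pi.single (i' k) 1)) : GG F r m) : VV F r m) =
        (0, ((Pi.single (i' k) 1, 1) : WW F r)) + (dl (2 * m), 0) := by
      simp [ff, hmemS]
    rw [e2, map_add, hπ] at e
    exact e

end Pool.Agent.MP8f11b1
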