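import Pool.Agent.Lib.MP_8f11b1_co_RX.Lin

set_option autoImplicit false

namespace Pool.Agent.MP8f11b1

variable {F : Type} [Field F] {r : ℕ}

theorem fib_count [Finite F] (θ : (Fin r → F) →ₗ[F] F) (hθ : θ ≠ 0) (c : F) :
    2 ^ (r - 1) ≤ {h | θ h = c}.ncard := by
  have hsurj : Function.Surjective θ := LinearMap.surjective hθ
  obtain ⟨h0, hh0⟩ := hsurj c
  have hrk := LinearMap.finrank_range_add_finrank_ker θ
  rw [LinearMap.range_eq_top.2 hsurj, finrank_top, Module.finrank_self,
    Module.finrank_fin_fun] at hrk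
  have hk : Module.finrank F (LinearMap.ker θ) = r - 1 := by omega
  have hcard : Nat.card (LinearMap.ker θ) = Nat.card F ^ (r - 1) := by
    rw [Module.natCard_eq_pow_finrank (K := F), hk]
  have hset : {h | θ h = c} = (fun h => h + h0) '' (LinearMap.ker θ : Set (Fin r → F)) := by
    ext h
    simp only [Set.mem_setOf_eq, Set.mem_image, SetLike.mem_coe, LinearMap.mem_ker]
    constructor
    · intro hh
      refine ⟨h - h0, ?_, by simp⟩
      rw [map_sub, hh, hh0, sub_self]
    · rintro ⟨x, hx, rfl⟩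
      rw [map_add, hx, hh0, zero_add]
  rw [hset, Set.ncard_image_of_injective _ (add_left_injective h0), ← Nat.card_coe_set_eq]
  have : Nat.card ((LinearMap.ker θ : Set (Fin r → F))) = Nat.card (LinearMap.ker θ) := rfl
  rw [this, hcard]
  exact Nat.pow_le_pow_left (Nat.succ_le_of_lt Finite.one_lt_card) _

private theorem th_eq (θ : WW F r →ₗ[F] F) (h : Fin r → F) (t : F) :
    θ (h, t) = (θ.comp (LinearMap.inl F (Fin r → F) F)) h + t * θ (0, 1) := by
  have h1 : ((h, t) : WW F r) = (h, 0) + t • ((0 : Fin r → F), (1 : F)) := by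
    ext <;> simp
  rw [h1, map_add, map_smul]
  rfl

private theorem finEN [Finite F] : Finite (EN F r) := by
  unfold EN
  infer_instance

private theorem inr_le [Finite F] (S : Set (Fin r → F)) (T : Set (EN F r))
    (h : ∀ x ∈ S, (Sum.inr x : EN F r) ∈ T) : S.ncard ≤ T.ncard := by
  have := finEN (F := F) (r := r)
  rw [← Set.ncard_image_of_injective S (Sum.inr_injective : Function.Injective
    (Sum.inr : (Fin r → F) → EN F r))]
  apply Set.ncard_le_ncard _ (Set.toFinite T)
  rintro _ ⟨x, hx, rfl⟩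
  exact h x hx

private theorem le_two_pow (hr : 3 ≤ r) : r + 1 ≤ 2 ^ (r - 1) := by
  obtain ⟨k, rfl⟩ : ∃ k, r = k + 3 := ⟨r - 3, by omega⟩
  have h : ∀ k : ℕ, k + 3 + 1 ≤ 2 ^ (k + 2) := by
    intro k
    induction k with
    | zero => norm_num
    | succ k ih => rw [show k + 1 + 2 = (k + 2) + 1 by ring, pow_succ]; omega
  simpa using h k

theorem hyp_count [Finite F] (hr : 3 ≤ r) (θ : WW F r →ₗ[F] F) (hθ : θ ≠ 0) :
    r + 1 ≤ {z : EN F r | θ (vecN z) = 0}.ncard := by
  have hfin := finEN (F := F) (r := r)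
  set th1 := θ.comp (LinearMap.inl F (Fin r → F) F) with hth1
  by_cases h0 : th1 = 0
  · have hcard : (Set.range (Sum.inl : Option (Fin r) → EN F r)).ncard = r + 1 := by
      rw [← Set.image_univ, Set.ncard_image_of_injective _ Sum.inl_injective, Set.ncard_univ,
        Nat.card_eq_fintype_card, Fintype.card_option, Fintype.card_fin]
    rw [← hcard]
    apply Set.ncard_le_ncard _ (Set.toFinite _)
    rintro _ ⟨o, rfl⟩
    have hz : ∀ h : Fin r → F, θ (h, 0) = 0 := by
      intro h
      rw [th_eq, ← hth1, h0]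
      simp
    rcases o with _ | i
    · exact hz _
    · exact hz _
  · refine (le_two_pow hr).trans ((fib_count th1 h0 (-(θ (0, 1)))).trans ?_)
    apply inr_le
    intro x hx
    show θ (x, 1) = 0
    rw [th_eq, ← hth1, show th1 x = -(θ (0, 1)) from hx]
    simp

theorem compl_count [Finite F] (hr : 1 ≤ r) (θ : WW F r →ₗ[F] F) (hθ : θ ≠ 0) :
    2 ^ (r - 1) ≤ {z : EN F r | θ (vecN z) ≠ 0}.ncard := by
  have hfin := finEN (F := F) (r := r)
  set th1 := θ.comp (LinearMap.inl F (Fin r → F) F) with hth1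
  by_cases h0 : th1 = 0
  · have hc2 : θ (0, 1) ≠ 0 := by
      intro hc
      apply hθ
      refine LinearMap.ext fun p => ?_
      obtain ⟨h, t⟩ := p
      rw [th_eq, ← hth1, h0, hc]
      simp
    have hall : (Set.univ : Set (Fin r → F)).ncard ≤ {z : EN F r | θ (vecN z) ≠ 0}.ncard := by
      apply inr_le
      intro x _
      show θ (x, 1) ≠ 0
      rw [th_eq, ← hth1, h0]
      simpa using hc2
    refine le_trans ?_ hall
    rw [Set.ncard_univ, Nat.card_fun, Nat.card_eq_fintype_card (α := Fin r), Fintype.card_fin]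
    calc 2 ^ (r - 1) ≤ 2 ^ r := Nat.pow_le_pow_right (by norm_num) (by omega)
      _ ≤ Nat.card F ^ r := Nat.pow_le_pow_left (Nat.succ_le_of_lt Finite.one_lt_card) _
  · refine (fib_count th1 h0 (1 - (θ (0, 1)))).trans ?_
    apply inr_le
    intro x hx
    show θ (x, 1) ≠ 0
    rw [th_eq, ← hth1, show th1 x = 1 - (θ (0, 1)) from hx]
    simp

end Pool.Agent.MP8f11b1
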