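import Pool.Agent.Lib.MP_8f11b1_co_RX.CntA

set_option autoImplicit false

namespace Pool.Agent.MP8f11b1

variable {F Q : Type} [Field F] [AddCommGroup Q] [Module F Q] {r : ℕ}

private theorem CntB_pair (hr : 2 ≤ r) {z z' : EN F r} (hz : z ≠ z') :
    LinearIndepOn F (vecN : EN F r → WW F r) {z, z'} := by
  rw [LinearIndepOn.pair_iff _ hz]
  intro s t h
  have i0 : Fin r := ⟨0, by omega⟩
  have h1 := congrArg Prod.fst h
  have h2 := congrArg Prod.snd h
  rcases z with (_ | i) | x <;> rcases z' with (_ | j) | y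
  · exact absurd rfl hz
  · have hne : ∃ k : Fin r, k ≠ j := by
      by_cases hj : j = ⟨0, by omega⟩
      · refine ⟨⟨1, by omega⟩, fun hk => ?_⟩
        rw [hj] at hk
        simp at hk
      · exact ⟨⟨0, by omega⟩, fun hk => hj hk.symm⟩
    obtain ⟨k, hk⟩ := hne
    have e1 := congrFun h1 k
    have e2 := congrFun h1 j
    simp [vecN, hk] at e1 e2
    subst e1
    simpa using e2
  · have e2 := h2
    simp [vecN] at e2
    subst e2
    have e1 := congrFun h1 ⟨0, by omega⟩
    simpa [vecN] using e1
  · have hne : ∃ k : Fin r, k ≠ i := by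
      by_cases hj : i = ⟨0, by omega⟩
      · refine ⟨⟨1, by omega⟩, fun hk => ?_⟩
        rw [hj] at hk
        simp at hk
      · exact ⟨⟨0, by omega⟩, fun hk => hj hk.symm⟩
    obtain ⟨k, hk⟩ := hne
    have e1 := congrFun h1 k
    have e2 := congrFun h1 i
    simp [vecN, hk] at e1 e2
    subst e1
    simpa using e2
  · have hij : i ≠ j := fun h => hz (by rw [h])
    have e1 := congrFun h1 i
    have e2 := congrFun h1 j
    simp [vecN, hij, hij.symm] at e1 e2
    exact ⟨e1, e2⟩
  · have e2 := h2
    simp [vecN] at e2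
    subst e2
    have e1 := congrFun h1 i
    simpa [vecN] using e1
  · have e2 := h2
    simp [vecN] at e2
    subst e2
    have e1 := congrFun h1 ⟨0, by omega⟩
    simpa [vecN] using e1
  · have e2 := h2
    simp [vecN] at e2
    subst e2
    have e1 := congrFun h1 j
    simpa [vecN] using e1
  · have hxy : x ≠ y := fun h => hz (by rw [h])
    obtain ⟨k, hk⟩ := Function.ne_iff.1 hxy
    have e2 := h2
    have e1 := congrFun h1 k
    simp [vecN] at e1 e2
    have e3 : t = -s := (neg_eq_of_add_eq_zero_right e2).symm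
    subst e3
    have e4 : s * (x k - y k) = 0 := by
      rw [← e1]
      ring
    rcases mul_eq_zero.1 e4 with h5 | h5
    · rw [h5]
      simp
    · exact absurd (sub_eq_zero.1 h5) hk

theorem g_inj (hr : 2 ≤ r) (g : EN F r → Q)
    (hg : ∀ B : Set (EN F r), LinearIndepOn F (vecN : EN F r → WW F r) B ↔ LinearIndepOn F g B)
    {z z' : EN F r} {c : F} (h : g z = c • g z') : z = z' := by
  by_contra hz
  have h1 := (hg {z, z'}).1 (CntB_pair hr hz)
  rw [LinearIndepOn.pair_iff _ hz] at h1
  have h2 := (h1 1 (-c) (by rw [h, one_smul, neg_smul, add_neg_cancel])).1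
  exact one_ne_zero h2

private theorem CntB_ne (hr : 1 ≤ r) (z : EN F r) : (vecN z : WW F r) ≠ 0 := by
  intro h
  have h1 := congrArg Prod.fst h
  have h2 := congrArg Prod.snd h
  rcases z with (_ | i) | x
  · have e1 := congrFun h1 ⟨0, by omega⟩
    simp [vecN] at e1
  · have e1 := congrFun h1 i
    simp [vecN] at e1
  · simp [vecN] at h2

theorem g_ne (g : EN F r → Q)
    (hg : ∀ B : Set (EN F r), LinearIndepOn F (vecN : EN F r → WW F r) B ↔ LinearIndepOn F g B)
    (hr : 1 ≤ r) (z : EN F r) : g z ≠ 0 := by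
  have h1 := (hg {z}).1 ((linearIndepOn_singleton_iff F).2 (CntB_ne hr z))
  exact (linearIndepOn_singleton_iff F).1 h1

theorem g_count [Finite F] [FiniteDimensional F Q] (hr : 1 ≤ r)
    (hQ : Module.finrank F Q = r + 1) (g : EN F r → Q)
    (hg : ∀ B : Set (EN F r), LinearIndepOn F (vecN : EN F r → WW F r) B ↔ LinearIndepOn F g B)
    (θ : Q →ₗ[F] F) (hθ : θ ≠ 0) :
    2 ^ (r - 1) ≤ {z : EN F r | θ (g z) ≠ 0}.ncard := by
  set H : Set (EN F r) := {z | θ (g z) = 0} with hH
  have hfin : Finite (EN F r) := by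
    unfold EN
    infer_instance
  have htop : Submodule.span F (vecN '' H : Set (WW F r)) ≠ ⊤ := by
    intro ht
    obtain ⟨B, -, hBH, hB, hsp⟩ := lin_extend (vecN : EN F r → WW F r) (Set.empty_subset H)
      (linearIndepOn_empty F _)
    have h1 : Submodule.span F (vecN '' B : Set (WW F r)) = ⊤ := by
      rw [eq_top_iff, ← ht]
      exact Submodule.span_le.2 hsp
    have hBf : B.Finite := Set.toFinite B
    have h2 := lin_finrank_span (vecN : EN F r → WW F r) hB hBf
    rw [h1, finrank_top] at h2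
    have h3 : Module.finrank F (WW F r) = r + 1 := by
      unfold WW
      rw [Module.finrank_prod, Module.finrank_fin_fun, Module.finrank_self]
    rw [h3] at h2
    have h4 := lin_span_top g ((hg B).1 hB) (by rw [hQ, ← h2])
    apply hθ
    have h5 : (⊤ : Submodule F Q) ≤ LinearMap.ker θ := by
      rw [← h4, Submodule.span_le]
      rintro _ ⟨z, hz, rfl⟩
      exact hBH hz
    ext v
    exact h5 (Submodule.mem_top (x := v))
  obtain ⟨θ', hθ', h0⟩ := lin_dual _ htop
  refine (compl_count hr θ' hθ').trans (Set.ncard_le_ncard ?_ (Set.toFinite _))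
  intro z hz hz'
  apply hz
  exact h0 _ (Submodule.subset_span ⟨z, hz', rfl⟩)

end Pool.Agent.MP8f11b1
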