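import Pool.Agent.Lib.MP_8f11b1_co_RX.CntB

set_option autoImplicit false

namespace Pool.Agent.MP8f11b1

variable {F Q : Type} [Field F] [AddCommGroup Q] [Module F Q] {r : ℕ}

namespace CntC

/-- The elements `u_i`. -/
private def io (i : Fin r) : EN F r := Sum.inl (some i)

omit [Field F] in
private theorem io_inj : Function.Injective (io : Fin r → EN F r) := by
  intro i j h
  simpa [io] using h

private theorem unit_indep :
    LinearIndepOn F (vecN : EN F r → WW F r) (Set.range (io : Fin r → EN F r)) := by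
  rw [linearIndepOn_range_iff io_inj]
  have h := (Pi.basisFun F (Fin r)).linearIndependent.map' (LinearMap.inl F (Fin r → F) F)
    (LinearMap.ker_eq_bot.2 LinearMap.inl_injective)
  have e : (vecN : EN F r → WW F r) ∘ io =
      (LinearMap.inl F (Fin r → F) F) ∘ (Pi.basisFun F (Fin r)) := by
    funext i
    simp [io, vecN]
  rw [e]
  exact h

private theorem ncard_range : (Set.range (io : Fin r → EN F r)).ncard = r := by
  rw [← Set.image_univ, Set.ncard_image_of_injective _ io_inj]
  simp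

private theorem none_mem : vecN (Sum.inl none : EN F r) ∈
    Submodule.span F ((vecN : EN F r → WW F r) '' (Set.range (io : Fin r → EN F r))) := by
  have h : vecN (Sum.inl none : EN F r) = ∑ i : Fin r, vecN (io i : EN F r) := by
    refine Prod.ext ?_ ?_
    · simp only [vecN, io, Prod.fst_sum]
      funext j
      simp [Pi.single_apply]
    · simp [vecN, io, Prod.snd_sum]
  rw [h]
  exact Submodule.sum_mem _ fun i _ => Submodule.subset_span ⟨io i, ⟨i, rfl⟩, rfl⟩

private theorem inr_not_mem (h : Fin r → F) : vecN (Sum.inr h : EN F r) ∉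
    Submodule.span F ((vecN : EN F r → WW F r) '' (Set.range (io : Fin r → EN F r))) := by
  intro hmem
  have hle : Submodule.span F ((vecN : EN F r → WW F r) '' (Set.range (io : Fin r → EN F r))) ≤
      LinearMap.ker (LinearMap.snd F (Fin r → F) F) := by
    rw [Submodule.span_le]
    rintro _ ⟨_, ⟨i, rfl⟩, rfl⟩
    simp [io, vecN]
  have := hle hmem
  simp [vecN] at this

end CntC

open CntC

private theorem ker_finrank [FiniteDimensional F Q] (hQ : Module.finrank F Q = r + 1)
    (θ : Q →ₗ[F] F) (hθ : θ ≠ 0) : Module.finrank F (LinearMap.ker θ) = r := by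
  have h1 := LinearMap.finrank_range_add_finrank_ker θ
  have h2 : Function.Surjective θ := LinearMap.surjective hθ
  rw [LinearMap.range_eq_top.2 h2, finrank_top, Module.finrank_self, hQ] at h1
  omega

theorem g_eta [FiniteDimensional F Q] (hr : 1 ≤ r)
    (hQ : Module.finrank F Q = r + 1) (g : EN F r → Q)
    (hg : ∀ B : Set (EN F r), LinearIndepOn F (vecN : EN F r → WW F r) B ↔ LinearIndepOn F g B) :
    ∃ η : Q →ₗ[F] F, η ≠ 0 ∧ ∀ z : EN F r, η (g z) = 0 ↔ ∃ o, z = Sum.inl o := by
  set B0 : Set (EN F r) := Set.range (io : Fin r → EN F r) with hB0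
  have hgB : LinearIndepOn F g B0 := (hg B0).1 unit_indep
  have hfin : B0.Finite := Set.finite_range _
  have hfr := lin_finrank_span g hgB hfin
  rw [hB0, ncard_range, ← hB0] at hfr
  set S := Submodule.span F (g '' B0) with hS
  have hST : S ≠ ⊤ := by
    intro h
    rw [h, finrank_top, hQ] at hfr
    omega
  obtain ⟨η, h0, hη⟩ := lin_dual S hST
  have hker : S = LinearMap.ker η := by
    refine Submodule.eq_of_le_of_finrank_eq (fun v hv => LinearMap.mem_ker.2 (hη v hv)) ?_
    rw [hfr, ker_finrank hQ η h0]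
  refine ⟨η, h0, ?_⟩
  have key : ∀ z : EN F r, η (g z) = 0 ↔ g z ∈ S := fun z => by
    rw [hker, LinearMap.mem_ker]
  have key2 : ∀ z : EN F r, z ∉ B0 → (g z ∉ S ↔
      vecN z ∉ Submodule.span F ((vecN : EN F r → WW F r) '' B0)) := by
    intro z hz
    have h1 := hg (insert z B0)
    rw [linearIndepOn_insert hz, linearIndepOn_insert hz] at h1
    exact ⟨fun h => (h1.2 ⟨hgB, h⟩).2, fun h => (h1.1 ⟨unit_indep, h⟩).2⟩
  intro z
  rw [key]
  rcases z with (_ | i) | h
  · refine ⟨fun _ => ⟨_, rfl⟩, fun _ => ?_⟩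
    by_contra hcon
    refine (key2 (Sum.inl none) ?_).1 hcon none_mem
    rintro ⟨i, hi⟩
    simp [io] at hi
  · exact ⟨fun _ => ⟨_, rfl⟩, fun _ => Submodule.subset_span ⟨_, ⟨i, rfl⟩, rfl⟩⟩
  · refine ⟨fun hmem => ?_, fun ⟨o, ho⟩ => by cases ho⟩
    exfalso
    refine (key2 (Sum.inr h) ?_).2 (inr_not_mem h) hmem
    rintro ⟨i, hi⟩
    simp [io] at hi

theorem g_cover [Finite F] [FiniteDimensional F Q] (hr : 2 ≤ r)
    (hQ : Module.finrank F Q = r + 1) (g : EN F r → Q)
    (hg : ∀ B : Set (EN F r), LinearIndepOn F (vecN : EN F r → WW F r) B ↔ LinearIndepOn F g B)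
    (η : Q →ₗ[F] F) (hη : ∀ z : EN F r, η (g z) = 0 ↔ ∃ o, z = Sum.inl o) (w : Q)
    (hw : η w ≠ 0) : ∃ (h : Fin r → F) (c : F), c ≠ 0 ∧ g (Sum.inr h) = c • w := by
  have : Finite Q := Module.finite_of_finite F
  have hη0 : η ≠ 0 := by
    rintro rfl
    simp at hw
  have hgn : ∀ h : Fin r → F, η (g (Sum.inr h)) ≠ 0 := by
    intro h h0
    obtain ⟨o, ho⟩ := (hη _).1 h0
    cases ho
  let Φ : (Fin r → F) → {v : Q // η v = 1} := fun h =>
    ⟨(η (g (Sum.inr h)))⁻¹ • g (Sum.inr h), by simp [hgn h]⟩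
  have hΦ : Function.Injective Φ := by
    intro h h' heq
    have h1 := congrArg Subtype.val heq
    simp only [Φ] at h1
    have h2 : g (Sum.inr h) = (η (g (Sum.inr h)) * (η (g (Sum.inr h')))⁻¹) • g (Sum.inr h') := by
      rw [mul_smul, ← h1, smul_smul, mul_inv_cancel₀ (hgn h), one_smul]
    have h3 := g_inj hr g hg h2
    exact Sum.inr.inj h3
  have hcard : Nat.card (Fin r → F) = Nat.card {v : Q // η v = 1} := by
    obtain ⟨w1, hw1⟩ : ∃ w1 : Q, η w1 = 1 := LinearMap.surjective hη0 1
    have e1 : Nat.card {v : Q // η v = 1} = Nat.card (LinearMap.ker η) := by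
      refine Nat.card_congr
        { toFun := fun v => ⟨v.1 - w1, by simp [v.2, hw1]⟩
          invFun := fun v => ⟨v.1 + w1, by
            rw [map_add, hw1, LinearMap.mem_ker.1 v.2, zero_add]⟩
          left_inv := fun v => by simp
          right_inv := fun v => by simp }
    rw [e1, Module.natCard_eq_pow_finrank (K := F) (V := LinearMap.ker η), ker_finrank hQ η hη0,
      Module.natCard_eq_pow_finrank (K := F) (V := Fin r → F), Module.finrank_fin_fun]
  have hsurj : Function.Surjective Φ := by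
    have := Nat.bijective_iff_injective_and_card Φ |>.2 ⟨hΦ, hcard⟩
    exact this.2
  obtain ⟨h, hh⟩ := hsurj ⟨(η w)⁻¹ • w, by simp [hw]⟩
  have h1 := congrArg Subtype.val hh
  simp only [Φ] at h1
  refine ⟨h, η (g (Sum.inr h)) * (η w)⁻¹, mul_ne_zero (hgn h) (inv_ne_zero hw), ?_⟩
  rw [mul_smul, ← h1, smul_smul, mul_inv_cancel₀ (hgn h), one_smul]

end Pool.Agent.MP8f11b1
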