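import Mathlib

/-! Definitions for the theorem on relaxations and unions of minor-closed classes:
representable matroids, relaxations of circuit-hyperplanes, minor-closed classes, and the
family of vector configurations used in the proof. -/

set_option autoImplicit false

namespace Pool.Agent.MP8f11b1

/-- `M` and `N` are isomorphic. -/
def Iso {α β : Type} (M : Matroid α) (N : Matroid β) : Prop :=
  ∃ e : ↥M.E ≃ ↥N.E, ∀ I : Set ↥M.E,
    M.Indep (Subtype.val '' I) ↔ N.Indep (Subtype.val '' (e '' I))

/-- `M` is representable over the field `F`. -/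
def Rep (F : Type) [Field F] {α : Type} (M : Matroid α) : Prop :=
  ∃ (V : Type) (_ : AddCommGroup V) (_ : Module F V) (f : α → V),
    ∀ I ⊆ M.E, M.Indep I ↔ LinearIndepOn F f I

/-- `Z` is obtained from `Z₀` by relaxing `K`, which is a circuit and a hyperplane
(a maximal non-spanning set) of `Z₀`. -/
structure IsRelaxation {β : Type} (Z₀ : Matroid β) (K : Set β) (Z : Matroid β) : Prop where
  circuit : Z₀.IsCircuit K
  nonspanning : ¬ Z₀.Spanning K
  hyperplane : ∀ e ∈ Z₀.E \ K, Z₀.Spanning (insert e K)
  ground : Z.E = Z₀.E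
  isBase_iff : ∀ B : Set β, Z.IsBase B ↔ Z₀.IsBase B ∨ B = K

/-- The class `C` of matroids is closed under isomorphisms and minors. -/
structure IsMinorClosed (C : ∀ α : Type, Matroid α → Prop) : Prop where
  iso : ∀ (α β : Type) (M : Matroid α) (N : Matroid β), Iso M N → C α M → C β N
  minor : ∀ (α : Type) (M M' : Matroid α), M'.IsMinor M → C α M → C α M'

/-- `M` is an excluded minor of the class `C` of finite matroids. -/
def IsExcludedMinor (C : ∀ α : Type, Matroid α → Prop) {α : Type} (M : Matroid α) : Prop :=
  M.Finite ∧ ¬ C α M ∧ ∀ M' : Matroid α, M'.IsMinor M → M' ≠ M → C α M'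

/-- The union of two classes. -/
def Union (C₁ C₂ : ∀ α : Type, Matroid α → Prop) (α : Type) (M : Matroid α) : Prop :=
  C₁ α M ∨ C₂ α M

/-- The class of the finite matroids with no minor isomorphic to `N`. -/
def Ex {β : Type} (N : Matroid β) (α : Type) (M : Matroid α) : Prop :=
  M.Finite ∧ ¬ ∃ M' : Matroid α, M'.IsMinor M ∧ Iso M' N

/-- `M` is a uniform matroid of rank 2 on `k` elements. -/
def IsU2 (k : ℕ) {α : Type} (M : Matroid α) : Prop :=
  M.E.ncard = k ∧ ∀ I ⊆ M.E, M.Indep I ↔ I.ncard ≤ 2

/-! ### Configurations -/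

/-- A spanning vector configuration `f` with a circuit-hyperplane `K`. -/
structure CH (F : Type) [Field F] {α V : Type} [AddCommGroup V] [Module F V] (f : α → V)
    (K : Set α) : Prop where
  card : K.ncard = Module.finrank F V
  ind : ∀ e ∈ K, LinearIndepOn F f (K \ {e})
  flat : ∀ g ∉ K, f g ∉ Submodule.span F (f '' K)

/-- The space containing the representation of `N`. -/
abbrev WW (F : Type) (r : ℕ) : Type := (Fin r → F) × F

/-- The space containing the large configuration. -/
abbrev VV (F : Type) (r m : ℕ) : Type := (Fin (2 * m) → F) × WW F r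

/-- The elements of `N`. -/
abbrev EN (F : Type) (r : ℕ) : Type := Option (Fin r) ⊕ (Fin r → F)

/-- The elements of the large configuration: first summand the path elements `c_i`, `e_j`,
second summand the elements of `N`. -/
abbrev GG (F : Type) (r m : ℕ) : Type := (Fin (2 * m) ⊕ Fin (2 * m)) ⊕ EN F r

section
variable {F : Type} [Field F] {r m : ℕ}

/-- The vectors of `N`. -/
def vecN : EN F r → WW F r
  | .inl (some i) => (Pi.single i 1, 0)
  | .inl none => (fun _ => 1, 0)
  | .inr h => (h, 1)

/-- The path vertices: `dl 0 = 0` and `dl (j + 1)` is the `j`-th unit vector. -/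
def dl (k : ℕ) : Fin (2 * m) → F := fun i => if i.val + 1 = k then 1 else 0

/-- The vector `w_0`. -/
def w0 : WW F r := (fun i => if i.val = 0 then 1 else 0, 0)

/-- The vector `w_1`. -/
def w1 : WW F r := (fun _ => 0, -1)

/-- `w_1` at even places, `w_0` at odd places. -/
def wj (j : ℕ) : WW F r := if Even j then w1 else w0

/-- The set of the unit vectors. -/
def SS : Set (Fin r → F) := {h | ∃ i, h = Pi.single i 1}

open scoped Classical in
/-- The vectors of the large configuration. -/
noncomputable def ff : GG F r m → VV F r m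
  | .inl (.inl i) => (dl (i.val + 1) - dl i.val, 0)
  | .inl (.inr j) => (dl (j.val + 1), wj j.val)
  | .inr (.inl (some i)) => (0, (Pi.single i 1, 0))
  | .inr (.inl none) => (fun j => (-1) ^ (j.val + 1), (fun _ => 1, 0))
  | .inr (.inr h) => (if h ∈ SS then dl (2 * m) else 0, (h, 1))

/-- The circuit-hyperplane. -/
def KK : Set (GG F r m) := fun g =>
  match g with
  | .inl (.inl _) => False
  | .inl (.inr _) => True
  | .inr (.inl _) => True
  | .inr (.inr _) => False

end

/-- An embedding `ι` of the elements of `N` with contraction set `X` which makes `N` a minor of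
the relaxed matroid. -/
structure Emb (F : Type) [Field F] {r m : ℕ} (ι : EN F r → GG F r m) (X : Set (GG F r m)) :
    Prop where
  inj : Function.Injective ι
  disj : ∀ z, ι z ∉ X
  card : X.ncard = 2 * m
  iff : ∀ B : Set (EN F r), LinearIndepOn F (vecN : EN F r → WW F r) B ↔
    (LinearIndepOn F (ff : GG F r m → VV F r m) (ι '' B ∪ X) ∨ ι '' B ∪ X ⊆ KK)

/-- The same for the unrelaxed configuration. -/
structure LEmb (F : Type) [Field F] {r m : ℕ} (ι : EN F r → GG F r m) (X : Set (GG F r m)) :
    Prop where
  inj : Function.Injective ι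
  disj : ∀ z, ι z ∉ X
  card : X.ncard = 2 * m
  iff : ∀ B : Set (EN F r), LinearIndepOn F (vecN : EN F r → WW F r) B ↔
    LinearIndepOn F (ff : GG F r m → VV F r m) (ι '' B ∪ X)

end Pool.Agent.MP8f11b1
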