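import Pool.Agent.Lib.MP_8f11b1_co_RX.CntA

set_option autoImplicit false

namespace Pool.Agent.MP8f11b1

variable {F : Type} [Field F] {r : ℕ}

theorem exch [Finite F] (hr : 3 ≤ r) (B : Set (EN F r))
    (hB : LinearIndepOn F (vecN : EN F r → WW F r) B) (hc : B.ncard = r + 1) :
    ∃ b ∈ B, ∃ z ∉ B, ¬ LinearIndepOn F (vecN : EN F r → WW F r) (insert z (B \ {b})) := by
  have hfE : Finite (EN F r) := by
    unfold EN
    infer_instance
  have hfin : Module.finrank F (WW F r) = r + 1 := by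
    simp [WW, Module.finrank_prod]
  have hne : B.Nonempty := by
    rw [Set.nonempty_iff_ne_empty]
    rintro rfl
    simp at hc
  obtain ⟨b, hb⟩ := hne
  have hB' : LinearIndepOn F (vecN : EN F r → WW F r) (B \ {b}) := hB.mono Set.sdiff_subset
  have hc' : (B \ {b}).ncard = r := by
    rw [Set.ncard_sdiff_singleton_of_mem hb, hc]
    rfl
  have hS : Submodule.span F ((vecN : EN F r → WW F r) '' (B \ {b})) ≠ ⊤ := by
    intro htop
    have h1 := lin_finrank_span (vecN : EN F r → WW F r) hB' (Set.toFinite _)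
    rw [htop, finrank_top, hfin, hc'] at h1
    omega
  obtain ⟨θ, hθ, hθS⟩ := lin_dual _ hS
  have hcount := hyp_count hr θ hθ
  have hex : ∃ z, θ (vecN z) = 0 ∧ z ∉ B \ {b} := by
    by_contra hcon
    push Not at hcon
    have h2 : {z : EN F r | θ (vecN z) = 0}.ncard ≤ (B \ {b}).ncard :=
      Set.ncard_le_ncard (fun z hz => hcon z hz) (Set.toFinite _)
    omega
  obtain ⟨z, hz0, hz⟩ := hex
  have key : ∀ J : Set (EN F r), LinearIndepOn F (vecN : EN F r → WW F r) J →
      J.ncard = r + 1 → (∀ j ∈ J, θ (vecN j) = 0) → False := by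
    intro J hJ hJc hJ0
    have h3 := lin_span_top (vecN : EN F r → WW F r) hJ (by rw [hJc, hfin])
    apply hθ
    have h4 : Submodule.span F ((vecN : EN F r → WW F r) '' J) ≤ LinearMap.ker θ := by
      rw [Submodule.span_le]
      rintro _ ⟨j, hj, rfl⟩
      exact LinearMap.mem_ker.2 (hJ0 j hj)
    rw [h3, top_le_iff] at h4
    exact LinearMap.ker_eq_top.1 h4
  have hB0 : ∀ j ∈ B \ {b}, θ (vecN j) = 0 := fun j hj =>
    hθS _ (Submodule.subset_span ⟨j, hj, rfl⟩)
  have hzb : z ≠ b := by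
    rintro rfl
    refine key B hB hc fun j hj => ?_
    by_cases h : j = z
    · rw [h]
      exact hz0
    · exact hB0 j ⟨hj, h⟩
  refine ⟨b, hb, z, fun h => hz ⟨h, hzb⟩, fun hcon => ?_⟩
  refine key _ hcon ?_ ?_
  · rw [Set.ncard_insert_of_notMem hz (Set.toFinite _), hc']
  · rintro j (rfl | hj)
    · exact hz0
    · exact hB0 j hj

end Pool.Agent.MP8f11b1
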