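import Pool.Agent.Lib.MP_8f11b1_co_RX.Lin

set_option autoImplicit false

namespace Pool.Agent.MP8f11b1

variable {F Q : Type} [Field F] [AddCommGroup Q] [Module F Q] {r m : ℕ}

open scoped Classical in
private noncomputable def sg (F : Type) [Field F] {Vt : Type} : Option Vt → (Vt → F)
  | none => 0
  | some v => Pi.single v 1

open scoped Classical in
private noncomputable def chi {Vt R : Type} [Fintype Vt] (q : Option Vt → R) (T : Set R) :
    (Vt → F) →ₗ[F] (T → F) where
  toFun y := fun t => ∑ v, if q (some v) = t then y v else 0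
  map_add' y z := by
    funext t
    simp only [Pi.add_apply]
    rw [← Finset.sum_add_distrib]
    refine Finset.sum_congr rfl fun v _ => ?_
    split_ifs <;> simp
  map_smul' a y := by
    funext t
    simp only [Pi.smul_apply, smul_eq_mul, RingHom.id_apply, Finset.mul_sum]
    refine Finset.sum_congr rfl fun v _ => ?_
    split_ifs <;> simp

open scoped Classical in
private theorem chi_sg {Vt R : Type} [Fintype Vt] (q : Option Vt → R) (T : Set R)
    (hT : q none ∉ T) (o : Option Vt) (t : T) :
    chi (F := F) q T (sg F o) t = if q o = t then 1 else 0 := by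
  rcases o with _ | v
  · have : q none ≠ t := fun h => hT (h ▸ t.2)
    simp [sg, this]
  · simp only [chi, sg, LinearMap.coe_mk, AddHom.coe_mk]
    rw [Finset.sum_eq_single v]
    · simp
    · intro b _ hb
      simp [Pi.single_apply, hb]
    · intro h
      exact absurd (Finset.mem_univ v) h

private theorem graph_aux {Vt α : Type} [Fintype Vt] (q : Option Vt → Q)
    (hq : q none = 0) (hd tl : α → Option Vt) (I : Set α)
    (hI : LinearIndepOn F (fun c => sg F (hd c) - sg F (tl c)) I)
    (h : ∀ c ∈ I, q (hd c) = q (tl c)) :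
    I.ncard + (Set.range q \ {0}).ncard ≤ Fintype.card Vt := by
  classical
  set T : Set Q := Set.range q \ {0} with hTdef
  have hTfin : T.Finite := Set.toFinite _
  have hT0 : q none ∉ T := by
    rw [hq]
    exact fun h => h.2 rfl
  have : Fintype T := hTfin.fintype
  have hsurj : Function.Surjective (chi (F := F) q T) := by
    intro g
    have hs : ∀ t : T, ∃ v : Vt, q (some v) = t := by
      rintro ⟨t, ⟨o, rfl⟩, h2⟩
      rcases o with _ | v
      · exact absurd hq h2
      · exact ⟨v, rfl⟩
    choose s hs using hs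
    refine ⟨∑ t : T, g t • sg F (some (s t)), ?_⟩
    rw [map_sum]
    funext t
    rw [Finset.sum_apply, Finset.sum_eq_single t]
    · rw [map_smul, Pi.smul_apply, chi_sg q T hT0, if_pos (hs t)]
      simp
    · intro b _ hb
      rw [map_smul, Pi.smul_apply, chi_sg q T hT0, hs b, if_neg (fun h => hb (Subtype.ext h))]
      simp
    · intro h
      exact absurd (Finset.mem_univ t) h
  have hle : Submodule.span F ((fun c => sg F (hd c) - sg F (tl c)) '' I) ≤
      LinearMap.ker (chi (F := F) q T) := by
    rw [Submodule.span_le]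
    rintro _ ⟨c, hc, rfl⟩
    rw [SetLike.mem_coe, LinearMap.mem_ker]
    funext t
    rw [map_sub, Pi.sub_apply, chi_sg q T hT0, chi_sg q T hT0, h c hc]
    simp
  have hfin := (lin_ncard_le _ hI).1
  have h1 := Submodule.finrank_mono hle
  rw [lin_finrank_span _ hI hfin] at h1
  have h2 := LinearMap.finrank_range_add_finrank_ker (chi (F := F) q T)
  rw [LinearMap.range_eq_top.2 hsurj, finrank_top, Module.finrank_fintype_fun_eq_card,
    Module.finrank_fintype_fun_eq_card, ← Nat.card_eq_fintype_card, Nat.card_coe_set_eq] at h2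
  omega

private abbrev Vt (m : ℕ) : Type := Fin (2 * m) ⊕ Bool

private noncomputable def PP : (Vt m → F) →ₗ[F] VV F r m where
  toFun y := (fun j => y (.inl j), -(y (.inr true) • w0 + y (.inr false) • w1))
  map_add' y z := by
    refine Prod.ext (by funext j; simp) ?_
    simp only [Prod.snd_add, Pi.add_apply, add_smul]
    abel
  map_smul' a y := by
    refine Prod.ext (by funext j; simp) ?_
    simp only [Prod.smul_snd, Pi.smul_apply, RingHom.id_apply, smul_neg, smul_add, smul_smul,
      smul_eq_mul]

private theorem PP_inl (j : Fin (2 * m)) :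
    PP (r := r) (sg F (some (.inl j : Vt m))) = (dl (j.val + 1), 0) := by
  refine Prod.ext ?_ ?_
  · funext i
    simp [PP, sg, dl, Pi.single_apply, Fin.ext_iff]
  · simp [PP, sg, Pi.single_apply]

private theorem PP_true : PP (r := r) (sg F (some (.inr true : Vt m))) = (0, -w0) := by
  refine Prod.ext ?_ ?_
  · funext i
    simp [PP, sg, Pi.single_apply]
  · simp [PP, sg, Pi.single_apply]

private theorem PP_false : PP (r := r) (sg F (some (.inr false : Vt m))) = (0, -w1) := by
  refine Prod.ext ?_ ?_
  · funext i
    simp [PP, sg, Pi.single_apply]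
  · simp [PP, sg, Pi.single_apply]

private def hdv : Fin (2 * m) ⊕ Fin (2 * m) → Option (Vt m)
  | .inl i => some (.inl i)
  | .inr j => some (.inl j)

private def tlv : Fin (2 * m) ⊕ Fin (2 * m) → Option (Vt m)
  | .inl i => if i.val = 0 then none else some (.inl ⟨i.val - 1, by omega⟩)
  | .inr j => if Even j.val then some (.inr false) else some (.inr true)

private theorem ff_eq (c : Fin (2 * m) ⊕ Fin (2 * m)) :
    (ff (Sum.inl c : GG F r m) : VV F r m) = PP (sg F (hdv c) - sg F (tlv c)) := by
  rw [map_sub]
  rcases c with i | j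
  · simp only [hdv, tlv, ff, PP_inl]
    by_cases h : i.val = 0
    · rw [if_pos h]
      have : (dl i.val : Fin (2 * m) → F) = 0 := by
        funext k
        simp [dl, h]
      rw [this]
      simp [sg]
    · rw [if_neg h, PP_inl]
      have : i.val - 1 + 1 = i.val := by omega
      simp only [this]
      simp
  · simp only [hdv, tlv, ff, PP_inl, wj]
    by_cases h : Even j.val
    · rw [if_pos h, if_pos h, PP_false]
      simp
    · rw [if_neg h, if_neg h, PP_true]
      simp

theorem pot [Finite F] (hr : 1 ≤ r) (L : VV F r m →ₗ[F] Q) (X : Set (GG F r m))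
    (hX : LinearIndepOn F (ff : GG F r m → VV F r m) X) (h0 : ∀ x ∈ X, L (ff x) = 0)
    (hc : X.ncard = 2 * m) :
    (Set.range fun c : Fin (2 * m) ⊕ Fin (2 * m) => L (ff (Sum.inl c))).ncard ≤
      ((X \ Set.range Sum.inl).ncard + 3) ^ 2 := by
  classical
  have _ := hr
  have hXf : X.Finite := (lin_ncard_le _ hX).1
  set q : Option (Vt m) → Q := fun o => L (PP (sg F o)) with hq
  have hLq : ∀ c : Fin (2 * m) ⊕ Fin (2 * m),
      L (ff (Sum.inl c : GG F r m)) = q (hdv c) - q (tlv c) := by
    intro c
    rw [ff_eq, map_sub, map_sub]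
  set I : Set (Fin (2 * m) ⊕ Fin (2 * m)) := {c | (Sum.inl c : GG F r m) ∈ X} with hIdef
  have hI1 : LinearIndepOn F
      (fun c : Fin (2 * m) ⊕ Fin (2 * m) => (ff (Sum.inl c : GG F r m) : VV F r m)) I := by
    have := LinearIndependent.comp hX
      (fun c : I => (⟨(Sum.inl c.1 : GG F r m), c.2⟩ : X))
      (by
        intro a b hab
        have h1 := congrArg Subtype.val hab
        exact Subtype.ext (Sum.inl_injective h1))
    exact this
  have hI : LinearIndepOn F
      (fun c : Fin (2 * m) ⊕ Fin (2 * m) => sg F (hdv c) - sg F (tlv c)) I := by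
    refine LinearIndependent.of_comp (PP (F := F) (r := r) (m := m)) ?_
    have h2 : (⇑(PP (F := F) (r := r) (m := m)) ∘
        fun c : I => sg F (hdv c.1) - sg F (tlv c.1)) =
        fun c : I => (ff (Sum.inl c.1 : GG F r m) : VV F r m) := by
      funext c
      exact (ff_eq c.1).symm
    rw [h2]
    exact hI1
  have hg := graph_aux (F := F) q (by simp [hq, sg]) hdv tlv I hI (by
    intro c hc
    have := h0 _ hc
    rw [hLq c] at this
    exact sub_eq_zero.1 this)
  have hcI : I.ncard = (X ∩ Set.range Sum.inl).ncard := by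
    rw [← Set.image_preimage_eq_inter_range,
      Set.ncard_image_of_injective _ Sum.inl_injective]
    rfl
  have hsum := Set.ncard_inter_add_ncard_diff_eq_ncard X (Set.range Sum.inl) hXf
  have hVt : Fintype.card (Vt m) = 2 * m + 2 := by simp
  have hT : (Set.range q).ncard ≤ (X \ Set.range Sum.inl).ncard + 3 := by
    have h1 : (Set.range q).ncard ≤ (Set.range q \ {0}).ncard + 1 := by
      have := Set.ncard_le_ncard_diff_add_ncard (Set.range q) {0} (Set.toFinite _)
      rw [Set.ncard_singleton] at this
      exact this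
    omega
  have hsub : (Set.range fun c : Fin (2 * m) ⊕ Fin (2 * m) => L (ff (Sum.inl c : GG F r m))) ⊆
      (fun z : Q × Q => z.1 - z.2) '' (Set.range q ×ˢ Set.range q) := by
    rintro _ ⟨c, rfl⟩
    exact ⟨(q (hdv c), q (tlv c)), ⟨⟨_, rfl⟩, ⟨_, rfl⟩⟩, (hLq c).symm⟩
  have hfinq : (Set.range q).Finite := Set.toFinite _
  calc (Set.range fun c : Fin (2 * m) ⊕ Fin (2 * m) => L (ff (Sum.inl c : GG F r m))).ncard
      ≤ ((fun z : Q × Q => z.1 - z.2) '' (Set.range q ×ˢ Set.range q)).ncard :=
        Set.ncard_le_ncard hsub ((hfinq.prod hfinq).image _)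
    _ ≤ (Set.range q ×ˢ Set.range q).ncard := Set.ncard_image_le (hfinq.prod hfinq)
    _ = (Set.range q).ncard ^ 2 := by rw [Set.ncard_prod, sq]
    _ ≤ _ := Nat.pow_le_pow_left hT 2

private noncomputable def TT : (F × F × WW F r) →ₗ[F] VV F r m :=
  LinearMap.prod
    (LinearMap.coprod ((LinearMap.id : F →ₗ[F] F).smulRight (dl (2 * m)))
      (LinearMap.coprod ((LinearMap.id : F →ₗ[F] F).smulRight
        (fun j : Fin (2 * m) => (-1 : F) ^ (j.val + 1))) 0))
    ((LinearMap.snd F F (WW F r)).comp (LinearMap.snd F F (F × WW F r)))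

open scoped Classical in
private noncomputable def gg : GG F r m → F × F × WW F r
  | .inl _ => 0
  | .inr (.inl (some i)) => (0, 0, (Pi.single i 1, 0))
  | .inr (.inl none) => (0, 1, (fun _ => 1, 0))
  | .inr (.inr h) => (if h ∈ SS then 1 else 0, 0, (h, 1))

theorem card_other_le [Finite F] (X : Set (GG F r m))
    (hX : LinearIndepOn F (ff : GG F r m → VV F r m) X) :
    (X \ Set.range Sum.inl).ncard ≤ r + 3 := by
  classical
  have hY : LinearIndepOn F (ff : GG F r m → VV F r m) (X \ Set.range Sum.inl) :=
    hX.mono Set.diff_subset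
  have hg : LinearIndepOn F (gg : GG F r m → F × F × WW F r) (X \ Set.range Sum.inl) := by
    refine LinearIndependent.of_comp (TT (F := F) (r := r) (m := m)) ?_
    have h2 : (⇑(TT (F := F) (r := r) (m := m)) ∘
        fun c : ↥(X \ Set.range Sum.inl) => (gg c.1 : F × F × WW F r)) =
        fun c : ↥(X \ Set.range Sum.inl) => (ff c.1 : VV F r m) := by
      funext ⟨c, hc⟩
      rcases c with c | c | c
      · exact absurd ⟨c, rfl⟩ hc.2
      · rcases c with _ | i
        · simp [TT, gg, ff]
        · simp [TT, gg, ff]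
      · by_cases h : c ∈ SS
        · simp [TT, gg, ff, h]
        · simp [TT, gg, ff, h]
    rw [h2]
    exact hY
  have h3 := (lin_ncard_le _ hg).2
  have h4 : Module.finrank F (F × F × WW F r) = r + 3 := by
    simp [Module.finrank_prod]
    omega
  omega

end Pool.Agent.MP8f11b1
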