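import Pool.Agent.Lib.MP_8f11b1_co_RX.CntB
import Pool.Agent.Lib.MP_8f11b1_co_RX.Pot

set_option autoImplicit false

namespace Pool.Agent.MP8f11b1

variable {F : Type} [Field F] {r m : ℕ}

private theorem S1_arith {r : ℕ} (hr : 10 ≤ r) : (r + 6) ^ 2 + 1 + r < 2 ^ (r - 1) := by
  induction r, hr using Nat.le_induction with
  | base => norm_num
  | succ n hn ih =>
    obtain ⟨k, rfl⟩ : ∃ k, n = k + 1 := ⟨n - 1, by omega⟩
    simp only [Nat.add_sub_cancel] at ih ⊢
    rw [pow_succ 2 k]
    nlinarith

private theorem S1_SS (F : Type) [Field F] (r : ℕ) : (SS : Set (Fin r → F)).ncard ≤ r := by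
  have h : (SS : Set (Fin r → F)) = Set.range (fun i : Fin r => (Pi.single i 1 : Fin r → F)) := by
    ext h
    constructor
    · rintro ⟨i, hi⟩
      exact ⟨i, hi.symm⟩
    · rintro ⟨i, hi⟩
      exact ⟨i, hi.symm⟩
  rw [h, ← Set.image_univ]
  refine (Set.ncard_image_le (Set.toFinite _)).trans ?_
  rw [Set.ncard_univ, Nat.card_eq_fintype_card, Fintype.card_fin]

theorem stage_one [Finite F] (hr : 10 ≤ r) {ι : EN F r → GG F r m} {X : Set (GG F r m)}
    (h : LEmb F ι X) :
    ∃ π : VV F r m →ₗ[F] WW F r, (∀ w, π (0, w) = w) ∧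
      LinearMap.ker π = Submodule.span F ((ff : GG F r m → VV F r m) '' X) := by
  classical
  have hX : LinearIndepOn F (ff : GG F r m → VV F r m) X := by
    have h1 := (h.iff ∅).1 (linearIndepOn_empty F _)
    rwa [Set.image_empty, Set.empty_union] at h1
  set S := Submodule.span F ((ff : GG F r m → VV F r m) '' X) with hS
  have hSf : Module.finrank F S = 2 * m := by
    rw [hS, lin_finrank_span _ hX (Set.toFinite X), h.card]
  have hVf : Module.finrank F (VV F r m) = 2 * m + (r + 1) := by
    rw [Module.finrank_prod, Module.finrank_prod, Module.finrank_fin_fun, Module.finrank_fin_fun,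
      Module.finrank_self]
  have hWf : Module.finrank F (WW F r) = r + 1 := by
    rw [Module.finrank_prod, Module.finrank_fin_fun, Module.finrank_self]
  have hQf : Module.finrank F (VV F r m ⧸ S) = r + 1 := by
    have := Submodule.finrank_quotient_add_finrank S
    omega
  set q : VV F r m →ₗ[F] (VV F r m ⧸ S) := S.mkQ with hq
  have hkq : LinearMap.ker q = S := Submodule.ker_mkQ S
  have hg : ∀ B : Set (EN F r), LinearIndepOn F (vecN : EN F r → WW F r) B ↔
      LinearIndepOn F (fun z => q (ff (ι z))) B := by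
    intro B
    have hd : Disjoint (ι '' B) X := by
      rw [Set.disjoint_left]
      rintro _ ⟨z, _, rfl⟩ hz
      exact h.disj z hz
    rw [h.iff B, lin_union_iff ff hX hd q hkq]
    constructor
    · intro h1
      exact h1.comp_of_image (h.inj.injOn)
    · intro h1
      exact LinearIndepOn.image_of_comp ι (fun z => q (ff z)) h1
  -- the claim
  have hsurj : LinearMap.range (q ∘ₗ LinearMap.inr F (Fin (2 * m) → F) (WW F r)) = ⊤ := by
    by_contra hne
    obtain ⟨θ, hθ0, hθ⟩ := lin_dual _ hne
    have hθ' : ∀ w : WW F r, θ (q (0, w)) = 0 := fun w => hθ _ ⟨w, rfl⟩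
    have hcount := g_count (by omega) hQf (fun z => q (ff (ι z))) hg θ hθ0
    have hsub : {z : EN F r | θ (q (ff (ι z))) ≠ 0} ⊆
        ({z | ∃ c, ι z = Sum.inl c} ∪ {z | ι z = Sum.inr (Sum.inl none)}) ∪
          {z | ∃ k ∈ (SS : Set (Fin r → F)), ι z = Sum.inr (Sum.inr k)} := by
      intro z hz
      rcases hι : ι z with c | ((_ | i) | k)
      · exact Or.inl (Or.inl ⟨c, hι⟩)
      · exact Or.inl (Or.inr hι)
      · exfalso
        apply hz
        rw [hι]
        exact hθ' _
      · by_cases hk : k ∈ (SS : Set (Fin r → F))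
        · exact Or.inr ⟨k, hk, hι⟩
        · exfalso
          apply hz
          rw [hι]
          have : (ff (Sum.inr (Sum.inr k) : GG F r m) : VV F r m) = (0, (k, 1)) := by
            simp only [ff]
            rw [if_neg hk]
          rw [this]
          exact hθ' _
    have hA : {z : EN F r | ∃ c, ι z = Sum.inl c}.ncard ≤ (r + 6) ^ 2 := by
      have h1 : {z : EN F r | ∃ c, ι z = Sum.inl c}.ncard ≤
          (Set.range fun c : Fin (2 * m) ⊕ Fin (2 * m) =>
            q (ff (Sum.inl c : GG F r m))).ncard := by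
        refine Set.ncard_le_ncard_of_injOn (fun z => q (ff (ι z))) ?_ ?_ (Set.toFinite _)
        · rintro z ⟨c, hc⟩
          exact ⟨c, by simp only [hc]⟩
        · intro z _ z' _ hzz
          refine g_inj (c := 1) (by omega) _ hg ?_
          rw [one_smul]
          exact hzz
      have h2 := pot (by omega) q X hX (fun x hx => by
        have : ff x ∈ LinearMap.ker q := by
          rw [hkq]
          exact Submodule.subset_span ⟨x, hx, rfl⟩
        exact this) h.card
      have h3 := card_other_le X hX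
      refine (h1.trans h2).trans ?_
      exact Nat.pow_le_pow_left (by omega) 2
    have hB : {z : EN F r | ι z = Sum.inr (Sum.inl none)}.ncard ≤ 1 := by
      rw [← Set.ncard_singleton (Sum.inr (Sum.inl none) : GG F r m)]
      exact Set.ncard_le_ncard_of_injOn ι (fun z hz => hz) h.inj.injOn (Set.toFinite _)
    have hC : {z : EN F r | ∃ k ∈ (SS : Set (Fin r → F)), ι z = Sum.inr (Sum.inr k)}.ncard ≤ r := by
      have h1 : {z : EN F r | ∃ k ∈ (SS : Set (Fin r → F)), ι z = Sum.inr (Sum.inr k)}.ncard ≤
          ((fun k : Fin r → F => (Sum.inr (Sum.inr k) : GG F r m)) '' SS).ncard := by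
        refine Set.ncard_le_ncard_of_injOn ι ?_ h.inj.injOn (Set.toFinite _)
        rintro z ⟨k, hk, hz⟩
        exact ⟨k, hk, hz.symm⟩
      exact h1.trans ((Set.ncard_image_le (Set.toFinite _)).trans (S1_SS F r))
    have hall := (Set.ncard_le_ncard hsub (Set.toFinite _)).trans (Set.ncard_union_le _ _)
    have hAB := Set.ncard_union_le {z : EN F r | ∃ c, ι z = Sum.inl c}
      {z : EN F r | ι z = Sum.inr (Sum.inl none)}
    have hfin := S1_arith hr
    have hcount' : 2 ^ (r - 1) ≤ {z : EN F r | θ (q (ff (ι z))) ≠ 0}.ncard := hcount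
    omega
  have hsurj' : Function.Surjective (q ∘ₗ LinearMap.inr F (Fin (2 * m) → F) (WW F r)) :=
    LinearMap.range_eq_top.1 hsurj
  have hinj' : Function.Injective (q ∘ₗ LinearMap.inr F (Fin (2 * m) → F) (WW F r)) :=
    (LinearMap.injective_iff_surjective_of_finrank_eq_finrank (by rw [hWf, hQf])).2 hsurj'
  set e := LinearEquiv.ofBijective (q ∘ₗ LinearMap.inr F (Fin (2 * m) → F) (WW F r))
    ⟨hinj', hsurj'⟩ with he
  refine ⟨e.symm.toLinearMap ∘ₗ q, ?_, ?_⟩
  · intro w
    have h1 : q (0, w) = e w := rfl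
    rw [LinearMap.comp_apply, h1]
    exact e.symm_apply_apply w
  · rw [LinearEquiv.ker_comp, hkq]

end Pool.Agent.MP8f11b1
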