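import Pool.Agent.Lib.MP_8f11b1_co_RX.CntC
import Pool.Agent.Lib.MP_8f11b1_co_RX.Pot

set_option autoImplicit false

namespace Pool.Agent.MP8f11b1

variable {F : Type} [Field F] {r m : ℕ}

private theorem S2_ncard_SS (F : Type) [Field F] (r : ℕ) : (SS : Set (Fin r → F)).ncard ≤ r := by
  have h : (SS : Set (Fin r → F)) = Set.range (fun i : Fin r => (Pi.single i 1 : Fin r → F)) := by
    ext h
    constructor
    · rintro ⟨i, hi⟩
      exact ⟨i, hi.symm⟩
    · rintro ⟨i, hi⟩
      exact ⟨i, hi.symm⟩
  rw [h, ← Set.image_univ]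
  refine (Set.ncard_image_le (Set.toFinite _)).trans ?_
  rw [Set.ncard_univ, Nat.card_eq_fintype_card, Fintype.card_fin]

private theorem S2_ff_SS {h : Fin r → F} (hh : h ∈ (SS : Set (Fin r → F))) :
    (ff (Sum.inr (Sum.inr h) : GG F r m) : VV F r m) = (dl (2 * m), (h, 1)) := by
  simp only [ff]
  rw [if_pos hh]

private theorem S2_ff_nSS {h : Fin r → F} (hh : h ∉ (SS : Set (Fin r → F))) :
    (ff (Sum.inr (Sum.inr h) : GG F r m) : VV F r m) = (0, (h, 1)) := by
  simp only [ff]
  rw [if_neg hh]

private theorem S2_pi_split (π : VV F r m →ₗ[F] WW F r) (hπ : ∀ w, π (0, w) = w)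
    (u : Fin (2 * m) → F) (w : WW F r) : π (u, w) = π (u, 0) + w := by
  have h1 : ((u, w) : VV F r m) = (u, 0) + (0, w) := by
    simp
  rw [h1, map_add, hπ]

/-- few elements outside the path part -/
theorem other_le_two [Finite F] {X : Set (GG F r m)} (hr : 1 ≤ r)
    {π : VV F r m →ₗ[F] WW F r} (hπ : ∀ w, π (0, w) = w) (h0 : ∀ x ∈ X, π (ff x) = 0) :
    (X \ Set.range Sum.inl).ncard ≤ 2 := by
  have _ := hr
  -- the elements outside the path part
  have key : ∀ x ∈ X \ Set.range Sum.inl, x = Sum.inr (Sum.inl none) ∨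
      ∃ h ∈ (SS : Set (Fin r → F)), x = Sum.inr (Sum.inr h) := by
    rintro x ⟨hx, hn⟩
    rcases x with c | ((_ | i) | h)
    · exact absurd ⟨c, rfl⟩ hn
    · exact Or.inl rfl
    · exfalso
      have h1 := h0 _ hx
      simp only [ff] at h1
      rw [hπ] at h1
      have h2 := congrFun (congrArg Prod.fst h1) i
      simp at h2
    · by_cases hh : h ∈ (SS : Set (Fin r → F))
      · exact Or.inr ⟨h, hh, rfl⟩
      · exfalso
        have h1 := h0 _ hx
        rw [S2_ff_nSS hh, hπ] at h1
        have h2 := congrArg Prod.snd h1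
        simp at h2
  have uniq : ∀ h ∈ (SS : Set (Fin r → F)), ∀ h' ∈ (SS : Set (Fin r → F)),
      (Sum.inr (Sum.inr h) : GG F r m) ∈ X → (Sum.inr (Sum.inr h') : GG F r m) ∈ X → h = h' := by
    intro h hh h' hh' hx hx'
    have h1 := h0 _ hx
    have h2 := h0 _ hx'
    rw [S2_ff_SS hh, S2_pi_split π hπ] at h1
    rw [S2_ff_SS hh', S2_pi_split π hπ] at h2
    have h3 : ((h, 1) : WW F r) = (h', 1) := by
      have := h1.trans h2.symm
      exact add_left_cancel this
    exact congrArg Prod.fst h3
  by_cases hex : ∃ h ∈ (SS : Set (Fin r → F)), (Sum.inr (Sum.inr h) : GG F r m) ∈ X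
  · obtain ⟨h, hh, hx⟩ := hex
    have hsub : X \ Set.range Sum.inl ⊆
        {(Sum.inr (Sum.inl none) : GG F r m), Sum.inr (Sum.inr h)} := by
      intro x hxx
      rcases key x hxx with h1 | ⟨h', hh', h1⟩
      · exact Or.inl h1
      · right
        rw [h1] at hxx
        rw [Set.mem_singleton_iff, h1, uniq h hh h' hh' hx hxx.1]
    refine (Set.ncard_le_ncard hsub (Set.toFinite _)).trans ?_
    refine (Set.ncard_insert_le _ _).trans ?_
    rw [Set.ncard_singleton]
  · have hsub : X \ Set.range Sum.inl ⊆ {(Sum.inr (Sum.inl none) : GG F r m)} := by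
      intro x hxx
      rcases key x hxx with h1 | ⟨h', hh', h1⟩
      · exact h1
      · exfalso
        rw [h1] at hxx
        exact hex ⟨h', hh', hxx.1⟩
    refine (Set.ncard_le_ncard hsub (Set.toFinite _)).trans ?_
    rw [Set.ncard_singleton]
    norm_num

private theorem S2_arith {r : ℕ} (hr : 7 ≤ r) : 26 + 2 * r < 2 ^ (r - 1) := by
  induction r, hr using Nat.le_induction with
  | base => norm_num
  | succ n hn ih =>
    obtain ⟨k, rfl⟩ : ∃ k, n = k + 1 := ⟨n - 1, by omega⟩
    simp only [Nat.add_sub_cancel] at ih ⊢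
    rw [pow_succ 2 k]
    omega

/-- the elements of `N` at infinity are mapped to infinity -/
theorem cover [Finite F] (hr : 7 ≤ r) {ι : EN F r → GG F r m} {X : Set (GG F r m)}
    (h : LEmb F ι X) {π : VV F r m →ₗ[F] WW F r} (hπ : ∀ w, π (0, w) = w)
    (hk : LinearMap.ker π = Submodule.span F ((ff : GG F r m → VV F r m) '' X)) :
    ∀ v : Fin r → F, ∃ (v' : Fin r → F) (c : F), c ≠ 0 ∧ π (ff (ι (Sum.inr v'))) = c • (v, 1) := by
  classical
  have hX : LinearIndepOn F (ff : GG F r m → VV F r m) X := by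
    have h1 := (h.iff ∅).1 (linearIndepOn_empty F _)
    rwa [Set.image_empty, Set.empty_union] at h1
  have hX0 : ∀ x ∈ X, π (ff x) = 0 := fun x hx => by
    have : ff x ∈ LinearMap.ker π := by
      rw [hk]
      exact Submodule.subset_span ⟨x, hx, rfl⟩
    exact this
  have hWf : Module.finrank F (WW F r) = r + 1 := by
    rw [Module.finrank_prod, Module.finrank_fin_fun, Module.finrank_self]
  set g : EN F r → WW F r := fun z => π (ff (ι z)) with hgdef
  have hg : ∀ B : Set (EN F r), LinearIndepOn F (vecN : EN F r → WW F r) B ↔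
      LinearIndepOn F g B := by
    intro B
    have hd : Disjoint (ι '' B) X := by
      rw [Set.disjoint_left]
      rintro _ ⟨z, _, rfl⟩ hz
      exact h.disj z hz
    rw [h.iff B, lin_union_iff ff hX hd π hk]
    constructor
    · intro h1
      exact h1.comp_of_image (h.inj.injOn)
    · intro h1
      exact LinearIndepOn.image_of_comp ι (fun z => π (ff z)) h1
  obtain ⟨η, hη0, hη⟩ := g_eta (by omega) hWf g hg
  have hcov := g_cover (by omega) hWf g hg η hη
  -- the claim
  have claim : ∀ v : Fin r → F, η (v, 0) = 0 := by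
    by_contra hne
    push Not at hne
    obtain ⟨v0, hv0⟩ := hne
    set th1 : (Fin r → F) →ₗ[F] F := η.comp (LinearMap.inl F (Fin r → F) F) with hth1
    have hth : th1 ≠ 0 := by
      intro h0
      apply hv0
      have := LinearMap.congr_fun h0 v0
      simpa [hth1] using this
    have hfib := fib_count th1 hth 1
    have hchoice : ∀ u : Fin r → F, th1 u = 1 → ∃ (v' : Fin r → F) (c : F), c ≠ 0 ∧
        g (Sum.inr v') = c • ((u, 0) : WW F r) := by
      intro u hu
      apply hcov
      have : η ((u, 0) : WW F r) = 1 := hu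
      rw [this]
      exact one_ne_zero
    set φ : (Fin r → F) → EN F r := fun u =>
      if hu : th1 u = 1 then Sum.inr (hchoice u hu).choose else Sum.inr 0 with hφ
    have hφ' : ∀ u, th1 u = 1 → ∃ c : F, c ≠ 0 ∧ g (φ u) = c • ((u, 0) : WW F r) := by
      intro u hu
      have h1 : φ u = Sum.inr (hchoice u hu).choose := by
        simp only [hφ]
        rw [dif_pos hu]
      rw [h1]
      exact (hchoice u hu).choose_spec
    have hcard : {u | th1 u = 1}.ncard ≤ {z : EN F r | (g z).2 = 0}.ncard := by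
      refine Set.ncard_le_ncard_of_injOn φ ?_ ?_ (Set.toFinite _)
      · intro u hu
        obtain ⟨c, _, hc⟩ := hφ' u hu
        change (g (φ u)).2 = 0
        rw [hc]
        simp
      · intro u hu u' hu' huu
        obtain ⟨c, hc0, hc⟩ := hφ' u hu
        obtain ⟨c', hc0', hc'⟩ := hφ' u' hu'
        rw [huu, hc'] at hc
        have e1 : η ((u, 0) : WW F r) = 1 := hu
        have e2 : η ((u', 0) : WW F r) = 1 := hu'
        have e3 := congrArg η hc
        rw [map_smul, map_smul, e1, e2, smul_eq_mul, smul_eq_mul, mul_one, mul_one] at e3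
        subst e3
        have e4 := congrArg Prod.fst hc
        simp only [Prod.smul_mk] at e4
        exact (smul_right_injective _ hc0' e4).symm
    have hsub : {z : EN F r | (g z).2 = 0} ⊆
        (({z | ∃ c, ι z = Sum.inl c} ∪ {z | ι z = Sum.inr (Sum.inl none)}) ∪
          {z | ∃ i, ι z = Sum.inr (Sum.inl (some i))}) ∪
          {z | ∃ k ∈ (SS : Set (Fin r → F)), ι z = Sum.inr (Sum.inr k)} := by
      intro z hz
      rcases hι : ι z with c | ((_ | i) | k)
      · exact Or.inl (Or.inl (Or.inl ⟨c, hι⟩))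
      · exact Or.inl (Or.inl (Or.inr hι))
      · exact Or.inl (Or.inr ⟨i, hι⟩)
      · by_cases hk : k ∈ (SS : Set (Fin r → F))
        · exact Or.inr ⟨k, hk, hι⟩
        · exfalso
          have hz' : (g z).2 = 0 := hz
          simp only [hgdef] at hz'
          rw [hι, S2_ff_nSS hk, hπ] at hz'
          exact one_ne_zero hz'
    have hA : {z : EN F r | ∃ c, ι z = Sum.inl c}.ncard ≤ 25 := by
      have h1 : {z : EN F r | ∃ c, ι z = Sum.inl c}.ncard ≤
          (Set.range fun c : Fin (2 * m) ⊕ Fin (2 * m) =>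
            π (ff (Sum.inl c : GG F r m))).ncard := by
        refine Set.ncard_le_ncard_of_injOn g ?_ ?_ (Set.toFinite _)
        · rintro z ⟨c, hc⟩
          exact ⟨c, by simp only [hgdef, hc]⟩
        · intro z _ z' _ hzz
          refine g_inj (c := 1) (by omega) _ hg ?_
          rw [one_smul]
          exact hzz
      have h2 := pot (by omega) π X hX hX0 h.card
      have h3 := other_le_two (by omega) hπ hX0
      refine (h1.trans h2).trans ?_
      calc ((X \ Set.range Sum.inl).ncard + 3) ^ 2 ≤ 5 ^ 2 :=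
            Nat.pow_le_pow_left (by omega) 2
        _ = 25 := by norm_num
    have hB : {z : EN F r | ι z = Sum.inr (Sum.inl none)}.ncard ≤ 1 := by
      rw [← Set.ncard_singleton (Sum.inr (Sum.inl none) : GG F r m)]
      exact Set.ncard_le_ncard_of_injOn ι (fun z hz => hz) h.inj.injOn (Set.toFinite _)
    have hB' : {z : EN F r | ∃ i, ι z = Sum.inr (Sum.inl (some i))}.ncard ≤ r := by
      have h1 : {z : EN F r | ∃ i, ι z = Sum.inr (Sum.inl (some i))}.ncard ≤
          (Set.range (fun i : Fin r => (Sum.inr (Sum.inl (some i)) : GG F r m))).ncard := by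
        refine Set.ncard_le_ncard_of_injOn ι ?_ h.inj.injOn (Set.toFinite _)
        rintro z ⟨i, hz⟩
        exact ⟨i, hz.symm⟩
      refine h1.trans ?_
      rw [← Set.image_univ]
      refine (Set.ncard_image_le (Set.toFinite _)).trans ?_
      rw [Set.ncard_univ, Nat.card_eq_fintype_card, Fintype.card_fin]
    have hC : {z : EN F r | ∃ k ∈ (SS : Set (Fin r → F)), ι z = Sum.inr (Sum.inr k)}.ncard ≤ r := by
      have h1 : {z : EN F r | ∃ k ∈ (SS : Set (Fin r → F)), ι z = Sum.inr (Sum.inr k)}.ncard ≤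
          ((fun k : Fin r → F => (Sum.inr (Sum.inr k) : GG F r m)) '' SS).ncard := by
        refine Set.ncard_le_ncard_of_injOn ι ?_ h.inj.injOn (Set.toFinite _)
        rintro z ⟨k, hk, hz⟩
        exact ⟨k, hk, hz.symm⟩
      exact h1.trans ((Set.ncard_image_le (Set.toFinite _)).trans (S2_ncard_SS F r))
    have hall := (Set.ncard_le_ncard hsub (Set.toFinite _)).trans (Set.ncard_union_le _ _)
    have h12 := Set.ncard_union_le
      ({z : EN F r | ∃ c, ι z = Sum.inl c} ∪ {z : EN F r | ι z = Sum.inr (Sum.inl none)})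
      {z : EN F r | ∃ i, ι z = Sum.inr (Sum.inl (some i))}
    have h13 := Set.ncard_union_le {z : EN F r | ∃ c, ι z = Sum.inl c}
      {z : EN F r | ι z = Sum.inr (Sum.inl none)}
    have hfin := S2_arith hr
    omega
  -- the conclusion
  have hsplit : ∀ (v : Fin r → F) (t : F), η (v, t) = t * η (0, 1) := by
    intro v t
    have h1 : ((v, t) : WW F r) = (v, 0) + t • ((0 : Fin r → F), (1 : F)) := by
      ext <;> simp
    rw [h1, map_add, claim, zero_add, map_smul, smul_eq_mul]
  have hne : η (0, 1) ≠ 0 := by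
    intro h0
    apply hη0
    refine LinearMap.ext fun p => ?_
    obtain ⟨v, t⟩ := p
    rw [hsplit, h0, mul_zero, LinearMap.zero_apply]
  intro v
  refine hcov (v, 1) ?_
  rw [hsplit, one_mul]
  exact hne

end Pool.Agent.MP8f11b1
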