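import Pool.Agent.Lib.MP_8f11b1_co_RX.Lin

set_option autoImplicit false

namespace Pool.Agent.MP8f11b1

variable {F : Type} [Field F] {r m : ℕ}

theorem stage_three (hr : 2 ≤ r) {X : Set (GG F r m)}
    {π : VV F r m →ₗ[F] WW F r} (hπ : ∀ w, π (0, w) = w)
    (hk : LinearMap.ker π = Submodule.span F ((ff : GG F r m → VV F r m) '' X))
    (hG : π (dl (2 * m), 0) = 0) (i : Fin (2 * m)) : (Sum.inl (Sum.inl i) : GG F r m) ∈ X := by
  classical
  by_contra hc
  obtain ⟨p, hp⟩ : ∃ p : ℕ → WW F r, ∀ k, p k = π (dl k, 0) := ⟨_, fun _ => rfl⟩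
  let D : ℕ → F := fun k => if i.val + 1 ≤ k ∧ k ≤ 2 * m ∧ p k = 0 then 1 else 0
  have hDdef : ∀ k, D k = if i.val + 1 ≤ k ∧ k ≤ 2 * m ∧ p k = 0 then 1 else 0 := fun _ => rfl
  have hD : ∀ k, ∑ j : Fin (2 * m), (dl k j : F) * D (j.val + 1) = D k := by
    intro k
    by_cases hk1 : 1 ≤ k ∧ k ≤ 2 * m
    · rw [Finset.sum_eq_single (⟨k - 1, by omega⟩ : Fin (2 * m))]
      · have e : k - 1 + 1 = k := by omega
        unfold dl
        rw [if_pos e, one_mul]
        show D (k - 1 + 1) = D k
        rw [e]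
      · intro j _ hj
        have h1 : ¬ (j.val + 1 = k) := fun h => hj (Fin.ext (by
          show j.val = k - 1
          omega))
        unfold dl
        rw [if_neg h1, zero_mul]
      · intro h
        exact absurd (Finset.mem_univ _) h
    · have h0 : D k = 0 := by
        rw [hDdef, if_neg]
        rintro ⟨h1, h2, -⟩
        exact hk1 ⟨by omega, h2⟩
      rw [h0]
      apply Finset.sum_eq_zero
      intro j _
      have h1 : ¬ (j.val + 1 = k) := by
        have := j.2
        intro h
        exact hk1 ⟨by omega, by omega⟩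
      unfold dl
      rw [if_neg h1, zero_mul]
  obtain ⟨a, ha⟩ : ∃ a : F, a = -∑ j : Fin (2 * m), (-1) ^ (j.val + 1) * D (j.val + 1) :=
    ⟨_, rfl⟩
  have h1r : 1 < r := by omega
  let χ : VV F r m →ₗ[F] F :=
    { toFun := fun v => ∑ j, v.1 j * D (j.val + 1) + a * v.2.1 ⟨1, h1r⟩
      map_add' := by
        intro v w
        simp only [Prod.fst_add, Prod.snd_add, Pi.add_apply, add_mul, mul_add,
          Finset.sum_add_distrib]
        ring
      map_smul' := by
        intro c v
        simp only [Prod.smul_fst, Prod.smul_snd, Pi.smul_apply, smul_eq_mul, RingHom.id_apply,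
          mul_add, Finset.mul_sum]
        congr 1
        · exact Finset.sum_congr rfl fun j _ => by ring
        · ring }
  have hχ : ∀ v : VV F r m, χ v = ∑ j, v.1 j * D (j.val + 1) + a * v.2.1 ⟨1, h1r⟩ :=
    fun _ => rfl
  have hker : ∀ g ∈ X, π (ff g) = 0 := by
    intro g hg
    rw [← LinearMap.mem_ker, hk]
    exact Submodule.subset_span ⟨g, hg, rfl⟩
  have hadd : ∀ (u : Fin (2 * m) → F) (w : WW F r), π (u, w) = π (u, 0) + w := by
    intro u w
    have e : ((u, w) : VV F r m) = (u, 0) + (0, w) := by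
      rw [Prod.mk_add_mk, add_zero, zero_add]
    rw [e, map_add, hπ]
  have hwj : ∀ j : ℕ, (wj j : WW F r) ≠ 0 := by
    intro j h0
    unfold wj at h0
    split_ifs at h0
    · have h2 := congrArg Prod.snd h0
      unfold w1 at h2
      simp at h2
    · have h2 := congrFun (congrArg Prod.fst h0) ⟨0, by omega⟩
      unfold w0 at h2
      simp at h2
  have hwj1 : ∀ j : ℕ, (wj j : WW F r).1 ⟨1, h1r⟩ = 0 := by
    intro j
    unfold wj
    split_ifs
    · rfl
    · unfold w0
      simp
  have hall : ∀ g ∈ X, χ (ff g) = 0 := by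
    intro g hg
    have hg0 := hker g hg
    rcases g with (i' | j) | (((_ | i') | h))
    · have hne : i' ≠ i := fun h => hc (h ▸ hg)
      have hne' : i'.val ≠ i.val := fun h => hne (Fin.ext h)
      have e0 : (ff (Sum.inl (Sum.inl i')) : VV F r m) = (dl (i'.val + 1), 0) - (dl i'.val, 0) := by
        unfold ff
        rw [Prod.mk_sub_mk, sub_zero]
      rw [e0, map_sub, sub_eq_zero, ← hp, ← hp] at hg0
      rw [e0, map_sub, hχ, hχ]
      have e1 : ∀ k : ℕ, ∑ j : Fin (2 * m), ((dl k, (0 : WW F r)) : VV F r m).1 j *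
          D (j.val + 1) = D k := hD
      rw [e1, e1, hDdef, hDdef, hg0]
      have h3 := i'.2
      by_cases h4 : i.val + 1 ≤ i'.val ∧ p i'.val = 0
      · rw [if_pos ⟨by omega, by omega, h4.2⟩, if_pos ⟨h4.1, by omega, h4.2⟩]
        ring
      · rw [if_neg, if_neg]
        · ring
        · rintro ⟨h5, -, h6⟩
          exact h4 ⟨h5, h6⟩
        · rintro ⟨h5, -, h6⟩
          exact h4 ⟨by omega, h6⟩
    · have e0 : (ff (Sum.inl (Sum.inr j)) : VV F r m) = (dl (j.val + 1), wj j.val) := by
        unfold ff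
        rfl
      rw [e0, hadd, ← hp] at hg0
      have h5 : p (j.val + 1) ≠ 0 := by
        intro h6
        rw [h6, zero_add] at hg0
        exact hwj _ hg0
      rw [e0, hχ]
      have e1 : ∑ l : Fin (2 * m), ((dl (j.val + 1), (wj j.val : WW F r)) : VV F r m).1 l *
          D (l.val + 1) = D (j.val + 1) := hD _
      rw [e1, hDdef, if_neg (fun h => h5 h.2.2)]
      show 0 + a * (wj j.val : WW F r).1 ⟨1, h1r⟩ = 0
      rw [hwj1, mul_zero, add_zero]
    · have e0 : (ff (Sum.inr (Sum.inl none)) : VV F r m) =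
          (fun j => (-1) ^ (j.val + 1), (fun _ => 1, 0)) := by
        unfold ff
        rfl
      rw [e0, hχ]
      show ∑ j : Fin (2 * m), (-1) ^ (j.val + 1) * D (j.val + 1) + a * 1 = 0
      rw [ha]
      ring
    · exfalso
      have e0 : (ff (Sum.inr (Sum.inl (some i'))) : VV F r m) = (0, (Pi.single i' 1, 0)) := by
        unfold ff
        rfl
      rw [e0, hπ] at hg0
      have h2 := congrFun (congrArg Prod.fst hg0) i'
      simp at h2
    · exfalso
      have e0 : (ff (Sum.inr (Sum.inr h)) : VV F r m) =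
          (if h ∈ SS then dl (2 * m) else 0, (h, 1)) := by
        unfold ff
        rfl
      rw [e0, hadd] at hg0
      have h2 : π ((if h ∈ SS then dl (2 * m) else 0 : Fin (2 * m) → F), (0 : WW F r)) = 0 := by
        split_ifs
        · exact hG
        · exact map_zero π
      rw [h2, zero_add] at hg0
      have h3 := congrArg Prod.snd hg0
      simp at h3
  have hle : Submodule.span F ((ff : GG F r m → VV F r m) '' X) ≤ LinearMap.ker χ := by
    rw [Submodule.span_le]
    rintro _ ⟨g, hg, rfl⟩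
    exact hall g hg
  have hmem : ((dl (2 * m), 0) : VV F r m) ∈ LinearMap.ker χ := by
    apply hle
    rw [← hk]
    exact hG
  rw [LinearMap.mem_ker, hχ] at hmem
  have e1 : ∑ l : Fin (2 * m), ((dl (2 * m), (0 : WW F r)) : VV F r m).1 l *
      D (l.val + 1) = D (2 * m) := hD _
  have hi := i.2
  rw [e1, hDdef, if_pos ⟨by omega, le_rfl, by rw [hp]; exact hG⟩] at hmem
  have h7 : a * ((dl (2 * m), (0 : WW F r)) : VV F r m).2.1 ⟨1, h1r⟩ = 0 := by
    show a * 0 = 0
    ring
  rw [h7, add_zero] at hmem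
  exact one_ne_zero hmem

end Pool.Agent.MP8f11b1
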