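import Pool.Agent.Lib.MP_8f11b1_co_RX.Exch

set_option autoImplicit false

namespace Pool.Agent.MP8f11b1

variable {F : Type} [Field F] {r m : ℕ}

private theorem u0_finrank_WW : Module.finrank F (WW F r) = r + 1 := by
  simp [WW, Module.finrank_prod]

private theorem u0_finrank_VV : Module.finrank F (VV F r m) = 2 * m + (r + 1) := by
  simp [VV, WW, Module.finrank_prod]

private theorem u0_span (S : Submodule F (WW F r))
    (hS : (vecN : EN F r → WW F r) '' Set.univ ⊆ S) : S = ⊤ := by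
  refine eq_top_iff.2 fun w _ => ?_
  have h1 : w = (∑ i, w.1 i • (vecN (.inl (some i)) : WW F r)) + w.2 • vecN (.inr 0) := by
    refine Prod.ext ?_ ?_
    · rw [Prod.fst_add, Prod.fst_sum]
      funext j
      simp [vecN, Finset.sum_apply, Pi.single_apply]
    · rw [Prod.snd_add, Prod.snd_sum]
      simp [vecN]
  rw [h1]
  refine S.add_mem (S.sum_mem fun i _ => S.smul_mem _ ?_) (S.smul_mem _ ?_)
  · exact hS ⟨_, trivial, rfl⟩
  · exact hS ⟨_, trivial, rfl⟩

private theorem u0_not_sub [Finite F] (hr : 3 ≤ r)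
    (hch : CH F (ff : GG F r m → VV F r m) KK)
    {ι : EN F r → GG F r m} {X : Set (GG F r m)} (h : Emb F ι X) (B : Set (EN F r))
    (hB : LinearIndepOn F (vecN : EN F r → WW F r) B) (hc : B.ncard = r + 1) :
    ¬ ι '' B ∪ X ⊆ KK := by
  intro hsub
  have hd : Disjoint (ι '' B) X := by
    rw [Set.disjoint_left]
    rintro _ ⟨z, -, rfl⟩
    exact h.disj z
  have hcard : (ι '' B ∪ X).ncard = (KK : Set (GG F r m)).ncard := by
    rw [Set.ncard_union_eq hd (Set.toFinite _) (Set.toFinite _),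
      Set.ncard_image_of_injective _ h.inj, hc, h.card, hch.card, u0_finrank_VV]
    omega
  have hK : ι '' B ∪ X = KK := Set.eq_of_subset_of_ncard_le hsub hcard.ge (Set.toFinite _)
  obtain ⟨b, hb, z, hz, hn⟩ := exch hr B hB hc
  refine hn ((h.iff _).2 (Or.inl ?_))
  have hzK : ι z ∉ (KK : Set (GG F r m)) := by
    rw [← hK]
    rintro (⟨z', hz', he⟩ | he)
    · exact hz (h.inj he ▸ hz')
    · exact h.disj z he
  have hset : ι '' (insert z (B \ {b})) ∪ X = insert (ι z) (KK \ {ι b}) := by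
    rw [Set.image_insert_eq, Set.image_sdiff h.inj, Set.image_singleton, ← hK, Set.insert_union,
      Set.union_sdiff_distrib, Set.sdiff_singleton_eq_self (h.disj b)]
  rw [hset]
  refine (hch.ind (ι b) (hK ▸ Or.inl ⟨b, hb, rfl⟩)).insert fun hmem => ?_
  exact hch.flat (ι z) hzK (Submodule.span_mono (Set.image_mono Set.sdiff_subset) hmem)

theorem Emb.lin [Finite F] (hr : 3 ≤ r) (hch : CH F (ff : GG F r m → VV F r m) KK)
    {ι : EN F r → GG F r m} {X : Set (GG F r m)} (h : Emb F ι X) : LEmb F ι X := by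
  refine ⟨h.inj, h.disj, h.card, fun B => ⟨fun hB => ?_, fun hB => (h.iff B).2 (Or.inl hB)⟩⟩
  obtain ⟨B₁, h1, -, h2, h3⟩ := lin_extend (vecN : EN F r → WW F r) (Set.subset_univ B) hB
  have hc : B₁.ncard = r + 1 := by
    rw [← lin_finrank_span (vecN : EN F r → WW F r) h2 (Set.toFinite _), u0_span _ h3,
      finrank_top, u0_finrank_WW]
  rcases (h.iff B₁).1 h2 with h4 | h4
  · exact h4.mono (Set.union_subset_union_left _ (Set.image_mono h1))
  · exact absurd h4 (u0_not_sub hr hch h B₁ h2 hc)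

end Pool.Agent.MP8f11b1
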