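import Pool.Agent.Lib.MP_8f11b1_co_RX.U0
import Pool.Agent.Lib.MP_8f11b1_co_RX.S1
import Pool.Agent.Lib.MP_8f11b1_co_RX.S2c
import Pool.Agent.Lib.MP_8f11b1_co_RX.S3

set_option autoImplicit false

namespace Pool.Agent.MP8f11b1

variable {F : Type} [Field F] {r m : ℕ}

theorem uniq [Finite F] (hr : 29 ≤ r) (hch : CH F (ff : GG F r m → VV F r m) KK)
    {ι : EN F r → GG F r m} {X : Set (GG F r m)} (h : Emb F ι X) :
    X = Set.range fun i => Sum.inl (Sum.inl i) := by
  have hl := h.lin (by omega) hch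
  obtain ⟨π, hπ, hk⟩ := stage_one (by omega) hl
  have hG := stage_two hr hl hπ hk
  have hs : (Set.range fun i : Fin (2 * m) => (Sum.inl (Sum.inl i) : GG F r m)) ⊆ X := by
    rintro _ ⟨i, rfl⟩
    exact stage_three (by omega) hπ hk hG i
  have hX : X.Finite := Set.toFinite X
  refine (Set.eq_of_subset_of_ncard_le hs ?_ hX).symm
  rw [h.card, Set.ncard_range_of_injective, Nat.card_eq_fintype_card, Fintype.card_fin]
  intro a b hab
  simpa using hab

end Pool.Agent.MP8f11b1
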